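import Pool.Agent.T4h89.KN.Stm

set_option autoImplicit false

namespace Pool.Agent.T4h89.KN

open Finset

namespace EQV

variable {V : Type} [Fintype V] [DecidableEq V] {A P : V → V → ℤ}

theorem ge (h : Sys A P) (x y : V) : -1 ≤ P x y := by
  by_cases hxy : x = y
  · subst hxy
    rw [h.Pdg]
    norm_num
  · rcases h.Pval x y hxy with h1 | h1 | h1 <;> omega

theorem ne_of (h : Sys A P) {x y : V} (h2 : P x y ≠ 2) : x ≠ y := by
  rintro rfl
  exact h2 (h.Pdg x)

end EQV

open EQV in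
theorem t_EQV (hN : S_NUM) (hR : S_REF) : S_EQV := by
  intro V _ _ A P h u v huv
  have hvu : P v u = 1 := by rw [h.Psym]; exact huv
  refine ⟨?_, ?_, ?_⟩
  · intro w w' h1 h2 h3 h4 hne
    rcases h.Pval w w' hne with h5 | h5 | h5
    · exfalso
      obtain ⟨z, hz⟩ := h.line w w' h5
      have h6 := hz u
      have h7 := ge h z u
      rw [h.Psym w u, h.Psym w' u, h1, h3] at h6
      omega
    · exact Or.inl h5
    · exact Or.inr h5
  · intro w w' w'' h1 h2 h3 h4 h5 h6 h7 h8 h9
    obtain ⟨z, hz⟩ := hR V A P h u w w' h1 h3 h7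
    have h10 : P z w'' = -1 := by
      rw [hz, h8, h9, h5]
      norm_num
    obtain ⟨y, hy⟩ := h.line z w'' h10
    have h11 := hy v
    have h12 := ge h y v
    rw [hz v, h.Psym w v, h.Psym w' v, h.Psym w'' v, h2, h4, h6, huv] at h11
    omega
  · intro w w' w'' h1 h2 h3 h4 h5 h6 h7 h8 h9
    obtain ⟨z1, hz1⟩ := hR V A P h u w w' h1 h3 h9
    obtain ⟨z2, hz2⟩ := hR V A P h v w w' h2 h4 h9
    have hwu : P w u = 1 := by rw [h.Psym]; exact h1
    have hwv : P w v = 1 := by rw [h.Psym]; exact h2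
    have hwu' : P w' u = 1 := by rw [h.Psym]; exact h3
    have hwv' : P w' v = 1 := by rw [h.Psym]; exact h4
    have hw0 : P w' w = 0 := by rw [h.Psym]; exact h9
    have a1 : P z1 u = 0 := by rw [hz1, hwu, hwu', h.Pdg]; norm_num
    have a2 : P z1 v = 1 := by rw [hz1, hwv, hwv', huv]; norm_num
    have a3 : P z1 w'' = 1 := by rw [hz1, h7, h8, h5]; norm_num
    have b1 : P z2 u = 1 := by rw [hz2, hwu, hwu', hvu]; norm_num
    have b2 : P z2 v = 0 := by rw [hz2, hwv, hwv', h.Pdg]; norm_num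
    have b3 : P z2 w'' = 1 := by rw [hz2, h7, h8, h6]; norm_num
    have c1 : P w z1 = 1 := by rw [h.Psym, hz1, h.Pdg, hw0, h1]; norm_num
    have c2 : P w' z1 = 1 := by rw [h.Psym, hz1, h.Pdg, h9, h3]; norm_num
    have d1 : P w z2 = 1 := by rw [h.Psym, hz2, h.Pdg, hw0, h2]; norm_num
    have d2 : P w' z2 = 1 := by rw [h.Psym, hz2, h.Pdg, h9, h4]; norm_num
    have e1 : P z1 z2 = 1 := by
      rw [hz1, d1, d2, h.Psym u z2, b1]
      norm_num
    have h4c := (hN V A P h).2.1 w w' h9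
    have hsub : ({u, v, w'', z1, z2} : Finset V) ⊆
        univ.filter fun z => P w z = 1 ∧ P w' z = 1 := by
      intro x hx
      simp only [mem_insert, mem_singleton] at hx
      rw [mem_filter]
      refine ⟨mem_univ _, ?_⟩
      rcases hx with rfl | rfl | rfl | rfl | rfl
      · exact ⟨hwu, hwu'⟩
      · exact ⟨hwv, hwv'⟩
      · exact ⟨h7, h8⟩
      · exact ⟨c1, c2⟩
      · exact ⟨d1, d2⟩
    have hc := card_le_card hsub
    rw [h4c] at hc
    have n1 : u ≠ v := ne_of h (by rw [huv]; norm_num)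
    have n2 : u ≠ w'' := ne_of h (by rw [h5]; norm_num)
    have n3 : u ≠ z1 := ne_of h (by rw [h.Psym, a1]; norm_num)
    have n4 : u ≠ z2 := ne_of h (by rw [h.Psym, b1]; norm_num)
    have n5 : v ≠ w'' := ne_of h (by rw [h6]; norm_num)
    have n6 : v ≠ z1 := ne_of h (by rw [h.Psym, a2]; norm_num)
    have n7 : v ≠ z2 := ne_of h (by rw [h.Psym, b2]; norm_num)
    have n8 : w'' ≠ z1 := ne_of h (by rw [h.Psym, a3]; norm_num)
    have n9 : w'' ≠ z2 := ne_of h (by rw [h.Psym, b3]; norm_num)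
    have n10 : z1 ≠ z2 := ne_of h (by rw [e1]; norm_num)
    have h5c : ({u, v, w'', z1, z2} : Finset V).card = 5 := by
      rw [card_insert_of_notMem, card_insert_of_notMem, card_insert_of_notMem,
        card_insert_of_notMem, card_singleton]
      · simp [n10]
      · simp [n8, n9]
      · simp [n5, n6, n7]
      · simp [n1, n2, n3, n4]
    omega

end Pool.Agent.T4h89.KN
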