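import Pool.Agent.T4h89.KN.Stm

/-!
# KN, task GAL

Matrix algebra with `G = A^2 - 3A - 4 - 4J`, `A J = 20 J` and the cubic identity.
-/

namespace Pool.Agent.T4h89.KN

namespace GAL

open Finset Matrix

variable {V : Type} [Fintype V] [DecidableEq V]

/-- The all-ones matrix. -/
def J (V : Type) : Matrix V V ℤ := fun _ _ => 1

/-- `A` as a matrix. -/
def MA (A : V → V → ℤ) : Matrix V V ℤ := fun x y => A x y

/-- `gr A` as a matrix. -/
def G (A : V → V → ℤ) : Matrix V V ℤ :=
  MA A * MA A - (3 : ℤ) • MA A - (4 : ℤ) • (1 : Matrix V V ℤ) - (4 : ℤ) • J V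

lemma G_apply (A : V → V → ℤ) (x y : V) : G A x y = gr A x y := by
  simp only [G, gr, Matrix.sub_apply, Matrix.mul_apply, Matrix.smul_apply, MA, J,
    Matrix.one_apply, smul_eq_mul]
  push_cast
  ring

lemma cubM {A : V → V → ℤ} (h : Core A) :
    MA A * MA A * MA A = (34 : ℤ) • MA A + (40 : ℤ) • (1 : Matrix V V ℤ) + (120 : ℤ) • J V
      - (7 : ℤ) • (MA A * MA A) := by
  ext x y
  have h1 := h.cub x y
  have h2 : (MA A * MA A * MA A) x y = ∑ z, ∑ w, A x z * A z w * A w y := by
    rw [Matrix.mul_apply, Finset.sum_comm]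
    refine Finset.sum_congr rfl fun w _ => ?_
    rw [Matrix.mul_apply, Finset.sum_mul]
    rfl
  have h3 : (MA A * MA A) x y = ∑ z, A x z * A z y := by
    rw [Matrix.mul_apply]
    rfl
  simp only [Matrix.sub_apply, Matrix.add_apply, Matrix.smul_apply, h2, h3, MA, J,
    Matrix.one_apply, smul_eq_mul]
  push_cast
  linarith

lemma MJ {A : V → V → ℤ} (h : Core A) : MA A * J V = (20 : ℤ) • J V := by
  ext x y
  rw [Matrix.mul_apply]
  simp only [MA, J, mul_one, Matrix.smul_apply, smul_eq_mul]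
  rw [h.reg x]

lemma JM {A : V → V → ℤ} (h : Core A) : J V * MA A = (20 : ℤ) • J V := by
  ext x y
  rw [Matrix.mul_apply]
  simp only [MA, J, one_mul, mul_one, Matrix.smul_apply, smul_eq_mul]
  have h1 : ∑ z, A z y = ∑ z, A y z := Finset.sum_congr rfl fun z _ => h.sym z y
  rw [h1, h.reg y]

lemma JJ {A : V → V → ℤ} (h : Core A) : J V * J V = (84 : ℤ) • J V := by
  ext x y
  rw [Matrix.mul_apply]
  simp only [J, mul_one, Matrix.smul_apply, smul_eq_mul, Finset.sum_const, Finset.card_univ,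
    h.card]
  norm_num

lemma GJ {A : V → V → ℤ} (h : Core A) : G A * J V = 0 := by
  have h1 : MA A * MA A * J V = (400 : ℤ) • J V := by
    rw [Matrix.mul_assoc, MJ h, Matrix.mul_smul, MJ h, smul_smul]; norm_num
  rw [G, Matrix.sub_mul, Matrix.sub_mul, Matrix.sub_mul, h1, Matrix.smul_mul, Matrix.smul_mul,
    Matrix.smul_mul, MJ h, JJ h, Matrix.one_mul]
  ext x y
  simp only [Matrix.sub_apply, Matrix.smul_apply, J, smul_eq_mul, Matrix.zero_apply]
  norm_num

lemma JG {A : V → V → ℤ} (h : Core A) : J V * G A = 0 := by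
  have h1 : J V * (MA A * MA A) = (400 : ℤ) • J V := by
    rw [← Matrix.mul_assoc, JM h, Matrix.smul_mul, JM h, smul_smul]; norm_num
  rw [G, Matrix.mul_sub, Matrix.mul_sub, Matrix.mul_sub, h1, Matrix.mul_smul, Matrix.mul_smul,
    Matrix.mul_smul, JM h, JJ h, Matrix.mul_one]
  ext x y
  simp only [Matrix.sub_apply, Matrix.smul_apply, J, smul_eq_mul, Matrix.zero_apply]
  norm_num

lemma MG {A : V → V → ℤ} (h : Core A) : MA A * G A = -((10 : ℤ) • G A) := by
  have h1 : MA A * G A = MA A * MA A * MA A - (3 : ℤ) • (MA A * MA A) - (4 : ℤ) • MA A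
      - (80 : ℤ) • J V := by
    rw [G, Matrix.mul_sub, Matrix.mul_sub, Matrix.mul_sub, Matrix.mul_smul, Matrix.mul_smul,
      Matrix.mul_smul, MJ h, Matrix.mul_one, Matrix.mul_assoc, smul_smul]; norm_num
  rw [h1, cubM h, G]
  ext x y
  simp only [Matrix.sub_apply, Matrix.add_apply, Matrix.neg_apply, Matrix.smul_apply,
    smul_eq_mul]
  ring

lemma GG {A : V → V → ℤ} (h : Core A) : G A * G A = (126 : ℤ) • G A := by
  have h1 : G A * G A = MA A * (MA A * G A) - (3 : ℤ) • (MA A * G A) - (4 : ℤ) • G A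
      - (4 : ℤ) • (J V * G A) := by
    conv_lhs => rw [show G A * G A = (MA A * MA A - (3 : ℤ) • MA A
      - (4 : ℤ) • (1 : Matrix V V ℤ) - (4 : ℤ) • J V) * G A from rfl]
    rw [Matrix.sub_mul, Matrix.sub_mul, Matrix.sub_mul, Matrix.smul_mul, Matrix.smul_mul,
      Matrix.smul_mul, Matrix.one_mul, Matrix.mul_assoc]
  rw [h1, JG h, MG h, Matrix.mul_neg, Matrix.mul_smul, MG h]
  ext x y
  simp only [Matrix.sub_apply, Matrix.neg_apply, Matrix.smul_apply, smul_eq_mul,
    Matrix.zero_apply]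
  push_cast
  ring

end GAL

open Finset in
theorem t_GAL : S_GAL := by
  intro V _ _ A h
  refine ⟨?_, ?_, ?_, ?_, ?_⟩
  · intro x y
    unfold gr
    have h1 : ∑ z, A x z * A z y = ∑ z, A y z * A z x := by
      refine Finset.sum_congr rfl fun z _ => ?_
      rw [h.sym x z, h.sym z y, mul_comm]
    rw [h1, h.sym x y]
    simp only [eq_comm]
  · intro x
    unfold gr
    have h1 : ∑ z, A x z * A z x = ∑ z, A x z := by
      refine Finset.sum_congr rfl fun z _ => ?_
      rw [h.sym z x]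
      rcases h.zo x z with h0 | h0 <;> rw [h0] <;> norm_num
    rw [h1, h.reg x, h.dg x]
    norm_num
  · intro x
    have h1 := congrFun (congrFun (GAL.GJ h) x) x
    rw [Matrix.mul_apply] at h1
    simp only [GAL.J, mul_one, Matrix.zero_apply, GAL.G_apply] at h1
    exact h1
  · intro x y
    have h1 := congrFun (congrFun (GAL.GG h) x) y
    rw [Matrix.mul_apply] at h1
    simp only [Matrix.smul_apply, GAL.G_apply, smul_eq_mul] at h1
    exact h1
  · intro x y
    have h1 := congrFun (congrFun (GAL.MG h) x) y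
    rw [Matrix.mul_apply] at h1
    simp only [Matrix.smul_apply, Matrix.neg_apply, GAL.G_apply, smul_eq_mul, GAL.MA] at h1
    rw [h1]
    ring

end Pool.Agent.T4h89.KN
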