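import Pool.Agent.T4h89.KN.Stm

/-! Sum of squares of a 3-tensor (task GEG of project KN). -/

namespace Pool.Agent.T4h89.KN

open Finset

namespace GEG

variable {V : Type} [Fintype V] [DecidableEq V]

theorem cyc (F : V → V → V → ℤ) : ∑ a, ∑ b, ∑ c, F b c a = ∑ a, ∑ b, ∑ c, F a b c := by
  rw [Finset.sum_comm]
  exact Finset.sum_congr rfl fun b _ => Finset.sum_comm

theorem sw (S : Finset V) (F : V → V → V → V → ℤ) :
    ∑ a, ∑ b, ∑ c, ∑ v ∈ S, F a b c v = ∑ v ∈ S, ∑ a, ∑ b, ∑ c, F a b c v := by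
  have h1 : ∀ a b, ∑ c, ∑ v ∈ S, F a b c v = ∑ v ∈ S, ∑ c, F a b c v := fun a b =>
    Finset.sum_comm
  have h2 : ∀ a, ∑ b, ∑ v ∈ S, ∑ c, F a b c v = ∑ v ∈ S, ∑ b, ∑ c, F a b c v := fun a =>
    Finset.sum_comm
  simp only [h1, h2]
  exact Finset.sum_comm

theorem pr (F : V → V → ℤ) (z : V → ℤ) :
    ∑ a, ∑ b, ∑ c, F a b * z c = (∑ a, ∑ b, F a b) * ∑ c, z c := by
  rw [Finset.sum_mul]
  refine Finset.sum_congr rfl fun a _ => ?_
  rw [Finset.sum_mul]
  refine Finset.sum_congr rfl fun b _ => ?_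
  rw [Finset.mul_sum]

theorem pr3 (x y z : V → ℤ) :
    ∑ a, ∑ b, ∑ c, x a * y b * z c = (∑ a, x a) * (∑ b, y b) * ∑ c, z c := by
  rw [pr (fun a b => x a * y b) z]
  congr 1
  rw [Finset.sum_mul_sum]

end GEG

open GEG in
theorem t_GEG : S_GEG := by
  intro V _ _ g hV hs hd hg S
  -- basic sums
  have hg' : ∀ x y, ∑ a, g a x * g a y = 126 * g x y := by
    intro x y
    rw [← hg x y]
    refine Finset.sum_congr rfl fun a _ => ?_
    rw [hs a x]
  set z : V → ℤ := fun c => ∑ v ∈ S, g c v with hz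
  have hz1 : ∀ c, z c = ∑ v ∈ S, g c v := fun c => rfl
  set Y : ℤ := ∑ v ∈ S, z v with hY
  have hgz : ∀ v, ∑ c, g c v * z c = 126 * z v := by
    intro v
    simp only [hz1, Finset.mul_sum]
    rw [Finset.sum_comm]
    refine Finset.sum_congr rfl fun w _ => ?_
    rw [hg' v w]
  have hZ2 : ∑ c, z c * z c = 126 * Y := by
    have h1 : ∀ c, z c * z c = ∑ v ∈ S, g c v * z c := by
      intro c
      rw [← Finset.sum_mul]
    simp only [h1]
    rw [Finset.sum_comm, hY, Finset.mul_sum]
    exact Finset.sum_congr rfl fun v _ => hgz v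
  have hY0 : 0 ≤ Y := by
    have h1 : 0 ≤ ∑ c, z c * z c := Finset.sum_nonneg fun c _ => mul_self_nonneg _
    omega
  set T : V → V → V → ℤ := fun a b c => ∑ v ∈ S, g a v * g b v * g c v with hT
  have hTc : ∀ a b c, T b c a = T a b c := by
    intro a b c
    simp only [hT]
    exact Finset.sum_congr rfl fun v _ => by ring
  -- the sum of the squares of `T`
  have hTT : ∑ a, ∑ b, ∑ c, T a b c * T a b c = 126 ^ 3 * ∑ x ∈ S, ∑ y ∈ S, g x y ^ 3 := by
    have h1 : ∀ a b c, T a b c * T a b c = ∑ v ∈ S, (g a v * g b v * g c v) * T a b c := by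
      intro a b c
      rw [← Finset.sum_mul]
    simp only [h1]
    rw [sw, Finset.mul_sum]
    refine Finset.sum_congr rfl fun v _ => ?_
    have h2 : ∀ a b c, (g a v * g b v * g c v) * T a b c =
        ∑ w ∈ S, (g a v * g a w) * (g b v * g b w) * (g c v * g c w) := by
      intro a b c
      simp only [hT]
      rw [Finset.mul_sum]
      exact Finset.sum_congr rfl fun w _ => by ring
    simp only [h2]
    rw [sw, Finset.mul_sum]
    refine Finset.sum_congr rfl fun w _ => ?_
    rw [pr3 (fun a => g a v * g a w) (fun a => g a v * g a w) (fun a => g a v * g a w), hg']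
    ring
  -- the mixed sum
  have hF1 : ∑ a, ∑ b, ∑ c, T a b c * (g a b * z c) = 12 * 126 ^ 3 * Y := by
    have h1 : ∀ a b c, T a b c * (g a b * z c) =
        ∑ v ∈ S, (g a v * g b v * g a b) * (g c v * z c) := by
      intro a b c
      simp only [hT]
      rw [Finset.sum_mul]
      exact Finset.sum_congr rfl fun w _ => by ring
    simp only [h1]
    rw [sw, hY, Finset.mul_sum]
    refine Finset.sum_congr rfl fun v _ => ?_
    rw [pr (fun a b => g a v * g b v * g a b) (fun c => g c v * z c), hgz]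
    have h2 : ∑ a, ∑ b, g a v * g b v * g a b = 126 ^ 2 * 12 := by
      have h3 : ∀ a, ∑ b, g a v * g b v * g a b = 126 * (g a v * g a v) := by
        intro a
        have h4 : ∀ b, g a v * g b v * g a b = g a v * (g a b * g b v) := fun b => by ring
        simp only [h4]
        rw [← Finset.mul_sum, hg]
        ring
      simp only [h3]
      rw [← Finset.mul_sum, hg', hd]
      ring
    rw [h2]
    ring
  -- the squares in `U`
  have hE1 : ∑ a, ∑ b, ∑ c, (g a b * z c) * (g a b * z c) = 24 * 126 ^ 3 * Y / 3 := by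
    have h1 : ∀ a b c, (g a b * z c) * (g a b * z c) = (g a b * g a b) * (z c * z c) :=
      fun a b c => by ring
    simp only [h1]
    rw [pr (fun a b => g a b * g a b) (fun c => z c * z c), hZ2]
    have h2 : ∑ a, ∑ b, g a b * g a b = 84 * (126 * 12) := by
      have h3 : ∀ a, ∑ b, g a b * g a b = 126 * 12 := by
        intro a
        rw [← hd a, ← hg a a]
        exact Finset.sum_congr rfl fun b _ => by rw [hs b a]
      simp only [h3]
      rw [Finset.sum_const, Finset.card_univ, hV, nsmul_eq_mul]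
      rfl
    rw [h2]
    omega
  have hE2 : ∑ a, ∑ b, ∑ c, (g a b * z c) * (g b c * z a) = 126 ^ 3 * Y := by
    have h0 : ∀ a, ∑ b, ∑ c, (g a b * z c) * (g b c * z a) = 126 ^ 2 * (z a * z a) := by
      intro a
      rw [Finset.sum_comm]
      have h1 : ∀ c, ∑ b, (g a b * z c) * (g b c * z a) = 126 * z a * (g c a * z c) := by
        intro c
        have h2 : ∀ b, (g a b * z c) * (g b c * z a) = (z c * z a) * (g a b * g b c) :=
          fun b => by ring
        simp only [h2]
        rw [← Finset.mul_sum, hg, hs a c]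
        ring
      simp only [h1]
      rw [← Finset.mul_sum, hgz]
      ring
    simp only [h0]
    rw [← Finset.mul_sum, hZ2]
    ring
  -- the sum of squares
  set U : V → V → V → ℤ := fun a b c => g a b * z c + g b c * z a + g c a * z b with hU
  have hmain : ∑ a, ∑ b, ∑ c, (T a b c - U a b c) ^ 2 =
      126 ^ 3 * (∑ x ∈ S, ∑ y ∈ S, g x y ^ 3) - 42 * 126 ^ 3 * Y := by
    set F1 : V → V → V → ℤ := fun a b c => T a b c * (g a b * z c) with hF
    set E1 : V → V → V → ℤ := fun a b c => (g a b * z c) * (g a b * z c) with hE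
    set E2 : V → V → V → ℤ := fun a b c => (g a b * z c) * (g b c * z a) with hEE
    have h1 : ∀ a b c, (T a b c - U a b c) ^ 2 = T a b c * T a b c
        - 2 * F1 a b c - 2 * F1 b c a - 2 * F1 c a b
        + E1 a b c + E1 b c a + E1 c a b + 2 * E2 a b c + 2 * E2 b c a + 2 * E2 c a b := by
      intro a b c
      have h2 : F1 b c a = T a b c * (g b c * z a) := by
        show T b c a * (g b c * z a) = _
        rw [hTc]
      have h3 : F1 c a b = T a b c * (g c a * z b) := by
        show T c a b * (g c a * z b) = _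
        rw [hTc b c a, hTc a b c]
      rw [h2, h3]
      simp only [hU, hF, hE, hEE]
      ring
    have c1 : ∀ F : V → V → V → ℤ, ∑ a, ∑ b, ∑ c, F c a b = ∑ a, ∑ b, ∑ c, F a b c := by
      intro F
      rw [← cyc fun a b c => F c a b]
    have hF1' : ∑ a, ∑ b, ∑ c, F1 a b c = 12 * 126 ^ 3 * Y := hF1
    have hE1' : ∑ a, ∑ b, ∑ c, E1 a b c = 24 * 126 ^ 3 * Y / 3 := hE1
    have hE2' : ∑ a, ∑ b, ∑ c, E2 a b c = 126 ^ 3 * Y := hE2
    simp only [h1, Finset.sum_add_distrib, Finset.sum_sub_distrib, ← Finset.mul_sum]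
    rw [cyc F1, cyc E1, cyc E2, c1 F1, c1 E1, c1 E2, hF1', hE1', hE2', hTT]
    omega
  have hpos : 0 ≤ ∑ a, ∑ b, ∑ c, (T a b c - U a b c) ^ 2 :=
    Finset.sum_nonneg fun a _ => Finset.sum_nonneg fun b _ => Finset.sum_nonneg fun c _ =>
      sq_nonneg _
  have hfin : ∑ x ∈ S, ∑ y ∈ S, (g x y ^ 3 - 36 * g x y) =
      ∑ x ∈ S, ∑ y ∈ S, g x y ^ 3 - 36 * Y := by
    simp only [Finset.sum_sub_distrib, ← Finset.mul_sum]
    rfl
  rw [hfin]
  rw [hmain] at hpos
  omega

end Pool.Agent.T4h89.KN
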