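import Pool.Agent.T4h89.KN.Stm

namespace Pool.Agent.T4h89.KN

open Finset

namespace GEN

/-- Indicator function. -/
def chi (s : Finset (Fin 9)) (x : Fin 9) : ℤ := if x ∈ s then 1 else 0

theorem chi_inj {s t : Finset (Fin 9)} (h : ∀ x, chi s x = chi t x) : s = t := by
  ext x
  have := h x
  unfold chi at this
  by_cases h1 : x ∈ s <;> by_cases h2 : x ∈ t <;> simp_all

theorem sum_chi (s : Finset (Fin 9)) : ∑ x, chi s x = (s.card : ℤ) := by
  simp [chi]

theorem sum_chi_mul (s t : Finset (Fin 9)) : ∑ x, chi s x * chi t x = ((s ∩ t).card : ℤ) := by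
  have h : ∀ x, chi s x * chi t x = chi (s ∩ t) x := by
    intro x
    by_cases h1 : x ∈ s <;> by_cases h2 : x ∈ t <;> simp [chi, h1, h2]
  rw [Finset.sum_congr rfl fun x _ => h x, sum_chi]

variable {V : Type} [Fintype V] [DecidableEq V]

/-- `z` realises `s`. -/
def Rz (P : V → V → ℤ) (c : Fin 9 → V) (s : Finset (Fin 9)) (z : V) : Prop :=
  ∃ (a : Fin 9 → ℤ) (k : ℤ), (∀ t, P z t = ∑ i, a i * P (c i) t) ∧
    (∀ x, ∑ i, a i * chi (cfg i) x = chi s x + k) ∧ ∑ i, a i = 1 + 3 * k

theorem prod_eq {A P : V → V → ℤ} (hP : Sys A P) {c : Fin 9 → V}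
    (hc : ∀ i j, P (c i) (c j) = ((cfg i ∩ cfg j).card : ℤ) - 1)
    {s t : Finset (Fin 9)} (hs : s.card = 3) (ht : t.card = 3) {z w : V}
    (hz : Rz P c s z) (hw : Rz P c t w) : P z w = ((s ∩ t).card : ℤ) - 1 := by
  obtain ⟨a, k, h1, h2, h3⟩ := hz
  obtain ⟨b, l, g1, g2, g3⟩ := hw
  have e1 : P z w = ∑ i, ∑ j, a i * b j * (((cfg i ∩ cfg j).card : ℤ) - 1) := by
    rw [h1 w]
    refine Finset.sum_congr rfl fun i _ => ?_
    rw [hP.Psym (c i) w, g1 (c i), Finset.mul_sum]
    refine Finset.sum_congr rfl fun j _ => ?_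
    rw [hP.Psym (c j) (c i), hc i j]; ring
  have e2 : ∑ x, (∑ i, a i * chi (cfg i) x) * (∑ j, b j * chi (cfg j) x) =
      ∑ i, ∑ j, a i * b j * ((cfg i ∩ cfg j).card : ℤ) := by
    simp only [Finset.sum_mul_sum]
    rw [Finset.sum_comm]
    refine Finset.sum_congr rfl fun i _ => ?_
    rw [Finset.sum_comm]
    refine Finset.sum_congr rfl fun j _ => ?_
    rw [← sum_chi_mul, Finset.mul_sum]
    refine Finset.sum_congr rfl fun x _ => ?_
    ring
  have e3 : ∑ i, ∑ j, a i * b j = (∑ i, a i) * (∑ j, b j) := by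
    rw [Finset.sum_mul_sum]
  have e4 : P z w = (∑ i, ∑ j, a i * b j * ((cfg i ∩ cfg j).card : ℤ)) - ∑ i, ∑ j, a i * b j := by
    rw [e1, ← Finset.sum_sub_distrib]
    refine Finset.sum_congr rfl fun i _ => ?_
    rw [← Finset.sum_sub_distrib]
    refine Finset.sum_congr rfl fun j _ => ?_
    ring
  rw [e4, ← e2, e3, h3, g3]
  have e5 : ∑ x, (∑ i, a i * chi (cfg i) x) * (∑ j, b j * chi (cfg j) x) =
      ((s ∩ t).card : ℤ) + 3 * l + 3 * k + 9 * (k * l) := by
    have : ∀ x, (∑ i, a i * chi (cfg i) x) * (∑ j, b j * chi (cfg j) x) =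
        chi s x * chi t x + l * chi s x + k * chi t x + k * l := by
      intro x; rw [h2 x, g2 x]; ring
    rw [Finset.sum_congr rfl fun x _ => this x]
    simp only [Finset.sum_add_distrib, ← Finset.mul_sum]
    rw [sum_chi_mul, sum_chi, sum_chi, hs, ht]
    simp only [Finset.sum_const, Finset.card_univ, Fintype.card_fin]
    push_cast
    ring
  rw [e5]; ring

/-- The combination `w + q - p`. -/
theorem comb {P : V → V → ℤ} {c : Fin 9 → V} {p q w w' : Finset (Fin 9)} {zp zq zw z : V}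
    (hp : Rz P c p zp) (hq : Rz P c q zq) (hw : Rz P c w zw)
    (hz : ∀ t, P z t = P zw t + P zq t - P zp t)
    (hchi : ∀ e, chi w' e = chi w e + chi q e - chi p e) : Rz P c w' z := by
  obtain ⟨a, k, h1, h2, h3⟩ := hp
  obtain ⟨b, l, g1, g2, g3⟩ := hq
  obtain ⟨d, m, f1, f2, f3⟩ := hw
  refine ⟨fun i => d i + b i - a i, m + l - k, ?_, ?_, ?_⟩
  · intro t
    rw [hz t, h1 t, g1 t, f1 t, ← Finset.sum_add_distrib, ← Finset.sum_sub_distrib]
    refine Finset.sum_congr rfl fun i _ => ?_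
    ring
  · intro x
    have : ∑ i, (d i + b i - a i) * chi (cfg i) x =
        (∑ i, d i * chi (cfg i) x) + (∑ i, b i * chi (cfg i) x) - ∑ i, a i * chi (cfg i) x := by
      rw [← Finset.sum_add_distrib, ← Finset.sum_sub_distrib]
      refine Finset.sum_congr rfl fun i _ => ?_
      ring
    rw [this, h2 x, g2 x, f2 x, hchi x]; ring
  · rw [Finset.sum_sub_distrib, Finset.sum_add_distrib, h3, g3, f3]; ring

/-- The swap lemma. -/
theorem swapR (hR : S_REF) {A P : V → V → ℤ} (hP : Sys A P) {c : Fin 9 → V}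
    (hc : ∀ i j, P (c i) (c j) = ((cfg i ∩ cfg j).card : ℤ) - 1)
    {p q w w' : Finset (Fin 9)} (cp : p.card = 3) (cq : q.card = 3) (cw : w.card = 3)
    (hp : ∃ z, Rz P c p z) (hq : ∃ z, Rz P c q z) (hw : ∃ z, Rz P c w z)
    (hchi : ∀ e, chi w' e = chi w e + chi q e - chi p e)
    (hpq : (p ∩ q).card = 2)
    (h : w = p ∨ ((p ∩ w).card = 2 ∧ (w ∩ q).card = 1) ∨ ((p ∩ w).card = 1 ∧ (w ∩ q).card = 0)) :
    ∃ z, Rz P c w' z := by
  obtain ⟨zp, hzp⟩ := hp
  obtain ⟨zq, hzq⟩ := hq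
  obtain ⟨zw, hzw⟩ := hw
  have ppq := prod_eq hP hc cp cq hzp hzq
  have ppw := prod_eq hP hc cp cw hzp hzw
  have pwq := prod_eq hP hc cw cq hzw hzq
  rw [hpq] at ppq
  rcases h with h | ⟨h1, h2⟩ | ⟨h1, h2⟩
  · refine ⟨zq, ?_⟩
    have : w' = q := by
      apply chi_inj
      intro e
      rw [hchi e, h]; ring
    rw [this]; exact hzq
  · rw [h1] at ppw
    rw [h2] at pwq
    obtain ⟨z, hz⟩ := hR V A P hP zp zw zq (by rw [ppw]; norm_num) (by rw [ppq]; norm_num)
      (by rw [pwq]; norm_num)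
    exact ⟨z, comb hzp hzq hzw hz hchi⟩
  · rw [h1] at ppw
    rw [h2] at pwq
    obtain ⟨r, hr⟩ := hP.line zw zq (by rw [pwq]; norm_num)
    have hrp : P r zp = -1 := by
      rw [hr zp, hP.Psym zw zp, hP.Psym zq zp, ppw, ppq]; norm_num
    obtain ⟨z, hz⟩ := hP.line r zp hrp
    refine ⟨z, comb hzp hzq hzw (fun t => ?_) hchi⟩
    rw [hz t, hr t]; ring

theorem cfg_card : ∀ i, (cfg i).card = 3 := by decide

theorem real_cfg {P : V → V → ℤ} {c : Fin 9 → V} (i : Fin 9) : Rz P c (cfg i) (c i) := by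
  refine ⟨fun j => if j = i then 1 else 0, 0, ?_, ?_, ?_⟩
  · intro t; simp
  · intro x; simp
  · simp

/-- The set that contains `x` in the swap of `x` and `x + 1`. -/
def pp (x : Fin 8) : Fin 9 := if x = 0 then 7 else if x = 1 then 1 else ⟨x.val - 2, by omega⟩

/-- The set that contains `x + 1` in the swap of `x` and `x + 1`. -/
def qq (x : Fin 8) : Fin 9 := if x = 0 then 8 else if x = 1 then 7 else ⟨x.val - 1, by omega⟩

theorem chi_pq : ∀ (x : Fin 8) (e : Fin 9), chi (cfg (qq x)) e - chi (cfg (pp x)) e =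
    (if e = x.succ then 1 else 0) - (if e = x.castSucc then 1 else 0) := by
  decide +kernel

theorem card_pq : ∀ x : Fin 8, (cfg (pp x) ∩ cfg (qq x)).card = 2 := by
  decide +kernel

theorem cases_w : ∀ (x : Fin 8), ∀ w ∈ (univ : Finset (Fin 9)).powersetCard 3,
    x.castSucc ∈ w → x.succ ∉ w →
    (w = cfg (pp x) ∨ ((cfg (pp x) ∩ w).card = 2 ∧ (w ∩ cfg (qq x)).card = 1) ∨
      ((cfg (pp x) ∩ w).card = 1 ∧ (w ∩ cfg (qq x)).card = 0)) := by
  decide +kernel

theorem down : ∀ s ∈ (univ : Finset (Fin 9)).powersetCard 3,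
    s = cfg 0 ∨ ∃ x : Fin 8, x.succ ∈ s ∧ x.castSucc ∉ s := by
  decide +kernel

theorem all_real (hR : S_REF) {A P : V → V → ℤ} (hP : Sys A P) {c : Fin 9 → V}
    (hc : ∀ i j, P (c i) (c j) = ((cfg i ∩ cfg j).card : ℤ) - 1) :
    ∀ (n : ℕ) (s : Finset (Fin 9)), s.card = 3 → ∑ e ∈ s, e.val = n → ∃ z, Rz P c s z := by
  intro n
  induction n using Nat.strong_induction_on with
  | _ n ih =>
    intro s hs hn
    have hmem : s ∈ (univ : Finset (Fin 9)).powersetCard 3 :=
      Finset.mem_powersetCard.2 ⟨Finset.subset_univ _, hs⟩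
    rcases down s hmem with h | ⟨x, hx1, hx2⟩
    · rw [h]; exact ⟨c 0, real_cfg 0⟩
    · have hne : x.castSucc ∉ s.erase x.succ := fun h => hx2 (Finset.mem_of_mem_erase h)
      have hcard : (insert x.castSucc (s.erase x.succ)).card = 3 := by
        rw [Finset.card_insert_of_notMem hne, Finset.card_erase_of_mem hx1, hs]
      have hsum : ∑ e ∈ insert x.castSucc (s.erase x.succ), e.val < n := by
        rw [Finset.sum_insert hne]
        have h1 : x.succ.val + ∑ e ∈ s.erase x.succ, e.val = ∑ e ∈ s, e.val :=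
          Finset.add_sum_erase s (fun e : Fin 9 => e.val) hx1
        have h2 : x.succ.val = x.val + 1 := Fin.val_succ x
        have h3 : x.castSucc.val = x.val := rfl
        rw [h3]
        rw [h2, hn] at h1
        generalize ∑ e ∈ s.erase x.succ, e.val = S at *
        omega
      obtain ⟨z, hz⟩ := ih _ hsum _ hcard rfl
      have hsx : x.succ ≠ x.castSucc := by
        intro h
        have := congrArg Fin.val h
        simp at this
      refine swapR hR hP hc (cfg_card (pp x)) (cfg_card (qq x)) hcard ⟨_, real_cfg (pp x)⟩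
        ⟨_, real_cfg (qq x)⟩ ⟨z, hz⟩ ?_ (card_pq x) ?_
      · intro e
        have h1 := chi_pq x e
        have h2 : chi s e = chi (insert x.castSucc (s.erase x.succ)) e +
            ((if e = x.succ then 1 else 0) - (if e = x.castSucc then 1 else 0)) := by
          unfold chi
          by_cases he1 : e = x.succ
          · subst he1
            simp [hx1, hsx]
          · by_cases he2 : e = x.castSucc
            · subst he2
              simp [hx2, Ne.symm hsx]
            · simp [he1, he2]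
        rw [h2]; linarith
      · refine cases_w x _ (Finset.mem_powersetCard.2 ⟨Finset.subset_univ _, hcard⟩) ?_ ?_
        · exact Finset.mem_insert_self _ _
        · intro h
          rcases Finset.mem_insert.1 h with h | h
          · exact hsx h
          · exact (Finset.notMem_erase _ _) h

end GEN

theorem t_GEN (hR : S_REF) : S_GEN := by
  intro V _ _ A P hP c hc
  have h := fun s : Tri => GEN.all_real hR hP hc _ s.1 s.2 rfl
  choose f hf using h
  exact ⟨f, fun s t => GEN.prod_eq hP hc s.2 t.2 (hf s) (hf t)⟩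

end Pool.Agent.T4h89.KN
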