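import Pool.Agent.T4h89.KN.Stm

namespace Pool.Agent.T4h89.KN

open Finset

theorem card_tri : Fintype.card Tri = 84 := by
  have h := Fintype.card_finset_len (α := Fin 9) 3
  have h2 : Fintype.card Tri = Fintype.card {s : Finset (Fin 9) // s.card = 3} := rfl
  rw [h2, h]
  simp [Fintype.card_fin]
  decide

theorem t_ISO (hS : S_SL) (hG : S_GEN) : S_ISO := by
  intro V _ _ G _ P hP
  obtain ⟨c, hc⟩ := hS V _ P hP
  obtain ⟨f, hf⟩ := hG V _ P hP c hc
  have hinj : Function.Injective f := by
    intro s t hst
    have h1 := hf s t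
    rw [hst, hP.Pdg] at h1
    have h2 : (s.1 ∩ t.1).card = 3 := by
      have : ((s.1 ∩ t.1).card : ℤ) = 3 := by linarith
      exact_mod_cast this
    have h3 : s.1 ∩ t.1 = s.1 := by
      apply Finset.eq_of_subset_of_card_le Finset.inter_subset_left
      rw [h2, s.2]
    have h4 : s.1 ∩ t.1 = t.1 := by
      apply Finset.eq_of_subset_of_card_le Finset.inter_subset_right
      rw [h2, t.2]
    exact Subtype.ext (h3.symm.trans h4)
  have hcard : Fintype.card Tri = Fintype.card V := by rw [card_tri, hP.card]
  have hbij : Function.Bijective f :=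
    (Fintype.bijective_iff_injective_and_card f).2 ⟨hinj, hcard⟩
  have hadj : ∀ s t : Tri, G.Adj (f s) (f t) ↔ kneser.Adj s t := by
    intro s t
    have h1 := hP.Adef (f s) (f t)
    have h2 := hf s t
    have h3 : P (f s) (f t) = -1 ↔ Disjoint s.1 t.1 := by
      rw [h2, Finset.disjoint_iff_inter_eq_empty, ← Finset.card_eq_zero]
      constructor
      · intro h
        have : ((s.1 ∩ t.1).card : ℤ) = 0 := by linarith
        exact_mod_cast this
      · intro h
        rw [h]; norm_num
    by_cases ha : G.Adj (f s) (f t)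
    · simp only [ha, if_true] at h1
      by_cases hp : P (f s) (f t) = -1
      · exact iff_of_true ha (h3.1 hp)
      · simp [hp] at h1
    · simp only [ha, if_false] at h1
      by_cases hp : P (f s) (f t) = -1
      · simp [hp] at h1
      · exact iff_of_false ha (fun h => hp (h3.2 h))
  exact ⟨(RelIso.symm ⟨Equiv.ofBijective f hbij, fun {s t} => hadj s t⟩ : G ≃g kneser)⟩

end Pool.Agent.T4h89.KN
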