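import Pool.Agent.T4h89.KN.Stm

/-! # KNE: the matrix of the Kneser graph K(9,3) -/

namespace Pool.Agent.T4h89.KN

open Finset

namespace KNEh

/-- the matrix -/
def Am (s t : Tri) : ℤ := if Disjoint s.1 t.1 then 1 else 0

/-- the number of 3-subsets of the complement of two 3-subsets with `k` common points -/
def ff (k : ℕ) : ℤ := if k = 0 then 1 else if k = 1 then 4 else if k = 2 then 10 else 20

def x0 : Tri := ⟨{0, 1, 2}, by decide⟩

set_option maxRecDepth 100000 in
theorem c1 : ∑ w : Tri, Am x0 w = 20 := by decide +kernel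

set_option maxRecDepth 100000 in
theorem c2 : ∀ y : Tri, ∑ w : Tri, Am x0 w * Am w y = ff (x0.1 ∩ y.1).card := by decide +kernel

set_option maxRecDepth 100000 in
theorem c3 : ∀ y : Tri, (∑ z : Tri, Am x0 z * ff (z.1 ∩ y.1).card) + 7 * ff (x0.1 ∩ y.1).card -
    34 * Am x0 y - 40 * (if x0 = y then 1 else 0) = 120 := by decide +kernel

/-- relabelling -/
def rl (π : Equiv.Perm (Fin 9)) : Tri ≃ Tri :=
  (Equiv.finsetCongr π).subtypeEquiv fun s => by
    rw [Equiv.finsetCongr_apply, card_map]

theorem rl_val (π : Equiv.Perm (Fin 9)) (s : Tri) : (rl π s).1 = s.1.map π.toEmbedding := rfl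

theorem Am_rl (π : Equiv.Perm (Fin 9)) (s t : Tri) : Am (rl π s) (rl π t) = Am s t := by
  unfold Am
  simp only [rl_val, Finset.disjoint_map]

theorem card_rl (π : Equiv.Perm (Fin 9)) (s t : Tri) :
    ((rl π s).1 ∩ (rl π t).1).card = (s.1 ∩ t.1).card := by
  rw [rl_val, rl_val, ← Finset.map_inter, Finset.card_map]

theorem ex_rl (s : Tri) : ∃ π, rl π x0 = s := by
  have e : {x // x ∈ x0.1} ≃ {x // x ∈ s.1} := Finset.equivOfCardEq (by rw [s.2, x0.2])
  refine ⟨e.extendSubtype, ?_⟩
  apply Subtype.ext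
  rw [rl_val]
  apply Finset.eq_of_subset_of_card_le
  · intro y hy
    obtain ⟨x, hx, rfl⟩ := Finset.mem_map.1 hy
    exact e.extendSubtype_mem x hx
  · rw [Finset.card_map, s.2, x0.2]

theorem reg (x : Tri) : ∑ w, Am x w = 20 := by
  obtain ⟨π, rfl⟩ := ex_rl x
  rw [← Equiv.sum_comp (rl π)]
  simp only [Am_rl]
  exact c1

theorem sq (x y : Tri) : ∑ w, Am x w * Am w y = ff (x.1 ∩ y.1).card := by
  obtain ⟨π, rfl⟩ := ex_rl x
  obtain ⟨y, rfl⟩ := (rl π).surjective y
  rw [← Equiv.sum_comp (rl π)]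
  simp only [Am_rl]
  rw [c2 y, card_rl]

theorem cub (x y : Tri) : (∑ z, Am x z * ff (z.1 ∩ y.1).card) + 7 * ff (x.1 ∩ y.1).card -
    34 * Am x y - 40 * (if x = y then 1 else 0) = 120 := by
  obtain ⟨π, rfl⟩ := ex_rl x
  obtain ⟨y, rfl⟩ := (rl π).surjective y
  rw [← Equiv.sum_comp (rl π)]
  simp only [Am_rl, card_rl, (rl π).injective.eq_iff]
  exact c3 y

set_option maxRecDepth 100000 in
theorem card84 : Fintype.card Tri = 84 := by decide +kernel

end KNEh

open KNEh

theorem t_KNE : S_KNE where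
  card := card84
  sym x y := by
    simp only [disjoint_comm]
  dg x := by
    have h : ¬ Disjoint x.1 x.1 := fun h => by
      have h0 : x.1 = ∅ := by simpa using h
      have h1 := x.2
      rw [h0] at h1
      simp at h1
    simp only [h, if_false]
  zo x y := by
    by_cases h : Disjoint x.1 y.1
    · right; simp only [h, if_true]
    · left; simp only [h, if_false]
  reg x := reg x
  cub x y := by
    have h := cub x y
    have h2 : ∀ z, Am x z * ff (z.1 ∩ y.1).card = ∑ w, Am x z * Am z w * Am w y := fun z => by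
      rw [← sq z y, Finset.mul_sum]
      refine Finset.sum_congr rfl fun w _ => ?_
      ring
    simp only [h2, ← sq x y] at h
    exact h

end Pool.Agent.T4h89.KN
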