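import Pool.Agent.T4h89.KN.Stm

/-! KRE: sum of squares of a 3-tensor. -/

set_option autoImplicit false

namespace Pool.Agent.T4h89.KN

open Finset

namespace KRE

variable {V : Type} [Fintype V] [DecidableEq V]

/-- the matrix `-84 d + 21 A + 14 P - 4` -/
def EE (A P : V → V → ℤ) (x y : V) : ℤ :=
  -84 * (if x = y then 1 else 0) + 21 * A x y + 14 * P x y - 4

theorem E_sym {A P : V → V → ℤ} (h : Sys A P) (x y : V) : EE A P x y = EE A P y x := by
  unfold EE
  rw [h.Asym x y, h.Psym x y]
  by_cases hxy : x = y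
  · rw [if_pos hxy, if_pos hxy.symm]
  · rw [if_neg hxy, if_neg (fun hc => hxy hc.symm)]

theorem E_sq {A P : V → V → ℤ} (h : Sys A P) (x y : V) :
    ∑ z, EE A P x z * EE A P z y = -105 * EE A P x y := by
  have e1 : ∑ z, (if x = z then (1 : ℤ) else 0) * (if z = y then (1 : ℤ) else 0) =
      if x = y then 1 else 0 := by simp
  have e2 : ∀ f : V → ℤ, ∑ z, (if x = z then (1 : ℤ) else 0) * f z = f x := by
    intro f
    simp
  have e3 : ∀ f : V → ℤ, ∑ z, f z * (if z = y then (1 : ℤ) else 0) = f y := by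
    intro f
    simp
  have e4 : ∑ z, P x z * A z y = -10 * P x y := by
    have h1 := h.AP y x
    rw [h.Psym y x] at h1
    rw [← h1]
    refine Finset.sum_congr rfl fun z _ => ?_
    rw [h.Psym x z, h.Asym z y]
    ring
  have e5 : ∑ z, A z y = 20 := by
    rw [← h.A0 y]
    exact Finset.sum_congr rfl fun z _ => h.Asym z y
  have e6 : ∑ z, P z y = 0 := by
    rw [← h.P0 y]
    exact Finset.sum_congr rfl fun z _ => h.Psym z y
  have e7 : ∑ _z : V, (16 : ℤ) = 16 * 84 := by
    rw [Finset.sum_const, Finset.card_univ, h.card]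
    norm_num
  have key : ∑ z, EE A P x z * EE A P z y =
      7056 * (∑ z, (if x = z then (1 : ℤ) else 0) * (if z = y then (1 : ℤ) else 0)) +
      (-84) * (∑ z, (if x = z then (1 : ℤ) else 0) * (21 * A z y + 14 * P z y - 4)) +
      (-84) * (∑ z, (21 * A x z + 14 * P x z - 4) * (if z = y then (1 : ℤ) else 0)) +
      441 * (∑ z, A x z * A z y) + 294 * (∑ z, A x z * P z y) + 294 * (∑ z, P x z * A z y) +
      196 * (∑ z, P x z * P z y) + (-84) * (∑ z, A x z) + (-84) * (∑ z, A z y) +
      (-56) * (∑ z, P x z) + (-56) * (∑ z, P z y) + ∑ _z : V, (16 : ℤ) := by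
    simp only [Finset.mul_sum, ← Finset.sum_add_distrib]
    refine Finset.sum_congr rfl fun z _ => ?_
    unfold EE
    ring
  rw [key, e1, e2, e3, e4, e5, e6, e7, h.AA, h.AP, h.PP, h.A0, h.P0]
  unfold EE
  ring

theorem PE_sum {A P : V → V → ℤ} (h : Sys A P) (x : V) :
    ∑ y, P x y * P x y * EE A P x y = 0 := by
  have h1 : ∀ y, P x y * P x y * EE A P x y =
      -260 * (if x = y then (1 : ℤ) else 0) + 13 * A x y + 10 * P x y := by
    intro y
    unfold EE
    by_cases hxy : x = y
    · subst hxy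
      have hA : A x x = 0 := by
        rw [h.Adef, h.Pdg]
        norm_num
      rw [hA, h.Pdg]
      simp
    · rw [if_neg hxy, h.Adef]
      rcases h.Pval x y hxy with hp | hp | hp <;> rw [hp] <;> norm_num
  simp only [h1, Finset.sum_add_distrib, ← Finset.mul_sum]
  rw [h.A0, h.P0]
  simp

theorem F_zero {A P : V → V → ℤ} (h : Sys A P) (p q r : V) :
    ∑ z, P p z * P q z * EE A P r z = 0 := by
  have hP : ∀ x y, ∑ z, P z x * P z y = 21 * P x y := by
    intro x y
    rw [← h.PP x y]
    exact Finset.sum_congr rfl fun z _ => by rw [h.Psym z x]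
  have hE : ∀ x y, ∑ z, EE A P z x * EE A P z y = -105 * EE A P x y := by
    intro x y
    rw [← E_sq h x y]
    exact Finset.sum_congr rfl fun z _ => by rw [E_sym h z x]
  have hsq : ∑ t : V × V × V, (∑ z, P t.1 z * P t.2.1 z * EE A P t.2.2 z) ^ 2 = 0 := by
    calc ∑ t : V × V × V, (∑ z, P t.1 z * P t.2.1 z * EE A P t.2.2 z) ^ 2
        = ∑ t : V × V × V, ∑ u : V × V, (P t.1 u.1 * P t.1 u.2) * (P t.2.1 u.1 * P t.2.1 u.2) *
            (EE A P t.2.2 u.1 * EE A P t.2.2 u.2) := by
          refine Finset.sum_congr rfl fun t _ => ?_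
          rw [sq, Finset.sum_mul_sum, Fintype.sum_prod_type]
          refine Finset.sum_congr rfl fun z _ => Finset.sum_congr rfl fun z' _ => ?_
          ring
      _ = ∑ u : V × V, ∑ t : V × V × V, (P t.1 u.1 * P t.1 u.2) * (P t.2.1 u.1 * P t.2.1 u.2) *
            (EE A P t.2.2 u.1 * EE A P t.2.2 u.2) := Finset.sum_comm
      _ = ∑ u : V × V, (∑ a, P a u.1 * P a u.2) * (∑ b, P b u.1 * P b u.2) *
            (∑ c, EE A P c u.1 * EE A P c u.2) := by
          refine Finset.sum_congr rfl fun u _ => ?_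
          simp only [Fintype.sum_prod_type]
          simp only [← Finset.mul_sum, ← Finset.sum_mul]
      _ = ∑ u : V × V, (21 * P u.1 u.2) * (21 * P u.1 u.2) * (-105 * EE A P u.1 u.2) := by
          refine Finset.sum_congr rfl fun u _ => ?_
          rw [hP, hE]
      _ = ∑ x : V, ∑ y : V, (21 * P x y) * (21 * P x y) * (-105 * EE A P x y) := by
          rw [Fintype.sum_prod_type]
      _ = ∑ x : V, (-46305) * ∑ y : V, P x y * P x y * EE A P x y := by
          refine Finset.sum_congr rfl fun x _ => ?_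
          rw [Finset.mul_sum]
          refine Finset.sum_congr rfl fun y _ => ?_
          ring
      _ = 0 := by
          refine Finset.sum_eq_zero fun x _ => ?_
          rw [PE_sum h, mul_zero]
  have h2 := (Finset.sum_eq_zero_iff_of_nonneg (fun t _ => sq_nonneg _)).1 hsq (p, q, r)
    (Finset.mem_univ _)
  exact pow_eq_zero_iff (two_ne_zero) |>.1 h2

end KRE

theorem t_KRE : S_KRE := by
  intro V _ _ A P h p q r
  have h0 := KRE.F_zero h p q r
  have key : ∑ z, P p z * P q z * KRE.EE A P r z =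
      (-84) * (∑ z, (if r = z then (1 : ℤ) else 0) * (P p z * P q z)) +
      21 * (∑ s, A r s * (P p s * P q s)) + 14 * (∑ s, P p s * P q s * P r s) +
      (-4) * ∑ s, P p s * P s q := by
    simp only [Finset.mul_sum, ← Finset.sum_add_distrib]
    refine Finset.sum_congr rfl fun z _ => ?_
    unfold KRE.EE
    rw [h.Psym q z]
    ring
  have e2 : ∑ z, (if r = z then (1 : ℤ) else 0) * (P p z * P q z) = P p r * P q r := by
    simp
  rw [key, e2, h.PP] at h0
  linarith

end Pool.Agent.T4h89.KN
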