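import Pool.Agent.T4h89.KN.Stm

set_option autoImplicit false

namespace Pool.Agent.T4h89.KN

open Finset

namespace KS

variable {V : Type} [Fintype V] [DecidableEq V] {A P : V → V → ℤ}

theorem vals (h : Sys A P) (x y : V) : P x y = -1 ∨ P x y = 0 ∨ P x y = 1 ∨ (x = y ∧ P x y = 2) := by
  by_cases hxy : x = y
  · subst hxy
    exact Or.inr (Or.inr (Or.inr ⟨rfl, h.Pdg x⟩))
  · rcases h.Pval x y hxy with h1 | h1 | h1
    · exact Or.inl h1
    · exact Or.inr (Or.inl h1)
    · exact Or.inr (Or.inr (Or.inl h1))

theorem ge (h : Sys A P) (x y : V) : -1 ≤ P x y := by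
  rcases vals h x y with h1 | h1 | h1 | ⟨_, h1⟩ <;> omega

/-- a point adjacent to `u` has product `-1` or `0` with `v` -/
theorem adj (h : Sys A P) {u v s : V} (huv : P u v = 1) (hs : P u s = -1) :
    P v s = -1 ∨ P v s = 0 := by
  obtain ⟨z, hz⟩ := h.line u s hs
  have h1 := hz v
  have h2 := ge h z v
  have h3 := ge h v s
  rw [h.Psym s v] at h1
  omega

end KS

open KS in
theorem t_KS (hK : S_KRE) : S_KS := by
  intro V _ _ A P h u v huv t
  have hvu : P v u = 1 := by rw [h.Psym]; exact huv
  have hne : u ≠ v := by
    intro e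
    rw [e, h.Pdg] at huv
    norm_num at huv
  have key := hK V A P h v t u
  have e1 : ∑ s, A u s * (P v s * P t s) =
      -∑ s ∈ univ.filter (fun s => P u s = -1 ∧ P v s = -1), P s t := by
    rw [sum_filter, ← sum_neg_distrib]
    refine sum_congr rfl fun s _ => ?_
    rw [h.Adef u s, h.Psym t s]
    by_cases h1 : P u s = -1
    · rcases adj h huv h1 with h2 | h2
      · simp [h1, h2]
      · simp [h1, h2]
    · simp [h1]
  have e2 : ∑ s, P v s * P t s * P u s = 2 * P u t + 2 * P v t +
      (∑ w ∈ univ.filter (fun w => P u w = 1 ∧ P v w = 1), P w t) +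
      ∑ s ∈ univ.filter (fun s => P u s = -1 ∧ P v s = -1), P s t := by
    have e3 : 2 * P u t + 2 * P v t = ∑ s, ((if s = u then 2 * P u t else 0) +
        (if s = v then 2 * P v t else 0)) := by
      rw [sum_add_distrib, sum_ite_eq' univ u, sum_ite_eq' univ v]
      simp
    rw [e3, sum_filter, sum_filter, ← sum_add_distrib, ← sum_add_distrib]
    refine sum_congr rfl fun s _ => ?_
    rw [h.Psym t s]
    by_cases hu : s = u
    · subst hu
      have := h.Pdg s
      simp only [this, hvu, if_true, if_neg hne]
      norm_num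
      ring
    · by_cases hv : s = v
      · subst hv
        have := h.Pdg s
        simp only [this, huv, if_true, if_neg hu]
        norm_num
      · simp only [if_neg hu, if_neg hv]
        rcases vals h u s with h1 | h1 | h1 | ⟨h1, _⟩
        · rcases adj h huv h1 with h2 | h2
          · simp [h1, h2]
          · simp [h1, h2]
        · simp [h1]
        · rcases vals h v s with h2 | h2 | h2 | ⟨h2, _⟩
          · exfalso
            rcases adj h hvu h2 with h3 | h3 <;> omega
          · simp [h1, h2]
          · simp [h1, h2]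
          · exact absurd h2.symm hv
        · exact absurd h1.symm hu
  rw [e1, e2, hvu, h.Psym t u] at key
  linarith

end Pool.Agent.T4h89.KN
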