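import Pool.Agent.T4h89.KN.Stm

/-! # LIN: the third point of an edge -/

set_option autoImplicit false

namespace Pool.Agent.T4h89.KN

open Finset

namespace LIN

variable {V : Type} [Fintype V] [DecidableEq V] {A : V → V → ℤ}

theorem ne_of_adj (hA : Core A) {x y : V} (h : A x y = 1) : x ≠ y := by
  rintro rfl
  rw [hA.dg] at h
  exact absurd h (by norm_num)

theorem gr_adj (hA : Core A) (hO : OneT A) {x y : V} (h : A x y = 1) : gr A x y = -6 := by
  unfold gr
  rw [hO x y h, h, if_neg (ne_of_adj hA h)]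
  norm_num

theorem prod_zo (hA : Core A) (x y z : V) : A x z * A z y = 0 ∨ A x z * A z y = 1 := by
  rcases hA.zo x z with h | h <;> rcases hA.zo z y with h' | h' <;> simp [h, h']

theorem third (hA : Core A) (hO : OneT A) {x y : V} (h : A x y = 1) :
    ∃ z, A x z = 1 ∧ A y z = 1 ∧ ∀ w, A x w = 1 → A y w = 1 → w = z := by
  have h1 := hO x y h
  have hnn : ∀ z ∈ (univ : Finset V), 0 ≤ A x z * A z y := fun z _ => by
    rcases prod_zo hA x y z with h2 | h2 <;> rw [h2] <;> norm_num
  obtain ⟨z, hz⟩ : ∃ z, A x z * A z y = 1 := by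
    by_contra hcon
    push Not at hcon
    have h2 : ∑ z, A x z * A z y = 0 := Finset.sum_eq_zero fun z _ =>
      (prod_zo hA x y z).resolve_right (hcon z)
    rw [h2] at h1
    exact absurd h1 (by norm_num)
  have hz1 : A x z = 1 := by
    rcases hA.zo x z with h2 | h2
    · rw [h2, zero_mul] at hz
      exact absurd hz (by norm_num)
    · exact h2
  have hz2 : A z y = 1 := by
    rw [hz1, one_mul] at hz
    exact hz
  refine ⟨z, hz1, by rw [hA.sym]; exact hz2, fun w hw1 hw2 => ?_⟩
  by_contra hne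
  have hw3 : A w y = 1 := by
    rw [hA.sym]
    exact hw2
  have h3 : ∑ t ∈ ({w, z} : Finset V), A x t * A t y ≤ ∑ t, A x t * A t y :=
    Finset.sum_le_sum_of_subset_of_nonneg (Finset.subset_univ _) fun t ht _ => hnn t (mem_univ t)
  rw [Finset.sum_pair hne, hw1, hw3, hz1, hz2, h1] at h3
  norm_num at h3

end LIN

open LIN

theorem t_LIN (hG : S_GAL) : S_LIN := by
  intro V _ _ A hA hO x y h
  obtain ⟨z, hz1, hz2, hz3⟩ := third hA hO h
  refine ⟨z, hz1, hz2, hz3, ?_⟩
  obtain ⟨hs, hd, -, hq, -⟩ := hG V A hA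
  have hsum : ∑ t, (gr A x t + gr A y t + gr A z t) ^ 2 = 0 := by
    have e : ∀ t, (gr A x t + gr A y t + gr A z t) ^ 2 =
        gr A x t * gr A t x + gr A y t * gr A t y + gr A z t * gr A t z +
        2 * (gr A x t * gr A t y) + 2 * (gr A x t * gr A t z) + 2 * (gr A y t * gr A t z) := by
      intro t
      rw [hs t x, hs t y, hs t z]
      ring
    simp only [e, Finset.sum_add_distrib, ← Finset.mul_sum, hq, hd]
    rw [gr_adj hA hO h, gr_adj hA hO hz1, gr_adj hA hO hz2]
    norm_num
  intro t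
  have h1 := (Finset.sum_eq_zero_iff_of_nonneg fun t _ => sq_nonneg
    (gr A x t + gr A y t + gr A z t)).1 hsum t (mem_univ t)
  exact pow_eq_zero_iff (two_ne_zero) |>.1 h1

end Pool.Agent.T4h89.KN
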