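import Pool.Agent.T4h89.KN.Stm

/-! # MU: the values of the Gram matrix -/

set_option autoImplicit false

namespace Pool.Agent.T4h89.KN

open Finset

theorem t_MU (hG : S_GAL) (hV : S_VAL) (hC : S_CNT) (hE : S_GEG) : S_MU := by
  classical
  intro V _ _ A hA hO
  obtain ⟨hs, hd, -, hq, -⟩ := hG V A hA
  have hadj : ∀ x y, A x y = 1 → gr A x y = -6 := by
    intro x y h
    have hne : x ≠ y := by
      rintro rfl
      rw [hA.dg] at h
      exact absurd h (by norm_num)
    unfold gr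
    rw [hO x y h, h, if_neg hne]
    norm_num
  set S : Finset V := univ.filter fun u => ∃ v, gr A u v = -4 ∨ gr A u v = 2 ∨ gr A u v = 4
    with hS
  have h0 := hE V (gr A) hA.card hs hd hq S
  -- the sum over `S` is the sum over everything
  have h1 : ∀ x ∈ S, ∑ y ∈ S, (gr A x y ^ 3 - 36 * gr A x y) =
      ∑ y, (gr A x y ^ 3 - 36 * gr A x y) := by
    intro x hx
    refine Finset.sum_subset (Finset.subset_univ _) fun y _ hy => ?_
    have hy' : ¬ ∃ v, gr A y v = -4 ∨ gr A y v = 2 ∨ gr A y v = 4 := fun h =>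
      hy (Finset.mem_filter.2 ⟨mem_univ y, h⟩)
    have hne : x ≠ y := by
      rintro rfl
      exact hy hx
    have hn : ¬ (gr A x y = -4 ∨ gr A x y = 2 ∨ gr A x y = 4) := by
      intro h
      rw [hs x y] at h
      exact hy' ⟨x, h⟩
    rcases hA.zo x y with h | h
    · rcases hV V A hA hO x y hne h with h2 | h2 | h2 | h2 | h2
      · exact absurd (Or.inl h2) hn
      · rw [h2]
        norm_num
      · exact absurd (Or.inr (Or.inl h2)) hn
      · exact absurd (Or.inr (Or.inr h2)) hn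
      · rw [h2]
        norm_num
    · rw [hadj x y h]
      norm_num
  have hemp : S = ∅ := by
    by_contra hne
    obtain ⟨u, hu⟩ := Finset.nonempty_iff_ne_empty.2 hne
    have h2 : ∀ x ∈ S, ∑ y ∈ S, (gr A x y ^ 3 - 36 * gr A x y) < 0 := by
      intro x hx
      rw [h1 x hx]
      exact hC V A hA hO x (Finset.mem_filter.1 hx).2
    have h3 : ∑ x ∈ S, ∑ y ∈ S, (gr A x y ^ 3 - 36 * gr A x y) < 0 :=
      Finset.sum_neg h2 ⟨u, hu⟩
    exact absurd h0 (not_le.2 h3)
  intro x y hxy h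
  have hx : ¬ ∃ v, gr A x v = -4 ∨ gr A x v = 2 ∨ gr A x v = 4 := by
    intro hx
    have h2 : x ∈ S := Finset.mem_filter.2 ⟨mem_univ x, hx⟩
    rw [hemp] at h2
    exact absurd h2 (Finset.notMem_empty x)
  rcases hV V A hA hO x y hxy h with h2 | h2 | h2 | h2 | h2
  · exact absurd ⟨y, Or.inl h2⟩ hx
  · exact Or.inl h2
  · exact absurd ⟨y, Or.inr (Or.inl h2)⟩ hx
  · exact absurd ⟨y, Or.inr (Or.inr h2)⟩ hx
  · exact Or.inr h2

end Pool.Agent.T4h89.KN
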