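import Pool.Agent.T4h89.KN.Stm

/-!
# KN, task NUM (helper94): counting in a `Sys`
-/

set_option autoImplicit false

namespace Pool.Agent.T4h89.KN

open Finset

theorem t_NUM : S_NUM := by
  intro V _ _ A P h
  have hAx : ∀ x, A x x = 0 := by
    intro x
    rw [h.Adef x x, h.Pdg x, if_neg (by norm_num)]
  have hne : ∀ x y, P x y ≠ 2 → x ≠ y := by
    intro x y h1 h2
    subst h2
    exact h1 (h.Pdg x)
  -- the indicator functions
  have j1 : ∀ x y, (if P x y = 1 then (1 : ℤ) else 0) = P x y + A x y - 2 * (if x = y then 1 else 0) := by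
    intro x y
    by_cases hxy : x = y
    · subst hxy
      rw [h.Pdg x, hAx x, if_neg (by norm_num), if_pos rfl]
      norm_num
    · rw [h.Adef x y, if_neg hxy]
      rcases h.Pval x y hxy with h1 | h1 | h1 <;> rw [h1] <;> norm_num
  have j0 : ∀ x y, (if P x y = 0 then (1 : ℤ) else 0) =
      1 - P x y - 2 * A x y + (if x = y then 1 else 0) := by
    intro x y
    by_cases hxy : x = y
    · subst hxy
      rw [h.Pdg x, hAx x, if_neg (by norm_num), if_pos rfl]
      norm_num
    · rw [h.Adef x y, if_neg hxy]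
      rcases h.Pval x y hxy with h1 | h1 | h1 <;> rw [h1] <;> norm_num
  have PA : ∀ x y, ∑ z, P x z * A z y = -10 * P x y := by
    intro x y
    have h1 := h.AP y x
    rw [h.Psym y x] at h1
    rw [← h1]
    refine Finset.sum_congr rfl fun z _ => ?_
    rw [h.Psym x z, h.Asym z y]
    ring
  have d1 : ∀ (f : V → V → ℤ) x y, ∑ z, (if x = z then 1 else 0) * f z y = f x y := by
    intro f x y
    simp
  have d2 : ∀ (f : V → V → ℤ) x y, ∑ z, f x z * (if z = y then 1 else 0) = f x y := by
    intro f x y
    simp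
  have JJ : ∀ x y, ∑ z, (if P x z = 1 then (1 : ℤ) else 0) * (if P z y = 1 then (1 : ℤ) else 0) =
      8 * (if x = y then 1 else 0) - A x y + 4 + 3 * P x y := by
    intro x y
    have e : ∀ z, (if P x z = 1 then (1 : ℤ) else 0) * (if P z y = 1 then (1 : ℤ) else 0) =
        P x z * P z y + P x z * A z y + A x z * P z y + A x z * A z y
        - 2 * (P x z * (if z = y then 1 else 0)) - 2 * (A x z * (if z = y then 1 else 0))
        - 2 * ((if x = z then 1 else 0) * P z y) - 2 * ((if x = z then 1 else 0) * A z y)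
        + 4 * ((if x = z then 1 else 0) * (if z = y then 1 else 0)) := by
      intro z
      rw [j1 x z, j1 z y]
      ring
    simp only [e, Finset.sum_add_distrib, Finset.sum_sub_distrib, ← Finset.mul_sum]
    rw [h.PP x y, PA x y, h.AP x y, h.AA x y, d2 P x y, d2 A x y, d1 P x y, d1 A x y,
      d1 (fun z y => if z = y then 1 else 0) x y]
    ring
  have AJ : ∀ x y, ∑ z, A y z * (if P z x = 0 then (1 : ℤ) else 0) =
      12 - 5 * A y x - 8 * (if y = x then 1 else 0) - 2 * P y x := by
    intro x y
    have e : ∀ z, A y z * (if P z x = 0 then (1 : ℤ) else 0) =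
        A y z - A y z * P z x - 2 * (A y z * A z x) + A y z * (if z = x then 1 else 0) := by
      intro z
      rw [j0 z x]
      ring
    simp only [e, Finset.sum_add_distrib, Finset.sum_sub_distrib, ← Finset.mul_sum]
    rw [h.A0 y, h.AP y x, h.AA y x, d2 A y x]
    ring
  -- cardinalities as sums
  have c1 : ∀ x y, (((univ.filter fun z => P x z = 1 ∧ P y z = 1).card : ℕ) : ℤ) =
      ∑ z, (if P x z = 1 then (1 : ℤ) else 0) * (if P z y = 1 then (1 : ℤ) else 0) := by
    intro x y
    rw [Finset.card_filter]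
    push_cast
    refine Finset.sum_congr rfl fun z _ => ?_
    rw [h.Psym z y]
    by_cases h1 : P x z = 1 <;> by_cases h2 : P y z = 1 <;> simp [h1, h2]
  have c2 : ∀ x y, (((univ.filter fun z => P x z = -1 ∧ P y z = -1).card : ℕ) : ℤ) =
      ∑ z, A x z * A z y := by
    intro x y
    rw [Finset.card_filter]
    push_cast
    refine Finset.sum_congr rfl fun z _ => ?_
    rw [h.Asym z y, h.Adef x z, h.Adef y z]
    by_cases h1 : P x z = -1 <;> by_cases h2 : P y z = -1 <;> simp [h1, h2]
  have c3 : ∀ x y, (((univ.filter fun z => P x z = 0 ∧ P y z = -1).card : ℕ) : ℤ) =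
      ∑ z, A y z * (if P z x = 0 then (1 : ℤ) else 0) := by
    intro x y
    rw [Finset.card_filter]
    push_cast
    refine Finset.sum_congr rfl fun z _ => ?_
    rw [h.Psym z x, h.Adef y z]
    by_cases h1 : P x z = 0 <;> by_cases h2 : P y z = -1 <;> simp [h1, h2]
  refine ⟨?_, ?_, ?_, ?_⟩
  · intro x y hxy
    have hn : x ≠ y := hne x y (by rw [hxy]; norm_num)
    have hA : A x y = 0 := by rw [h.Adef x y, hxy, if_neg (by norm_num)]
    refine ⟨?_, ?_, ?_⟩
    · have h1 := c1 x y
      rw [JJ x y, if_neg hn, hA, hxy] at h1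
      norm_num at h1
      exact_mod_cast h1
    · have h1 := c2 x y
      rw [h.AA x y, if_neg hn, hA, hxy] at h1
      norm_num at h1
      exact_mod_cast h1
    · have h1 := c3 x y
      rw [AJ x y, if_neg (Ne.symm hn), h.Asym y x, hA, h.Psym y x, hxy] at h1
      norm_num at h1
      exact_mod_cast h1
  · intro x y hxy
    have hn : x ≠ y := hne x y (by rw [hxy]; norm_num)
    have hA : A x y = 0 := by rw [h.Adef x y, hxy, if_neg (by norm_num)]
    have h1 := c1 x y
    rw [JJ x y, if_neg hn, hA, hxy] at h1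
    norm_num at h1
    exact_mod_cast h1
  · intro x
    have h1 : (((univ.filter fun z => P x z = 1).card : ℕ) : ℤ) = 18 := by
      rw [Finset.card_filter]
      push_cast
      rw [Finset.sum_congr rfl fun z _ => j1 x z, Finset.sum_sub_distrib, Finset.sum_add_distrib,
        h.P0 x, h.A0 x, ← Finset.mul_sum]
      simp
    exact_mod_cast h1
  · intro x y hxy
    by_contra hn
    rcases h.Pval x y hn with h1 | h1 | h1 <;> rw [h1] at hxy <;> norm_num at hxy

end Pool.Agent.T4h89.KN
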