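import Pool.Agent.T4h89.KN.T_ONC

namespace Pool.Agent.T4h89.KN

open Finset

theorem core_A2 {V : Type} [Fintype V] [DecidableEq V] {A : V → V → ℤ} (hC : Core A) (u v : V) :
    ∑ z, A u z * A z v = ((univ.filter fun z => A u z = 1 ∧ A v z = 1).card : ℤ) := by
  rw [Finset.card_filter]
  push_cast
  refine Finset.sum_congr rfl fun z _ => ?_
  rw [hC.sym z v]
  rcases hC.zo u z with h | h <;> rcases hC.zo v z with k | k <;> simp [h, k]

/-- If two common neighbours of two adjacent vertices are always adjacent, then every edge is in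
exactly one triangle. -/
theorem t_ONB (hG : S_GAL) {V : Type} [Fintype V] [DecidableEq V] {A : V → V → ℤ} (hC : Core A)
    (hd : ∀ x y z w, A x y = 1 → A x z = 1 → A y z = 1 → A x w = 1 → A y w = 1 → z ≠ w →
      A z w = 1) :
    OneT A := by
  obtain ⟨gsym, gdg, g0, gg, _⟩ := hG V A hC
  have hne : ∀ {a b}, A a b = 1 → a ≠ b := by
    intro a b h he
    rw [he, hC.dg] at h; norm_num at h
  have hle : ∀ x y, A x y = 1 → ∑ z, A x z * A z y ≤ 1 := by
    intro x y hxy
    by_contra hcon
    push_neg at hcon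
    let K : Finset V := univ.filter fun z => z = x ∨ z = y ∨ (A x z = 1 ∧ A y z = 1)
    have hK : ∀ z, z ∈ K ↔ (z = x ∨ z = y ∨ (A x z = 1 ∧ A y z = 1)) := by
      intro z; simp [K]
    have hxK : x ∈ K := (hK x).2 (Or.inl rfl)
    have hyK : y ∈ K := (hK y).2 (Or.inr (Or.inl rfl))
    have hclq : ∀ u ∈ K, ∀ v ∈ K, u ≠ v → A u v = 1 := by
      intro u hu v hv huv
      rcases (hK u).1 hu with h1 | h1 | h1 <;> rcases (hK v).1 hv with h2 | h2 | h2
      · exact absurd (h1.trans h2.symm) huv
      · rw [h1, h2]; exact hxy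
      · rw [h1]; exact h2.1
      · rw [h1, h2, hC.sym]; exact hxy
      · exact absurd (h1.trans h2.symm) huv
      · rw [h1]; exact h2.2
      · rw [h2, hC.sym]; exact h1.1
      · rw [h2, hC.sym]; exact h1.2
      · exact hd x y u v hxy h1.1 h1.2 h2.1 h2.2 huv
    have hA2K : ∀ u ∈ K, ∀ v ∈ K, u ≠ v → ∑ z, A u z * A z v = (K.card : ℤ) - 2 := by
      intro u hu v hv huv
      rw [core_A2 hC u v]
      have he : (univ.filter fun z => A u z = 1 ∧ A v z = 1) = (K.erase u).erase v := by
        ext z
        simp only [Finset.mem_filter, Finset.mem_univ, true_and, Finset.mem_erase]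
        constructor
        · rintro ⟨h1, h2⟩
          refine ⟨(hne h2).symm, (hne h1).symm, ?_⟩
          have key : ∀ p ∈ K, p ≠ z → A p z = 1 := by
            intro p hp hpz
            by_cases hpu : p = u
            · rw [hpu]; exact h1
            · by_cases hpv : p = v
              · rw [hpv]; exact h2
              · exact hd u v p z (hclq u hu v hv huv) (hclq u hu p hp (Ne.symm hpu))
                  (hclq v hv p hp (Ne.symm hpv)) h1 h2 hpz
          by_cases hzx : z = x
          · rw [hzx]; exact hxK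
          · by_cases hzy : z = y
            · rw [hzy]; exact hyK
            · exact (hK z).2 (Or.inr (Or.inr ⟨key x hxK (Ne.symm hzx), key y hyK (Ne.symm hzy)⟩))
        · rintro ⟨h1, h2, h3⟩
          exact ⟨hclq u hu z h3 (Ne.symm h2), hclq v hv z h3 (Ne.symm h1)⟩
      rw [he, Finset.card_erase_of_mem (Finset.mem_erase.2 ⟨huv.symm, hv⟩),
        Finset.card_erase_of_mem hu]
      have hc2 : 2 ≤ K.card := by
        have : 1 < K.card := Finset.one_lt_card.2 ⟨u, hu, v, hv, huv⟩
        omega
      omega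
    have hxyne := hne hxy
    have hq := hA2K x hxK y hyK hxyne
    set c : ℤ := (K.card : ℤ) with hc
    have hc4 : 4 ≤ c := by linarith
    -- the quadratic form
    have hquad : ∑ u ∈ K, ∑ v ∈ K, gr A u v = c * (12 + (c - 1) * (c - 9)) := by
      have h1 : ∀ u ∈ K, ∑ v ∈ K, gr A u v = 12 + (c - 1) * (c - 9) := by
        intro u hu
        rw [← Finset.add_sum_erase K _ hu, gdg u]
        have h2 : ∀ v ∈ K.erase u, gr A u v = c - 9 := by
          intro v hv
          rw [Finset.mem_erase] at hv
          have h3 := hclq u hu v hv.2 (Ne.symm hv.1)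
          have h4 := hA2K u hu v hv.2 (Ne.symm hv.1)
          simp only [gr, h3, h4, if_neg (Ne.symm hv.1)]
          ring
        rw [Finset.sum_congr rfl h2, Finset.sum_const, Finset.card_erase_of_mem hu, nsmul_eq_mul]
        have h5 : ((K.card - 1 : ℕ) : ℤ) = c - 1 := by
          have : 1 ≤ K.card := Finset.card_pos.2 ⟨u, hu⟩
          omega
        rw [h5]
      rw [Finset.sum_congr rfl h1, Finset.sum_const, nsmul_eq_mul]
    have hnn : 0 ≤ ∑ u ∈ K, ∑ v ∈ K, gr A u v := by
      have h1 : ∑ z, (∑ u ∈ K, gr A u z) ^ 2 = 126 * ∑ u ∈ K, ∑ v ∈ K, gr A u v := by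
        have h2 : ∀ z, (∑ u ∈ K, gr A u z) ^ 2 = ∑ u ∈ K, ∑ v ∈ K, gr A u z * gr A z v := by
          intro z
          rw [sq, Finset.sum_mul_sum]
          refine Finset.sum_congr rfl fun u _ => Finset.sum_congr rfl fun v _ => ?_
          rw [gsym v z]
        rw [Finset.sum_congr rfl fun z _ => h2 z, Finset.sum_comm, Finset.mul_sum]
        refine Finset.sum_congr rfl fun u _ => ?_
        rw [Finset.sum_comm, Finset.mul_sum]
        exact Finset.sum_congr rfl fun v _ => gg u v
      have h3 : 0 ≤ ∑ z, (∑ u ∈ K, gr A u z) ^ 2 := Finset.sum_nonneg fun z _ => sq_nonneg _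
      linarith
    rw [hquad] at hnn
    have hc7 : 7 ≤ c := by
      by_contra h7
      push_neg at h7
      have h8 : c = 4 ∨ c = 5 ∨ c = 6 := by omega
      rcases h8 with h | h | h <;> rw [h] at hnn <;> norm_num at hnn
    -- too many triangles at x
    have h20 := core_tri20 hC x
    have hlow : (c - 1) * (c - 2) ≤ ∑ y, A x y * (∑ z, A x z * A z y) := by
      have h1 : ∑ v ∈ K.erase x, A x v * (∑ z, A x z * A z v) = (c - 1) * (c - 2) := by
        have h2 : ∀ v ∈ K.erase x, A x v * (∑ z, A x z * A z v) = c - 2 := by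
          intro v hv
          rw [Finset.mem_erase] at hv
          rw [hclq x hxK v hv.2 (Ne.symm hv.1), hA2K x hxK v hv.2 (Ne.symm hv.1)]
          ring
        rw [Finset.sum_congr rfl h2, Finset.sum_const, Finset.card_erase_of_mem hxK, nsmul_eq_mul]
        have h5 : ((K.card - 1 : ℕ) : ℤ) = c - 1 := by
          have : 1 ≤ K.card := Finset.card_pos.2 ⟨x, hxK⟩
          omega
        rw [h5]
      rw [← h1]
      refine Finset.sum_le_sum_of_subset_of_nonneg (Finset.subset_univ _) fun v _ _ => ?_
      rw [core_A2 hC x v]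
      rcases hC.zo x v with h | h <;> rw [h]
      · norm_num
      · rw [one_mul]; exact Int.natCast_nonneg _
    nlinarith
  -- all are equal to one
  intro x y0 hxy0
  have h20 := core_tri20 hC x
  have hreg := hC.reg x
  have hz : ∑ y, A x y * (1 - ∑ z, A x z * A z y) = 0 := by
    have : ∀ y, A x y * (1 - ∑ z, A x z * A z y) = A x y - A x y * (∑ z, A x z * A z y) := by
      intro y; ring
    rw [Finset.sum_congr rfl fun y _ => this y, Finset.sum_sub_distrib, h20, hreg]; norm_num
  have hnn : ∀ y ∈ (univ : Finset V), 0 ≤ A x y * (1 - ∑ z, A x z * A z y) := by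
    intro y _
    rcases hC.zo x y with h | h
    · rw [h]; norm_num
    · rw [h, one_mul]; linarith [hle x y h]
  have h0 := (Finset.sum_eq_zero_iff_of_nonneg hnn).1 hz y0 (Finset.mem_univ y0)
  rw [hxy0, one_mul] at h0
  linarith

end Pool.Agent.T4h89.KN
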