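import Pool.Agent.T4h89.KN.Stm

namespace Pool.Agent.T4h89.KN

open Finset

/-- The number of closed walks of length 3 at a vertex is 20. -/
theorem core_tri20 {V : Type} [Fintype V] [DecidableEq V] {A : V → V → ℤ} (hC : Core A) (x : V) :
    ∑ y, A x y * (∑ z, A x z * A z y) = 20 := by
  have h := hC.cub x x
  have h2 : ∑ z, A x z * A z x = 20 := by
    rw [← hC.reg x]
    refine Finset.sum_congr rfl fun z _ => ?_
    rw [hC.sym z x]
    rcases hC.zo x z with k | k <;> rw [k] <;> norm_num
  rw [h2, hC.dg x, if_pos rfl] at h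
  have h3 : (∑ z, ∑ w, A x z * A z w * A w x) = ∑ y, A x y * (∑ z, A x z * A z y) := by
    rw [Finset.sum_comm]
    refine Finset.sum_congr rfl fun y _ => ?_
    rw [Finset.mul_sum]
    refine Finset.sum_congr rfl fun z _ => ?_
    rw [hC.sym y x]; ring
  rw [← h3]
  linarith

/-- If the number of common neighbours of two different vertices which are not adjacent is at most 4
or at least 10, then every edge is in exactly one triangle. -/
theorem t_ONC (hG : S_GAL) {V : Type} [Fintype V] [DecidableEq V] {A : V → V → ℤ} (hC : Core A)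
    (hm : ∀ x y, x ≠ y → A x y = 0 → ∑ z, A x z * A z y ≤ 4 ∨ 10 ≤ ∑ z, A x z * A z y) :
    OneT A := by
  obtain ⟨gsym, gdg, g0, gg, _⟩ := hG V A hC
  intro x y0 hxy0
  have hpt : ∀ y, 72 * (if x = y then (1 : ℤ) else 0) +
      A x y * ((∑ z, A x z * A z y) ^ 2 - 20 * (∑ z, A x z * A z y) + 91) ≤
      gr A x y * gr A y x - 6 * gr A x y := by
    intro y
    rw [gsym y x]
    by_cases hxy : x = y
    · subst hxy
      rw [gdg x, hC.dg x]; norm_num
    · rw [if_neg hxy]
      have hgr : gr A x y = (∑ z, A x z * A z y) - 3 * A x y - 4 := by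
        simp only [gr, if_neg hxy]; ring
      rw [hgr]
      generalize (∑ z, A x z * A z y) = q at *
      rcases hC.zo x y with h | h
      · rw [h]
        have := hm x y hxy h
        have h4 := hm x y hxy h
        rw [show (72 : ℤ) * 0 + 0 * (q ^ 2 - 20 * q + 91) = 0 by ring]
        have : gr A x y = q - 4 := by rw [hgr, h]; ring
        have hq : q = ∑ z, A x z * A z y := by
          have h5 : gr A x y = (∑ z, A x z * A z y) - 3 * A x y - 4 := by
            simp only [gr, if_neg hxy]; ring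
          rw [h] at h5; linarith
        rw [← hq] at h4
        rcases h4 with h4 | h4 <;> nlinarith
      · rw [h]; nlinarith
  have hs := Finset.sum_le_sum (s := univ) fun y (_ : y ∈ univ) => hpt y
  have e1 : ∑ y, (gr A x y * gr A y x - 6 * gr A x y) = 1512 := by
    rw [Finset.sum_sub_distrib, ← Finset.mul_sum, g0 x, gg x x, gdg x]; norm_num
  rw [e1] at hs
  have e2 : ∑ y, (72 * (if x = y then (1 : ℤ) else 0) +
      A x y * ((∑ z, A x z * A z y) ^ 2 - 20 * (∑ z, A x z * A z y) + 91)) =
      72 + ∑ y, A x y * ((∑ z, A x z * A z y) - 1) ^ 2 - 18 * 20 + 90 * 20 := by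
    have h1 : ∀ y, (72 * (if x = y then (1 : ℤ) else 0) +
      A x y * ((∑ z, A x z * A z y) ^ 2 - 20 * (∑ z, A x z * A z y) + 91)) =
      72 * (if x = y then (1 : ℤ) else 0) + A x y * ((∑ z, A x z * A z y) - 1) ^ 2 +
      (-18) * (A x y * (∑ z, A x z * A z y)) + 90 * A x y := by
      intro y; ring
    rw [Finset.sum_congr rfl fun y _ => h1 y]
    simp only [Finset.sum_add_distrib, ← Finset.mul_sum]
    rw [core_tri20 hC x, hC.reg x]
    simp only [Finset.sum_ite_eq, Finset.mem_univ, if_true]
    ring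
  rw [e2] at hs
  have hnn : ∀ y ∈ (univ : Finset V), 0 ≤ A x y * ((∑ z, A x z * A z y) - 1) ^ 2 := by
    intro y _
    rcases hC.zo x y with h | h <;> rw [h]
    · norm_num
    · rw [one_mul]; exact sq_nonneg _
  have hz : ∑ y, A x y * ((∑ z, A x z * A z y) - 1) ^ 2 = 0 :=
    le_antisymm (by linarith) (Finset.sum_nonneg hnn)
  have h0 := (Finset.sum_eq_zero_iff_of_nonneg hnn).1 hz y0 (Finset.mem_univ y0)
  rw [hxy0, one_mul] at h0
  have h1 : (∑ z, A x z * A z y0) - 1 = 0 := by
    exact pow_eq_zero_iff (two_ne_zero) |>.1 h0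
  linarith

end Pool.Agent.T4h89.KN
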