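import Pool.Agent.T4h89.KN.Stm

/-!
# Project KN: task ONE
-/

set_option autoImplicit false

namespace Pool.Agent.T4h89.KN

open Finset

namespace ONE

variable {V : Type} [Fintype V] [DecidableEq V] {A : V → V → ℤ}

theorem nn (hC : Core A) (a b : V) : 0 ≤ A a b := by
  rcases hC.zo a b with h | h <;> rw [h] <;> norm_num

theorem key (hC : Core A) (x : V) : ∑ z, A x z * ((∑ w, A x w * A w z) - 1) = 0 := by
  have h1 := hC.cub x x
  rw [if_pos rfl, hC.dg] at h1
  have h2 : ∑ z, A x z * A z x = 20 := by
    rw [← hC.reg x]
    refine Finset.sum_congr rfl fun z _ => ?_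
    rw [hC.sym z x]
    rcases hC.zo x z with h | h <;> rw [h] <;> norm_num
  have h3 : ∑ z, ∑ w, A x z * A z w * A w x = ∑ z, A x z * ∑ w, A x w * A w z := by
    refine Finset.sum_congr rfl fun z _ => ?_
    rw [Finset.mul_sum]
    refine Finset.sum_congr rfl fun w _ => ?_
    rw [hC.sym w x, hC.sym z w]
    ring
  rw [h3, h2] at h1
  simp only [mul_sub, mul_one]
  rw [Finset.sum_sub_distrib, hC.reg x]
  linarith

/-- number of common neighbours -/
theorem comm (hC : Core A) (x y : V) :
    ∑ z, A x z * A z y = ((univ.filter fun z => A x z = 1 ∧ A y z = 1).card : ℤ) := by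
  rw [← Finset.sum_boole]
  refine Finset.sum_congr rfl fun z _ => ?_
  rw [hC.sym z y]
  rcases hC.zo x z with h | h <;> rcases hC.zo y z with h' | h' <;> rw [h, h'] <;> simp

end ONE

open ONE in
theorem t_ONE : S_ONE := by
  intro V _ _ A hC hor x y hxy
  have hk := key hC x
  rcases hor with hex | hun
  · have h1 : ∀ z ∈ (univ : Finset V), 0 ≤ A x z * ((∑ w, A x w * A w z) - 1) := by
      intro z _
      rcases hC.zo x z with h | h
      · rw [h, zero_mul]
      · obtain ⟨w, hw1, hw2⟩ := hex x z h
        have h2 : 1 ≤ ∑ w, A x w * A w z := by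
          rw [comm hC x z]
          have : 0 < (univ.filter fun w => A x w = 1 ∧ A z w = 1).card :=
            Finset.card_pos.2 ⟨w, by simp [hw1, hw2]⟩
          exact_mod_cast this
        rw [h, one_mul]
        linarith
    have h3 := (Finset.sum_eq_zero_iff_of_nonneg h1).1 hk y (Finset.mem_univ y)
    rw [hxy, one_mul] at h3
    linarith
  · have h1 : ∀ z ∈ (univ : Finset V), A x z * ((∑ w, A x w * A w z) - 1) ≤ 0 := by
      intro z _
      rcases hC.zo x z with h | h
      · rw [h, zero_mul]
      · have h2 : ∑ w, A x w * A w z ≤ 1 := by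
          rw [comm hC x z]
          have : (univ.filter fun w => A x w = 1 ∧ A z w = 1).card ≤ 1 := by
            rw [Finset.card_le_one]
            intro a ha b hb
            simp only [Finset.mem_filter, Finset.mem_univ, true_and] at ha hb
            exact hun x z a b h ha.1 ha.2 hb.1 hb.2
          exact_mod_cast this
        rw [h, one_mul]
        linarith
    have h3 := (Finset.sum_eq_zero_iff_of_nonpos h1).1 hk y (Finset.mem_univ y)
    rw [hxy, one_mul] at h3
    linarith

end Pool.Agent.T4h89.KN
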