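import Pool.Agent.T4h89.KN.Stm

/-!
# KN, task REF: the reflected point `v + w - u`
-/

namespace Pool.Agent.T4h89.KN

open Finset

theorem t_REF (hN : S_NUM) : S_REF := by
  intro V _ _ A P hS u v w huv huw hvw
  obtain ⟨h1, -, -, h4⟩ := hN V A P hS
  have sym := hS.Psym
  have dg := hS.Pdg
  have hge : ∀ x y, -1 ≤ P x y := by
    intro x y
    by_cases h : x = y
    · rw [h, dg y]; norm_num
    · rcases hS.Pval x y h with h | h | h <;> omega
  have hvu : P v u = 1 := by rw [sym, huv]
  have hwu : P w u = 1 := by rw [sym, huw]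
  have hwv : P w v = 0 := by rw [sym, hvw]
  have du := dg u
  have dv := dg v
  have dw := dg w
  by_contra hno
  -- the points `y'` and the products with `w`
  have step : ∀ y, P u y = 0 → P v y = -1 →
      P w y = 1 ∧ ∃ y', ∀ t, P y' t = P y t + P v t - P u t := by
    intro y hy1 hy2
    have hyu : P y u = 0 := by rw [sym, hy1]
    have hyv : P y v = -1 := by rw [sym, hy2]
    obtain ⟨a, ha⟩ := hS.line y v hyv
    have hau : P a u = -1 := by rw [ha]; omega
    obtain ⟨y', hy'⟩ := hS.line a u hau
    have hy'' : ∀ t, P y' t = P y t + P v t - P u t := by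
      intro t; rw [hy' t, ha t]; ring
    refine ⟨?_, y', hy''⟩
    have hne : w ≠ y := by
      intro h; rw [← h] at hyv; omega
    have hwy' : P w y' = P w y + P w v - P w u := by
      rw [sym w y', hy'' w, sym y w, sym v w, sym u w]
    rcases hS.Pval w y hne with h | h | h
    · have := hge w y'
      omega
    · exfalso
      have h5 : P w y' = -1 := by omega
      obtain ⟨b, hb⟩ := hS.line w y' h5
      have h6 : P b y = -1 := by
        rw [hb y, hy'' y, dg y]
        omega
      obtain ⟨z, hz⟩ := hS.line b y h6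
      exact hno ⟨z, fun t => by rw [hz t, hb t, hy'' t]; ring⟩
    · exact h
  obtain ⟨y, hy, x, hx, hne⟩ := Finset.one_lt_card.mp
    (show 1 < (univ.filter fun z => P u z = 0 ∧ P v z = -1).card by rw [(h1 u v huv).2.2]; norm_num)
  obtain ⟨huy, hvy⟩ := (mem_filter.mp hy).2
  obtain ⟨hux, hvx⟩ := (mem_filter.mp hx).2
  obtain ⟨hwy, y', hy'⟩ := step y huy hvy
  obtain ⟨hwx, x', hx'⟩ := step x hux hvx
  have hyu : P y u = 0 := by rw [sym, huy]
  have hyv : P y v = -1 := by rw [sym, hvy]
  have hyw : P y w = 1 := by rw [sym, hwy]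
  have hxu : P x u = 0 := by rw [sym, hux]
  have hxv : P x v = -1 := by rw [sym, hvx]
  have hxw : P x w = 1 := by rw [sym, hwx]
  have hxy : P x y = P y x := sym x y
  have dx := dg x
  have dy := dg y
  -- `z = - y - v`
  obtain ⟨z, hz⟩ := hS.line y v hyv
  have hwz : P w z = -1 := by
    rw [sym w z, hz w]; omega
  -- `q = y + v - w`
  obtain ⟨q, hq⟩ := hS.line w z hwz
  have hq' : ∀ t, P q t = P y t + P v t - P w t := by
    intro t; rw [hq t, hz t]; ring
  have hqx' : P q x' = P y x - 1 := by
    rw [sym q x', hx' q, sym x q, sym v q, sym u q, hq' x, hq' v, hq' u]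
    omega
  rcases hS.Pval y x hne with h | h | h
  · obtain ⟨t, ht⟩ := hS.line y x h
    have h5 : P t v = 2 := by rw [ht v]; omega
    have h6 := h4 t v h5
    have h7 := ht u
    rw [h6] at h7
    omega
  · have h5 : P q x' = -1 := by omega
    obtain ⟨t, ht⟩ := hS.line q x' h5
    have h6 : P t v = -1 := by rw [ht v, hq' v, hx' v]; omega
    obtain ⟨s, hs⟩ := hS.line t v h6
    have h7 : P s u = -2 := by
      rw [hs u, ht u, hq' u, hx' u]; omega
    have := hge s u
    omega
  · have h5 : P q x = -1 := by rw [hq' x]; omega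
    obtain ⟨t, ht⟩ := hS.line q x h5
    have h6 : P t x' = -1 := by
      rw [ht x', sym x x', hqx', hx' x]; omega
    obtain ⟨b, hb⟩ := hS.line t x' h6
    have hb' : ∀ c, P b c = P y c - P w c + P u c := by
      intro c; rw [hb c, ht c, hq' c, hx' c]; ring
    have h7 : P b z = -1 := by
      rw [sym b z, hz b, sym y b, sym v b, hb' y, hb' v]; omega
    obtain ⟨e, he⟩ := hS.line b z h7
    exact hno ⟨e, fun c => by rw [he c, hb' c, hz c]; ring⟩

end Pool.Agent.T4h89.KN
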