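import Pool.Agent.T4h89.KN.Stm

/-!
# Project KN, SL: nine points of a `Sys` with the inner products of `cfg`
-/

namespace Pool.Agent.T4h89.KN

open Finset

namespace SL

variable {V : Type} [Fintype V] [DecidableEq V] {A P : V → V → ℤ}

theorem pvals (h : Sys A P) (x y : V) : -1 ≤ P x y ∧ P x y ≤ 2 := by
  by_cases hxy : x = y
  · subst hxy
    rw [h.Pdg]
    norm_num
  · rcases h.Pval x y hxy with h1 | h1 | h1 <;> rw [h1] <;> norm_num

theorem prod (h : Sys A P) (S T : Finset V) :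
    ∑ z, (∑ w ∈ S, P w z) * (∑ w ∈ T, P w z) = 21 * ∑ w ∈ S, ∑ w' ∈ T, P w w' := by
  have h1 : ∀ z, (∑ w ∈ S, P w z) * (∑ w ∈ T, P w z) = ∑ w ∈ S, ∑ w' ∈ T, P w z * P z w' := by
    intro z
    rw [Finset.sum_mul_sum]
    refine Finset.sum_congr rfl fun w _ => Finset.sum_congr rfl fun w' _ => ?_
    rw [h.Psym w' z]
  simp only [h1]
  rw [Finset.sum_comm, Finset.mul_sum]
  refine Finset.sum_congr rfl fun w _ => ?_
  rw [Finset.sum_comm, Finset.mul_sum]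
  exact Finset.sum_congr rfl fun w' _ => h.PP w w'

theorem inner1 (h : Sys A P) (S : Finset V) (hS : ∀ w ∈ S, ∀ w' ∈ S, w ≠ w' → P w w' = 1)
    (w : V) (hw : w ∈ S) : ∑ w' ∈ S, P w w' = S.card + 1 := by
  have h1 : ∀ w' ∈ S, P w w' = 1 + if w = w' then 1 else 0 := by
    intro w' hw'
    by_cases he : w = w'
    · subst he
      rw [h.Pdg, if_pos rfl]
      norm_num
    · rw [hS w hw w' hw' he, if_neg he]
      norm_num
  rw [Finset.sum_congr rfl h1, Finset.sum_add_distrib, Finset.sum_ite_eq, if_pos hw]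
  simp

theorem inner2 (h : Sys A P) (S : Finset V) (hS : ∀ w ∈ S, ∀ w' ∈ S, w ≠ w' → P w w' = 1) :
    ∑ w ∈ S, ∑ w' ∈ S, P w w' = S.card * (S.card + 1) := by
  rw [Finset.sum_congr rfl fun w hw => inner1 h S hS w hw]
  simp

/-- classes of sizes 3 and 4 are impossible -/
theorem excl (h : Sys A P) {u v : V} (huv : P u v = 1) (C D : Finset V) (hC : C.card = 3)
    (hD : D.card = 4) (hCu : ∀ w ∈ C, P w u = 1) (hCv : ∀ w ∈ C, P w v = 1)
    (hDu : ∀ w ∈ D, P w u = 1) (hDv : ∀ w ∈ D, P w v = 1)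
    (hCC : ∀ w ∈ C, ∀ w' ∈ C, w ≠ w' → P w w' = 1)
    (hDD : ∀ w ∈ D, ∀ w' ∈ D, w ≠ w' → P w w' = 1)
    (hCD : ∀ w ∈ C, ∀ w' ∈ D, P w w' = 0) : False := by
  have p1 := prod h C C
  have p2 := prod h D D
  have p3 := prod h C D
  have p4 := prod h C {u}
  have p5 := prod h C {v}
  have p6 := prod h D {u}
  have p7 := prod h D {v}
  have p8 := prod h {u} {u}
  have p9 := prod h {v} {v}
  have p10 := prod h {u} {v}
  simp only [Finset.sum_singleton] at p4 p5 p6 p7 p8 p9 p10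
  rw [inner2 h C hCC, hC] at p1
  rw [inner2 h D hDD, hD] at p2
  rw [Finset.sum_eq_zero fun w hw => Finset.sum_eq_zero fun w' hw' => hCD w hw w' hw'] at p3
  rw [Finset.sum_congr rfl hCu] at p4
  rw [Finset.sum_congr rfl hCv] at p5
  rw [Finset.sum_congr rfl hDu] at p6
  rw [Finset.sum_congr rfl hDv] at p7
  rw [h.Pdg] at p8 p9
  rw [huv] at p10
  simp only [Finset.sum_const, hC, hD, smul_eq_mul, nsmul_eq_mul, mul_one] at p4 p5 p6 p7
  have hf : ∑ z, (4 * (∑ w ∈ C, P w z) + 3 * (∑ w ∈ D, P w z) - 8 * P u z - 8 * P v z) ^ 2 =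
      16 * (∑ z, (∑ w ∈ C, P w z) * (∑ w ∈ C, P w z)) +
      9 * (∑ z, (∑ w ∈ D, P w z) * (∑ w ∈ D, P w z)) +
      24 * (∑ z, (∑ w ∈ C, P w z) * (∑ w ∈ D, P w z)) -
      64 * (∑ z, (∑ w ∈ C, P w z) * P u z) - 64 * (∑ z, (∑ w ∈ C, P w z) * P v z) -
      48 * (∑ z, (∑ w ∈ D, P w z) * P u z) - 48 * (∑ z, (∑ w ∈ D, P w z) * P v z) +
      64 * (∑ z, P u z * P u z) + 64 * (∑ z, P v z * P v z) + 128 * (∑ z, P u z * P v z) := by
    simp only [Finset.mul_sum, ← Finset.sum_add_distrib, ← Finset.sum_sub_distrib]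
    refine Finset.sum_congr rfl fun z _ => ?_
    simp only [← Finset.mul_sum]
    ring
  have h0 : 0 ≤ ∑ z, (4 * (∑ w ∈ C, P w z) + 3 * (∑ w ∈ D, P w z) - 8 * P u z -
      8 * P v z) ^ 2 := Finset.sum_nonneg fun z _ => sq_nonneg _
  rw [hf, p1, p2, p3, p4, p5, p6, p7, p8, p9, p10] at h0
  norm_num at h0

/-- the table of inner products -/
def tbl : Fin 9 → Fin 9 → ℤ := ![![2, 1, 1, 1, 1, 1, 1, 1, 1], ![1, 2, 1, 1, 1, 1, 1, 1, 1],
  ![1, 1, 2, 1, 1, 1, 1, 0, 0], ![1, 1, 1, 2, 1, 1, 1, 0, 0], ![1, 1, 1, 1, 2, 1, 1, 0, 0],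
  ![1, 1, 1, 1, 1, 2, 1, 0, 0], ![1, 1, 1, 1, 1, 1, 2, 0, 0], ![1, 1, 0, 0, 0, 0, 0, 2, 1],
  ![1, 1, 0, 0, 0, 0, 0, 1, 2]]

theorem tbl_eq : ∀ i j : Fin 9, ((cfg i ∩ cfg j).card : ℤ) - 1 = tbl i j := by decide

/-- classes of sizes 5 and 2 -/
theorem fin52 (h : Sys A P) {u v : V} (huv : P u v = 1) (C D : Finset V) (hC : C.card = 5)
    (hD : D.card = 2) (hCu : ∀ w ∈ C, P w u = 1) (hCv : ∀ w ∈ C, P w v = 1)
    (hDu : ∀ w ∈ D, P w u = 1) (hDv : ∀ w ∈ D, P w v = 1)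
    (hCC : ∀ w ∈ C, ∀ w' ∈ C, w ≠ w' → P w w' = 1)
    (hDD : ∀ w ∈ D, ∀ w' ∈ D, w ≠ w' → P w w' = 1)
    (hCD : ∀ w ∈ C, ∀ w' ∈ D, P w w' = 0) :
    ∃ c : Fin 9 → V, ∀ i j, P (c i) (c j) = ((cfg i ∩ cfg j).card : ℤ) - 1 := by
  obtain ⟨e, he1, he2⟩ : ∃ e : Fin 5 → V, (∀ k, e k ∈ C) ∧ ∀ k l, k ≠ l → e k ≠ e l :=
    ⟨fun k => ((C.equivFinOfCardEq hC).symm k : V), fun k => ((C.equivFinOfCardEq hC).symm k).2,
      fun k l hkl hh => hkl ((C.equivFinOfCardEq hC).symm.injective (Subtype.ext hh))⟩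
  obtain ⟨f, hf1, hf2⟩ : ∃ f : Fin 2 → V, (∀ k, f k ∈ D) ∧ ∀ k l, k ≠ l → f k ≠ f l :=
    ⟨fun k => ((D.equivFinOfCardEq hD).symm k : V), fun k => ((D.equivFinOfCardEq hD).symm k).2,
      fun k l hkl hh => hkl ((D.equivFinOfCardEq hD).symm.injective (Subtype.ext hh))⟩
  have a1 : P u u = 2 := h.Pdg u
  have a2 : P v v = 2 := h.Pdg v
  have a3 : P v u = 1 := by rw [h.Psym]; exact huv
  have b1 : ∀ k, P (e k) u = 1 := fun k => hCu _ (he1 k)
  have b2 : ∀ k, P (e k) v = 1 := fun k => hCv _ (he1 k)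
  have b3 : ∀ k, P u (e k) = 1 := fun k => by rw [h.Psym]; exact b1 k
  have b4 : ∀ k, P v (e k) = 1 := fun k => by rw [h.Psym]; exact b2 k
  have c1 : ∀ k, P (f k) u = 1 := fun k => hDu _ (hf1 k)
  have c2 : ∀ k, P (f k) v = 1 := fun k => hDv _ (hf1 k)
  have c3 : ∀ k, P u (f k) = 1 := fun k => by rw [h.Psym]; exact c1 k
  have c4 : ∀ k, P v (f k) = 1 := fun k => by rw [h.Psym]; exact c2 k
  have d1 : ∀ k l, P (e k) (f l) = 0 := fun k l => hCD _ (he1 k) _ (hf1 l)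
  have d2 : ∀ k l, P (f k) (e l) = 0 := fun k l => by rw [h.Psym]; exact d1 l k
  have e1 : ∀ k, P (e k) (e k) = 2 := fun k => h.Pdg _
  have e2 : ∀ k l, k ≠ l → P (e k) (e l) = 1 := fun k l hkl => hCC _ (he1 k) _ (he1 l) (he2 k l hkl)
  have f1 : ∀ k, P (f k) (f k) = 2 := fun k => h.Pdg _
  have f2 : ∀ k l, k ≠ l → P (f k) (f l) = 1 := fun k l hkl => hDD _ (hf1 k) _ (hf1 l) (hf2 k l hkl)
  refine ⟨![u, v, e 0, e 1, e 2, e 3, e 4, f 0, f 1], fun i j => ?_⟩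
  rw [tbl_eq]
  fin_cases i <;> fin_cases j <;>
    first
    | exact a1
    | exact a2
    | exact a3
    | exact huv
    | exact b1 _
    | exact b2 _
    | exact b3 _
    | exact b4 _
    | exact c1 _
    | exact c2 _
    | exact c3 _
    | exact c4 _
    | exact d1 _ _
    | exact d2 _ _
    | exact e1 _
    | exact f1 _
    | exact e2 _ _ (by decide)
    | exact f2 _ _ (by decide)

end SL

open SL in
theorem t_SL (hN : S_NUM) (hE : S_EQV) (hK : S_KS) : S_SL := by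
  intro V _ _ A P h
  obtain ⟨n1, -, n3, -⟩ := hN V A P h
  -- two points of product one
  have hne : Nonempty V := by
    rw [← Fintype.card_pos_iff, h.card]
    norm_num
  obtain ⟨u⟩ := hne
  obtain ⟨v, hv⟩ : (univ.filter fun z => P u z = 1).Nonempty := by
    rw [← Finset.card_pos, n3 u]
    norm_num
  have huv : P u v = 1 := (Finset.mem_filter.1 hv).2
  obtain ⟨cN, cS, -⟩ := n1 u v huv
  obtain ⟨q1, q2, q3⟩ := hE V A P h u v huv
  have hKS := hK V A P h u v huv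
  obtain ⟨N, hNd⟩ : ∃ N, N = univ.filter fun w => P u w = 1 ∧ P v w = 1 := ⟨_, rfl⟩
  obtain ⟨S, hSd⟩ : ∃ S, S = univ.filter fun s => P u s = -1 ∧ P v s = -1 := ⟨_, rfl⟩
  rw [← hNd] at cN
  rw [← hSd] at cS
  rw [← hNd, ← hSd] at hKS
  have mN : ∀ w, w ∈ N ↔ P u w = 1 ∧ P v w = 1 := by
    intro w
    rw [hNd]
    simp
  have mS : ∀ s, s ∈ S ↔ P u s = -1 ∧ P v s = -1 := by
    intro s
    rw [hSd]
    simp
  obtain ⟨w0, hw0⟩ : N.Nonempty := by
    rw [← Finset.card_pos, cN]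
    norm_num
  obtain ⟨C, hCd⟩ : ∃ C, C = N.filter fun w => P w0 w ≠ 0 := ⟨_, rfl⟩
  obtain ⟨D, hDd⟩ : ∃ D, D = N.filter fun w => ¬ P w0 w ≠ 0 := ⟨_, rfl⟩
  have mC : ∀ w, w ∈ C ↔ w ∈ N ∧ P w0 w ≠ 0 := by
    intro w
    rw [hCd, Finset.mem_filter]
  have mD : ∀ w, w ∈ D ↔ w ∈ N ∧ P w0 w = 0 := by
    intro w
    rw [hDd, Finset.mem_filter, not_not]
  have hw0C : w0 ∈ C := (mC w0).2 ⟨hw0, by rw [h.Pdg]; norm_num⟩
  have hcard : C.card + D.card = 7 := by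
    rw [hCd, hDd, Finset.card_filter_add_card_filter_not, cN]
  have hsum : ∀ t, ∑ w ∈ N, P w t = ∑ w ∈ C, P w t + ∑ w ∈ D, P w t := by
    intro t
    rw [hCd, hDd, Finset.sum_filter_add_sum_filter_not]
  have one : ∀ w ∈ N, ∀ w' ∈ N, w ≠ w' → P w w' ≠ 0 → P w w' = 1 := by
    intro w hw w' hw' hne h0
    have a := (mN w).1 hw
    have b := (mN w').1 hw'
    rcases q1 w w' a.1 a.2 b.1 b.2 hne with h1 | h1
    · exact absurd h1 h0
    · exact h1
  have hCC : ∀ w ∈ C, ∀ w' ∈ C, w ≠ w' → P w w' = 1 := by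
    intro w hw w' hw' hne
    obtain ⟨a1, a2⟩ := (mC w).1 hw
    obtain ⟨b1, b2⟩ := (mC w').1 hw'
    by_cases e1 : w = w0
    · subst e1
      exact one w a1 w' b1 hne b2
    · by_cases e2 : w' = w0
      · subst e2
        rw [h.Psym]
        exact one w' b1 w a1 (Ne.symm hne) a2
      · refine one w a1 w' b1 hne ?_
        have c1 := one w0 hw0 w a1 (Ne.symm e1) a2
        have c2 := one w0 hw0 w' b1 (Ne.symm e2) b2
        rw [h.Psym] at c1 c2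
        have a := (mN w).1 a1
        have b := (mN w').1 b1
        have c := (mN w0).1 hw0
        exact q3 w w' w0 a.1 a.2 b.1 b.2 c.1 c.2 c1 c2
  have hDD : ∀ w ∈ D, ∀ w' ∈ D, w ≠ w' → P w w' = 1 := by
    intro w hw w' hw' hne
    obtain ⟨a1, a2⟩ := (mD w).1 hw
    obtain ⟨b1, b2⟩ := (mD w').1 hw'
    refine one w a1 w' b1 hne ?_
    have a := (mN w).1 a1
    have b := (mN w').1 b1
    have c := (mN w0).1 hw0
    exact q2 w0 w w' c.1 c.2 a.1 a.2 b.1 b.2 a2 b2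
  have hCD : ∀ w ∈ C, ∀ w' ∈ D, P w w' = 0 := by
    intro w hw w' hw'
    obtain ⟨a1, a2⟩ := (mC w).1 hw
    obtain ⟨b1, b2⟩ := (mD w').1 hw'
    by_contra h0
    have hne : w ≠ w' := fun e => a2 (e ▸ b2)
    have c1 := one w a1 w' b1 hne h0
    by_cases e1 : w = w0
    · subst e1
      exact h0 b2
    · have c2 := one w0 hw0 w a1 (Ne.symm e1) a2
      have a := (mN w).1 a1
      have b := (mN w').1 b1
      have c := (mN w0).1 hw0
      rw [h.Psym] at c1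
      exact q3 w0 w' w c.1 c.2 b.1 b.2 a.1 a.2 c2 c1 b2
  have hDC : ∀ w ∈ D, ∀ w' ∈ C, P w w' = 0 := fun w hw w' hw' => by
    rw [h.Psym]
    exact hCD w' hw' w hw
  have hCN : ∀ w ∈ C, w ∈ N := fun w hw => ((mC w).1 hw).1
  have hDN : ∀ w ∈ D, w ∈ N := fun w hw => ((mD w).1 hw).1
  have hNu : ∀ w ∈ N, P w u = 1 := fun w hw => by rw [h.Psym]; exact ((mN w).1 hw).1
  have hNv : ∀ w ∈ N, P w v = 1 := fun w hw => by rw [h.Psym]; exact ((mN w).1 hw).2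
  -- the sums over the points of `S`
  have sC : ∀ w ∈ C, ∑ s ∈ S, P s w = 2 * (C.card + 1) - 16 := by
    intro w hw
    have e1 : ∑ w' ∈ C, P w' w = C.card + 1 := by
      rw [← inner1 h C hCC w hw]
      exact Finset.sum_congr rfl fun w' _ => h.Psym _ _
    have e2 : ∑ w' ∈ D, P w' w = 0 := Finset.sum_eq_zero fun w' hw' => hDC w' hw' w hw
    have e3 := (mN w).1 (hCN w hw)
    rw [hKS w, hsum, e1, e2, e3.1, e3.2]
    ring
  have sD : ∀ w ∈ D, ∑ s ∈ S, P s w = 2 * (D.card + 1) - 16 := by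
    intro w hw
    have e1 : ∑ w' ∈ D, P w' w = D.card + 1 := by
      rw [← inner1 h D hDD w hw]
      exact Finset.sum_congr rfl fun w' _ => h.Psym _ _
    have e2 : ∑ w' ∈ C, P w' w = 0 := Finset.sum_eq_zero fun w' hw' => hCD w' hw' w hw
    have e3 := (mN w).1 (hDN w hw)
    rw [hKS w, hsum, e1, e2, e3.1, e3.2]
    ring
  have low : ∀ w, -10 ≤ ∑ s ∈ S, P s w := by
    intro w
    have e1 : ∑ s ∈ S, (-1 : ℤ) ≤ ∑ s ∈ S, P s w :=
      Finset.sum_le_sum fun s _ => (pvals h s w).1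
    rw [Finset.sum_const, cS] at e1
    simpa using e1
  have neg : ∀ s ∈ S, ∀ w ∈ N, P s w ≤ 0 := by
    intro s hs w hw
    obtain ⟨z, hz⟩ := h.line u s ((mS s).1 hs).1
    have e1 := hz w
    have e2 := (pvals h z w).1
    rw [((mN w).1 hw).1] at e1
    omega
  have hC2 : 2 ≤ C.card := by
    have e1 := low w0
    rw [sC w0 hw0C] at e1
    omega
  have hDne : D.Nonempty := by
    rw [Finset.nonempty_iff_ne_empty]
    intro hD0
    have c7 : C.card = 7 := by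
      rw [hD0] at hcard
      simpa using hcard
    have hNC : ∀ w ∈ N, w ∈ C := by
      intro w hw
      rw [mC]
      refine ⟨hw, fun h0 => ?_⟩
      have : w ∈ D := (mD w).2 ⟨hw, h0⟩
      rw [hD0] at this
      simp at this
    have z0 : ∀ w ∈ N, ∀ s ∈ S, P s w = 0 := by
      intro w hw
      have e1 := sC w (hNC w hw)
      rw [c7] at e1
      have e2 : ∑ s ∈ S, P s w = 0 := by rw [e1]; norm_num
      exact (Finset.sum_eq_zero_iff_of_nonpos fun s hs => neg s hs w hw).1 e2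
    obtain ⟨s0, hs0⟩ : S.Nonempty := by
      rw [← Finset.card_pos, cS]
      norm_num
    have e1 := hKS s0
    have e2 : ∑ w ∈ N, P w s0 = 0 := Finset.sum_eq_zero fun w hw => by
      rw [h.Psym]
      exact z0 w hw s0 hs0
    rw [e2, ((mS s0).1 hs0).1, ((mS s0).1 hs0).2] at e1
    have e3 : ∑ s ∈ S, P s s0 ≤ ∑ s ∈ S, (1 + if s = s0 then 1 else 0 : ℤ) := by
      refine Finset.sum_le_sum fun s _ => ?_
      by_cases e : s = s0
      · rw [if_pos e, e, h.Pdg]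
        norm_num
      · rw [if_neg e]
        rcases h.Pval s s0 e with h1 | h1 | h1 <;> rw [h1] <;> norm_num
    rw [Finset.sum_add_distrib, Finset.sum_ite_eq', if_pos hs0, Finset.sum_const, cS] at e3
    norm_num at e1 e3
    omega
  have hD2 : 2 ≤ D.card := by
    obtain ⟨w1, hw1⟩ := hDne
    have e1 := low w1
    rw [sD w1 hw1] at e1
    omega
  have hCu : ∀ w ∈ C, P w u = 1 := fun w hw => hNu w (hCN w hw)
  have hCv : ∀ w ∈ C, P w v = 1 := fun w hw => hNv w (hCN w hw)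
  have hDu : ∀ w ∈ D, P w u = 1 := fun w hw => hNu w (hDN w hw)
  have hDv : ∀ w ∈ D, P w v = 1 := fun w hw => hNv w (hDN w hw)
  have cases4 : (C.card = 5 ∧ D.card = 2) ∨ (C.card = 2 ∧ D.card = 5) ∨
      (C.card = 3 ∧ D.card = 4) ∨ (C.card = 4 ∧ D.card = 3) := by omega
  rcases cases4 with ⟨k1, k2⟩ | ⟨k1, k2⟩ | ⟨k1, k2⟩ | ⟨k1, k2⟩
  · exact fin52 h huv C D k1 k2 hCu hCv hDu hDv hCC hDD hCD
  · exact fin52 h huv D C k2 k1 hDu hDv hCu hCv hDD hCC hDC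
  · exact absurd (excl h huv C D k1 k2 hCu hCv hDu hDv hCC hDD hCD) (fun x => x)
  · exact absurd (excl h huv D C k2 k1 hDu hDv hCu hCv hDD hCC hDC) (fun x => x)

end Pool.Agent.T4h89.KN
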