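import Pool.Agent.T4h89.KN.Stm

/-!
# Project KN, SPEC: graphs with the spectrum of K(9,3) satisfy `Core`
-/

namespace Pool.Agent.T4h89.KN

open Finset Polynomial

namespace SPEC

variable {V : Type} [Fintype V] [DecidableEq V]

/-- a symmetric real matrix with trace of the square zero is zero -/
theorem zero_of_tr {S : Matrix V V ℝ} (h : S.IsSymm) (h0 : (S * S).trace = 0) : S = 0 := by
  have h1 : Matrix.conjTranspose S = S := by
    rw [Matrix.conjTranspose_eq_transpose_of_trivial]
    exact h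
  rw [← Matrix.trace_conjTranspose_mul_self_eq_zero_iff, h1]
  exact h0

theorem symm_aeval {A : Matrix V V ℝ} (h : A.IsSymm) (q : ℝ[X]) : (aeval A q).IsSymm := by
  induction q using Polynomial.induction_on' with
  | add p q hp hq =>
    rw [map_add]
    exact hp.add hq
  | monomial n a =>
    rw [aeval_monomial, Algebra.algebraMap_eq_smul_one, smul_mul_assoc, one_mul]
    exact (h.pow n).smul a

/-- the all-ones matrix -/
def J (V : Type) : Matrix V V ℝ := Matrix.of fun _ _ => 1

theorem tri_apply (M : Matrix V V ℝ) (x y : V) :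
    (M * M * M) x y = ∑ z, ∑ w, M x z * M z w * M w y := by
  rw [Matrix.mul_apply]
  simp_rw [Matrix.mul_apply, Finset.sum_mul]
  rw [Finset.sum_comm]

theorem core_real {a : V → V → ℤ} (h : Core a) (M : Matrix V V ℝ) (hM : ∀ x y, M x y = (a x y : ℝ)) :
    M * M * M + (7 : ℝ) • (M * M) - (34 : ℝ) • M - (40 : ℝ) • 1 = (120 : ℝ) • J V ∧
      M * J V = (20 : ℝ) • J V := by
  constructor
  · ext x y
    have h1 := congrArg (Int.cast : ℤ → ℝ) (h.cub x y)
    push_cast at h1
    rw [Matrix.sub_apply, Matrix.sub_apply, Matrix.add_apply, tri_apply]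
    simp only [Matrix.smul_apply, smul_eq_mul, hM,
      J, Matrix.of_apply, Matrix.mul_apply, Matrix.one_apply]
    rw [h1]
    norm_num
  · ext x y
    have h1 := congrArg (Int.cast : ℤ → ℝ) (h.reg x)
    push_cast at h1
    simp only [Matrix.smul_apply, smul_eq_mul, hM, J, Matrix.of_apply, Matrix.mul_apply, mul_one]
    exact h1

/-- the cubic factor -/
noncomputable def pL : ℝ[X] := (X + 10) * (X - 4) * (X + 1)

theorem aeval_pL (M : Matrix V V ℝ) : aeval M pL =
    M * M * M + (7 : ℝ) • (M * M) - (34 : ℝ) • M - (40 : ℝ) • 1 := by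
  have h1 : pL = X * X * X + C 7 * (X * X) - C 34 * X - C 40 := by
    unfold pL
    have e7 : (C 7 : ℝ[X]) = 7 := rfl
    have e34 : (C 34 : ℝ[X]) = 34 := rfl
    have e40 : (C 40 : ℝ[X]) = 40 := rfl
    rw [e7, e34, e40]
    ring
  rw [h1]
  simp only [map_sub, map_add, map_mul, aeval_X, aeval_C, Algebra.algebraMap_eq_smul_one,
    smul_mul_assoc, one_mul]

/-- the quadratic form at the all-ones vector -/
noncomputable def s (M : Matrix V V ℝ) : ℝ := ∑ x, ∑ y, M x y

theorem s_eq (M : Matrix V V ℝ) : s M = (fun _ => (1 : ℝ)) ⬝ᵥ M.mulVec (fun _ => 1) := by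
  unfold s dotProduct Matrix.mulVec dotProduct
  simp

theorem s_sq {S : Matrix V V ℝ} (h : S.IsSymm) :
    s (S * S) = S.mulVec (fun _ => 1) ⬝ᵥ S.mulVec (fun _ => 1) := by
  rw [s_eq, ← Matrix.mulVec_mulVec, Matrix.dotProduct_mulVec, ← Matrix.mulVec_transpose, h]

theorem s_add (M N : Matrix V V ℝ) : s (M + N) = s M + s N := by
  unfold s
  simp [Finset.sum_add_distrib]

theorem s_sub (M N : Matrix V V ℝ) : s (M - N) = s M - s N := by
  unfold s
  simp [Finset.sum_sub_distrib]

theorem s_smul (c : ℝ) (M : Matrix V V ℝ) : s (c • M) = c * s M := by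
  unfold s
  simp [Finset.mul_sum]

theorem s_sq_nonneg {S : Matrix V V ℝ} (h : S.IsSymm) : 0 ≤ s (S * S) := by
  rw [s_sq h]
  exact Finset.sum_nonneg fun i _ => mul_self_nonneg _

end SPEC

open SPEC in
theorem t_SPEC (hTR : S_TR) (hKNE : S_KNE) : S_SPEC := by
  intro V _ _ G _ hch
  obtain ⟨A, hAd⟩ : ∃ A, A = G.adjMatrix ℝ := ⟨_, rfl⟩
  obtain ⟨K, hKd⟩ : ∃ K, K = kneser.adjMatrix ℝ := ⟨_, rfl⟩
  have hA : A.IsSymm := hAd ▸ G.isSymm_adjMatrix
  have hK : K.IsSymm := hKd ▸ kneser.isSymm_adjMatrix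
  rw [← hAd, ← hKd] at hch
  have hcard : Fintype.card V = 84 := by
    have h1 := congrArg natDegree hch
    rw [Matrix.charpoly_natDegree_eq_dim, Matrix.charpoly_natDegree_eq_dim] at h1
    rw [h1]
    exact hKNE.card
  have tr := hTR V Tri A K hA hK hch
  have hKe : ∀ x y, K x y = (((if Disjoint x.1 y.1 then 1 else 0 : ℤ)) : ℝ) := by
    intro x y
    rw [hKd, SimpleGraph.adjMatrix_apply]
    by_cases h : kneser.Adj x y
    · rw [if_pos h, if_pos (show Disjoint x.1 y.1 from h)]
      norm_num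
    · rw [if_neg h, if_neg (show ¬ Disjoint x.1 y.1 from h)]
      norm_num
  obtain ⟨k1, k2⟩ := core_real hKNE K hKe
  rw [← aeval_pL] at k1
  have hAe : ∀ x y, A x y = (((if G.Adj x y then 1 else 0 : ℤ)) : ℝ) := by
    intro x y
    rw [hAd, SimpleGraph.adjMatrix_apply]
    by_cases h : G.Adj x y
    · rw [if_pos h, if_pos h]
      norm_num
    · rw [if_neg h, if_neg h]
      norm_num
  have zo : ∀ x y, A x y * A x y = A x y := by
    intro x y
    rw [hAe]
    by_cases h : G.Adj x y
    · simp [h]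
    · simp [h]
  have zoK : ∀ x y, K x y * K x y = K x y := by
    intro x y
    rw [hKe]
    by_cases h : Disjoint x.1 y.1
    · simp [h]
    · simp [h]
  have cT : Fintype.card Tri = 84 := hKNE.card
  have e20 : ∀ {W : Type} [Fintype W] [DecidableEq W] (M : Matrix W W ℝ) (c : ℝ),
      aeval M (C c : ℝ[X]) = c • 1 := by
    intro W _ _ M c
    rw [aeval_C, Algebra.algebraMap_eq_smul_one]
  have n20 : (20 : ℝ[X]) = C 20 := rfl
  -- the annihilating polynomial
  have pK : aeval K ((X - 20) * pL) = 0 := by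
    rw [map_mul, k1, map_sub, aeval_X, n20, e20, sub_mul, Matrix.mul_smul, k2, smul_mul_assoc,
      one_mul, smul_comm, sub_self]
  have pA : aeval A ((X - 20) * pL) = 0 := by
    refine zero_of_tr (symm_aeval hA _) ?_
    rw [← map_mul, tr, map_mul, pK, zero_mul, Matrix.trace_zero]
  -- the number of edges
  have trsq : ∀ {W : Type} [Fintype W] [DecidableEq W] (M : Matrix W W ℝ), M.IsSymm →
      (∀ x y, M x y * M x y = M x y) → (aeval M (X * X : ℝ[X])).trace = s M := by
    intro W _ _ M hM h01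
    rw [map_mul, aeval_X]
    unfold Matrix.trace s
    refine Finset.sum_congr rfl fun x _ => ?_
    rw [Matrix.diag_apply, Matrix.mul_apply]
    refine Finset.sum_congr rfl fun y _ => ?_
    rw [hM.apply x y, h01]
  have sK : s K = 1680 := by
    unfold s
    have h1 : ∀ x, ∑ y, K x y = 20 := by
      intro x
      have h2 := congrFun (congrFun k2 x) x
      simpa [Matrix.mul_apply, J] using h2
    simp only [h1]
    simp [cT]
    norm_num
  have sA : s A = 1680 := by
    rw [← trsq A hA zo, tr, trsq K hK zoK, sK]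
  have s1 : s (1 : Matrix V V ℝ) = 84 := by
    unfold s
    simp [Matrix.one_apply, hcard]
  -- regularity
  have aC : ∀ (c : ℝ) (q : ℝ[X]), aeval A (C c * q) = c • aeval A q := by
    intro c q
    rw [map_mul, e20, smul_mul_assoc, one_mul]
  obtain ⟨u1, hu1⟩ : ∃ u1 : ℝ[X], u1 = (20 - X) * (10 + X) * (X + 1) := ⟨_, rfl⟩
  obtain ⟨v1, hv1⟩ : ∃ v1 : ℝ[X], v1 = (20 - X) * (10 + X) * (X - 4) := ⟨_, rfl⟩
  obtain ⟨m1, hm1⟩ : ∃ m1 : ℝ[X], m1 = (20 - X) * (10 + X) := ⟨_, rfl⟩
  obtain ⟨b1, hb1⟩ : ∃ b1 : ℝ[X], b1 = 20 - X := ⟨_, rfl⟩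
  have id1 : C 151200 * m1 = C 27 * (u1 * u1) + C 32 * (v1 * v1) +
      ((X - 20) * pL) * (C 10850 + C 615 * X - C 59 * X ^ 2) := by
    rw [hu1, hv1, hm1]
    unfold pL
    have e1 : (C 151200 : ℝ[X]) = 151200 := rfl
    have e2 : (C 27 : ℝ[X]) = 27 := rfl
    have e3 : (C 32 : ℝ[X]) = 32 := rfl
    have e4 : (C 10850 : ℝ[X]) = 10850 := rfl
    have e5 : (C 615 : ℝ[X]) = 615 := rfl
    have e6 : (C 59 : ℝ[X]) = 59 := rfl
    rw [e1, e2, e3, e4, e5, e6]
    ring
  have id1A := congrArg (aeval A) id1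
  rw [map_add, map_add, aC, aC, aC, map_mul (aeval A) ((X - 20) * pL), pA, zero_mul,
    add_zero, map_mul (aeval A) u1, map_mul (aeval A) v1] at id1A
  have pos : 0 ≤ s (aeval A m1) := by
    have h1 := congrArg s id1A
    rw [s_add, s_smul, s_smul, s_smul] at h1
    have h2 := s_sq_nonneg (symm_aeval hA u1)
    have h3 := s_sq_nonneg (symm_aeval hA v1)
    linarith
  have id2 : b1 * b1 = C 30 * b1 - m1 := by
    have e1 : (C 30 : ℝ[X]) = 30 := rfl
    rw [e1, hb1, hm1]
    ring
  have eb1 : aeval A b1 = (20 : ℝ) • 1 - A := by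
    rw [hb1, map_sub, n20, e20, aeval_X]
  have sB : s (aeval A b1) = 0 := by
    rw [eb1, s_sub, s_smul, s1, sA]
    norm_num
  have hB0 : (aeval A b1).mulVec (fun _ => 1) = 0 := by
    have h1 := congrArg s (congrArg (aeval A) id2)
    rw [map_mul, map_sub, aC, s_sub, s_smul, sB, s_sq (symm_aeval hA _)] at h1
    have h2 : (aeval A b1).mulVec (fun _ => 1) ⬝ᵥ (aeval A b1).mulVec (fun _ => 1) = 0 := by
      refine le_antisymm ?_ (Finset.sum_nonneg fun i _ => mul_self_nonneg _)
      linarith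
    exact dotProduct_self_eq_zero.1 h2
  have reg : ∀ x, ∑ y, A x y = 20 := by
    intro x
    have h1 := congrFun hB0 x
    rw [eb1, Matrix.sub_mulVec, Matrix.smul_mulVec, Matrix.one_mulVec] at h1
    simp only [Pi.sub_apply, Pi.smul_apply, smul_eq_mul, mul_one, Pi.zero_apply, Matrix.mulVec,
      dotProduct] at h1
    linarith
  have AJ : A * J V = (20 : ℝ) • J V := by
    ext x y
    simp only [Matrix.smul_apply, smul_eq_mul, J, Matrix.of_apply, Matrix.mul_apply, mul_one]
    exact reg x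
  -- the cubic
  obtain ⟨L, hLd⟩ : ∃ L, L = aeval A pL := ⟨_, rfl⟩
  have hL : L.IsSymm := hLd ▸ symm_aeval hA pL
  have hJs : (J V).IsSymm := by
    ext x y
    rfl
  have LL : L * L = (10080 : ℝ) • L := by
    have id3 : pL * pL = C 10080 * pL + ((X - 20) * pL) * (X ^ 2 + C 27 * X + C 506) := by
      unfold pL
      have e1 : (C 10080 : ℝ[X]) = 10080 := rfl
      have e2 : (C 27 : ℝ[X]) = 27 := rfl
      have e3 : (C 506 : ℝ[X]) = 506 := rfl
      rw [e1, e2, e3]
      ring
    have h1 := congrArg (aeval A) id3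
    rw [map_add, aC, map_mul (aeval A) ((X - 20) * pL), pA, zero_mul, add_zero,
      map_mul, ← hLd] at h1
    exact h1
  have LJ : L * J V = (10080 : ℝ) • J V := by
    rw [hLd, aeval_pL]
    simp only [sub_mul, add_mul, smul_mul_assoc, one_mul, mul_assoc, AJ, Matrix.mul_smul, smul_smul]
    ext x y
    simp only [Matrix.sub_apply, Matrix.add_apply, Matrix.smul_apply, smul_eq_mul, J,
      Matrix.of_apply]
    norm_num
  have JL : J V * L = (10080 : ℝ) • J V := by
    have h1 := congrArg Matrix.transpose LJ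
    rw [Matrix.transpose_mul, hL, hJs, Matrix.transpose_smul, hJs] at h1
    exact h1
  have JJ : J V * J V = (84 : ℝ) • J V := by
    ext x y
    simp [J, Matrix.mul_apply, hcard]
  have trL : L.trace = 10080 := by
    rw [hLd, tr, k1]
    simp [Matrix.trace, J, cT]
    norm_num
  have hz : L - (120 : ℝ) • J V = 0 := by
    refine zero_of_tr (hL.sub (hJs.smul _)) ?_
    have h1 : (L - (120 : ℝ) • J V) * (L - (120 : ℝ) • J V) =
        (10080 : ℝ) • (L - (120 : ℝ) • J V) := by
      rw [sub_mul, mul_sub, mul_sub, smul_mul_assoc, smul_mul_assoc, Matrix.mul_smul,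
        Matrix.mul_smul, LL, LJ, JL, JJ]
      module
    rw [h1, Matrix.trace_smul, Matrix.trace_sub, trL]
    simp [Matrix.trace, J, hcard]
    norm_num
  have cub : A * A * A + (7 : ℝ) • (A * A) - (34 : ℝ) • A - (40 : ℝ) • 1 = (120 : ℝ) • J V := by
    rw [← aeval_pL, ← hLd]
    exact sub_eq_zero.1 hz
  refine ⟨hcard, ?_, ?_, ?_, ?_, ?_⟩
  · intro x y
    simp only [G.adj_comm]
  · intro x
    simp
  · intro x y
    by_cases h : G.Adj x y
    · right
      simp [h]
    · left
      simp [h]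
  · intro x
    have h1 := reg x
    simp only [hAe] at h1
    exact_mod_cast h1
  · intro x y
    have h1 := congrFun (congrFun cub x) y
    rw [Matrix.sub_apply, Matrix.sub_apply, Matrix.add_apply, tri_apply] at h1
    simp only [Matrix.smul_apply, smul_eq_mul, hAe,
      J, Matrix.of_apply, Matrix.mul_apply, Matrix.one_apply] at h1
    have h2 : (((∑ z, ∑ w, (if G.Adj x z then 1 else 0) * (if G.Adj z w then 1 else 0) *
        (if G.Adj w y then 1 else 0)) + 7 * (∑ z, (if G.Adj x z then 1 else 0) *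
        (if G.Adj z y then 1 else 0)) - 34 * (if G.Adj x y then 1 else 0) -
        40 * (if x = y then 1 else 0) : ℤ) : ℝ) = ((120 : ℤ) : ℝ) := by
      push_cast at h1 ⊢
      linarith
    exact_mod_cast h2

end Pool.Agent.T4h89.KN
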