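import Pool.Agent.T4h89.KN.Stm

/-!
# KN, task SYS (helper94): the inner products `P = gr / 6`
-/

set_option autoImplicit false

namespace Pool.Agent.T4h89.KN

open Finset

theorem t_SYS (hG : S_GAL) (hL : S_LIN) (hM : S_MU) : S_SYS := by
  intro V _ _ A hA hO
  obtain ⟨gsym, gdg, gsum, gsq, gA⟩ := hG V A hA
  -- the values
  have hadj : ∀ x y, A x y = 1 → x ≠ y := by
    intro x y h hxy
    rw [hxy, hA.dg y] at h
    exact zero_ne_one h
  have hval1 : ∀ x y, A x y = 1 → gr A x y = -6 := by
    intro x y h
    rw [gr, hO x y h, h, if_neg (hadj x y h)]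
    norm_num
  have hval0 : ∀ x y, x ≠ y → A x y = 0 → gr A x y = 0 ∨ gr A x y = 6 := hM V A hA hO
  have h6 : ∀ x y, gr A x y = 6 * (gr A x y / 6) := by
    intro x y
    by_cases hxy : x = y
    · subst hxy
      rw [gdg x]
      norm_num
    · rcases hA.zo x y with h | h
      · rcases hval0 x y hxy h with h1 | h1 <;> rw [h1] <;> norm_num
      · rw [hval1 x y h]
        norm_num
  refine ⟨fun x y => gr A x y / 6, ?_⟩
  have hP0 : ∀ x, ∑ z, gr A x z / 6 = 0 := by
    intro x
    have h1 := gsum x
    rw [Finset.sum_congr rfl fun z _ => h6 x z, ← Finset.mul_sum] at h1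
    linarith
  have hPP : ∀ x y, ∑ z, gr A x z / 6 * (gr A z y / 6) = 21 * (gr A x y / 6) := by
    intro x y
    have h1 := gsq x y
    have h2 : ∑ z, gr A x z * gr A z y = 36 * ∑ z, gr A x z / 6 * (gr A z y / 6) := by
      rw [Finset.mul_sum]
      refine Finset.sum_congr rfl fun z _ => ?_
      conv_lhs => rw [h6 x z, h6 z y]
      ring
    rw [h2, h6 x y] at h1
    have h3 := h6 x y
    rw [← h3] at h1
    linarith
  have hAP : ∀ x y, ∑ z, A x z * (gr A z y / 6) = -10 * (gr A x y / 6) := by
    intro x y
    have h1 := gA x y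
    have h2 : ∑ z, A x z * gr A z y = 6 * ∑ z, A x z * (gr A z y / 6) := by
      rw [Finset.mul_sum]
      refine Finset.sum_congr rfl fun z _ => ?_
      conv_lhs => rw [h6 z y]
      ring
    have h3 := h6 x y
    rw [h2] at h1
    linarith
  refine ⟨hA.card, ?_, hA.sym, ?_, ?_, ?_, hP0, hA.reg, hPP, hAP, ?_, ?_⟩
  · intro x y
    show gr A x y / 6 = gr A y x / 6
    rw [gsym x y]
  · intro x
    show gr A x x / 6 = 2
    rw [gdg x]
    norm_num
  · intro x y hxy
    show gr A x y / 6 = -1 ∨ gr A x y / 6 = 0 ∨ gr A x y / 6 = 1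
    rcases hA.zo x y with h | h
    · rcases hval0 x y hxy h with h1 | h1
      · right; left
        rw [h1]
        norm_num
      · right; right
        rw [h1]
        norm_num
    · left
      rw [hval1 x y h]
      norm_num
  · intro x y
    show A x y = if gr A x y / 6 = -1 then 1 else 0
    rcases hA.zo x y with h | h
    · rw [h, if_neg]
      by_cases hxy : x = y
      · rw [← hxy, gdg x]
        norm_num
      · rcases hval0 x y hxy h with h1 | h1 <;> rw [h1] <;> norm_num
    · rw [h, if_pos]
      rw [hval1 x y h]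
      norm_num
  · intro x y
    show ∑ z, A x z * A z y = 4 * (if x = y then 1 else 0) + 3 * A x y + 4 + 6 * (gr A x y / 6)
    rw [← h6 x y, gr]
    ring
  · intro x y hxy
    have hxy' : gr A x y / 6 = -1 := hxy
    have h1 : A x y = 1 := by
      rcases hA.zo x y with h | h
      · exfalso
        by_cases hne : x = y
        · rw [← hne, gdg x] at hxy'
          norm_num at hxy'
        · rcases hval0 x y hne h with h1 | h1 <;> rw [h1] at hxy' <;> norm_num at hxy'
      · exact h
    obtain ⟨z, -, -, -, hz⟩ := hL V A hA hO x y h1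
    refine ⟨z, fun t => ?_⟩
    show gr A z t / 6 = -(gr A x t / 6) - gr A y t / 6
    have h2 := hz t
    have h3 := h6 x t
    have h4 := h6 y t
    have h5 := h6 z t
    omega

end Pool.Agent.T4h89.KN
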