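import Pool.Agent.T4h89.KN.Stm

/-!
# KN, task TR

Real symmetric matrices with the same characteristic polynomial have the same traces of
polynomials: the trace of `q(M)` is the sum of `q` over the roots of the characteristic polynomial.
-/

namespace Pool.Agent.T4h89.KN

namespace TR

open Matrix Polynomial

lemma trace_aeval_eq {V : Type} [Fintype V] [DecidableEq V] (M : Matrix V V ℝ) (hM : M.IsSymm)
    (q : ℝ[X]) : (aeval M q).trace = (M.charpoly.roots.map (fun a => q.eval a)).sum := by
  have hH : M.IsHermitian := by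
    rw [Matrix.IsHermitian, Matrix.conjTranspose_eq_transpose_of_trivial]
    exact hM
  have h1 : M.charpoly.roots = Multiset.map hH.eigenvalues Finset.univ.val := by
    rw [hH.roots_charpoly_eq_eigenvalues]
    rfl
  rw [h1, Multiset.map_map]
  have h2 : M = Unitary.conjStarAlgAut ℝ _ hH.eigenvectorUnitary
      (diagonal hH.eigenvalues) := hH.spectral_theorem
  have h3 : aeval M q = Unitary.conjStarAlgAut ℝ _ hH.eigenvectorUnitary
      (aeval (diagonal hH.eigenvalues) q) := by
    conv_lhs => rw [h2]
    exact Polynomial.aeval_algHom_apply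
      (Unitary.conjStarAlgAut ℝ (Matrix V V ℝ) hH.eigenvectorUnitary).toStarAlgHom.toAlgHom _ q
  have h4 : aeval (diagonal hH.eigenvalues) q = diagonal (fun i => q.eval (hH.eigenvalues i)) := by
    have := Polynomial.aeval_algHom_apply (Matrix.diagonalAlgHom ℝ : (V → ℝ) →ₐ[ℝ] Matrix V V ℝ)
      hH.eigenvalues q
    have h5 : (Matrix.diagonalAlgHom ℝ : (V → ℝ) →ₐ[ℝ] Matrix V V ℝ) hH.eigenvalues
      = diagonal hH.eigenvalues := rfl
    rw [h5] at this
    rw [this]
    show diagonal (aeval hH.eigenvalues q) = _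
    congr 1
    funext i
    have h6 := Polynomial.aeval_algHom_apply (Pi.evalAlgHom ℝ (fun _ : V => ℝ) i)
      hH.eigenvalues q
    simp only [Pi.evalAlgHom_apply] at h6
    rw [← h6, Polynomial.coe_aeval_eq_eval]
  rw [h3, Unitary.conjStarAlgAut_apply, Matrix.trace_mul_comm, ← mul_assoc, h4]
  rw [Unitary.coe_star_mul_self, one_mul, Matrix.trace_diagonal]
  rfl

end TR

theorem t_TR : S_TR := by
  intro V W _ _ _ _ M N hM hN h q
  rw [TR.trace_aeval_eq M hM q, TR.trace_aeval_eq N hN q, h]

end Pool.Agent.T4h89.KN
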