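import Pool.Agent.T4h89.KN.Stm

/-!
# Project KN: task VAL
-/

set_option autoImplicit false

namespace Pool.Agent.T4h89.KN

open Finset

namespace VAL

variable {V : Type} [Fintype V] [DecidableEq V] {A : V → V → ℤ}

/-- number of common neighbours -/
def mm (A : V → V → ℤ) (x y : V) : ℕ := (univ.filter fun z => A x z = 1 ∧ A y z = 1).card

theorem comm (hC : Core A) (x y : V) : ∑ z, A x z * A z y = (mm A x y : ℤ) := by
  unfold mm
  rw [← Finset.sum_boole]
  refine Finset.sum_congr rfl fun z _ => ?_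
  rw [hC.sym z y]
  rcases hC.zo x z with h | h <;> rcases hC.zo y z with h' | h' <;> rw [h, h'] <;> simp

theorem deg (hC : Core A) (x : V) : (univ.filter fun z => A x z = 1).card = 20 := by
  have h : ((univ.filter fun z => A x z = 1).card : ℤ) = 20 := by
    rw [← hC.reg x, ← Finset.sum_boole]
    refine Finset.sum_congr rfl fun z _ => ?_
    rcases hC.zo x z with h | h <;> rw [h] <;> simp
  exact_mod_cast h

/-- value of `gr` at nonadjacent points -/
theorem gr0 (hC : Core A) {x y : V} (hxy : x ≠ y) (h0 : A x y = 0) : gr A x y = (mm A x y : ℤ) - 4 := by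
  unfold gr
  rw [comm hC, h0, if_neg hxy]
  ring

/-- value of `gr` at adjacent points -/
theorem gr1 (hC : Core A) (hO : OneT A) {x y : V} (h1 : A x y = 1) : gr A x y = -6 := by
  have hxy : x ≠ y := by
    rintro rfl
    rw [hC.dg] at h1
    norm_num at h1
  unfold gr
  rw [hO x y h1, h1, if_neg hxy]
  norm_num

/-- the third points of the lines through `x` -/
theorem third (hL : S_LIN) (hC : Core A) (hO : OneT A) (x : V) : ∃ T : V → V, ∀ a, A x a = 1 →
    A x (T a) = 1 ∧ A a (T a) = 1 ∧ (∀ w, A x w = 1 → A a w = 1 → w = T a) ∧ T (T a) = a ∧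
    ∀ t, gr A x t + gr A a t + gr A (T a) t = 0 := by
  classical
  have h := hL V A hC hO x
  choose T hT using h
  refine ⟨fun a => if ha : A x a = 1 then T a ha else a, fun a ha => ?_⟩
  obtain ⟨h1, h2, h3, h4⟩ := hT a ha
  have e1 : (if ha : A x a = 1 then T a ha else a) = T a ha := dif_pos ha
  have e2 : (if hb : A x (T a ha) = 1 then T (T a ha) hb else T a ha) = T (T a ha) h1 := dif_pos h1
  simp only [e1]
  refine ⟨h1, h2, h3, ?_, h4⟩
  rw [e2]
  obtain ⟨_, _, k3, _⟩ := hT (T a ha) h1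
  exact (k3 a ha (by rw [hC.sym]; exact h2)).symm

/-- (i) -/
theorem le10 (hL : S_LIN) (hC : Core A) (hO : OneT A) {x y : V} (hxy : x ≠ y) (_h0 : A x y = 0) :
    mm A x y ≤ 10 := by
  obtain ⟨T, hT⟩ := third hL hC hO x
  have hsub : (univ.filter fun z => A x z = 1 ∧ A y z = 1).image T ⊆
      (univ.filter fun z => A x z = 1) \ (univ.filter fun z => A x z = 1 ∧ A y z = 1) := by
    intro b hb
    rw [Finset.mem_image] at hb
    obtain ⟨a, ha, rfl⟩ := hb
    simp only [Finset.mem_filter, Finset.mem_univ, true_and] at ha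
    obtain ⟨h1, h2, h3, h4, _⟩ := hT a ha.1
    simp only [Finset.mem_sdiff, Finset.mem_filter, Finset.mem_univ, true_and]
    refine ⟨h1, ?_⟩
    rintro ⟨_, h5⟩
    -- the edge `a, T a` has the common neighbours `x`, `y`
    obtain ⟨z, _, _, hz, _⟩ := hL V A hC hO a (T a) h2
    have e1 := hz x (by rw [hC.sym]; exact ha.1) (by rw [hC.sym]; exact h1)
    have e2 := hz y (by rw [hC.sym]; exact ha.2) (by rw [hC.sym]; exact h5)
    exact hxy (e1.trans e2.symm)
  have hinj : Set.InjOn T ((univ.filter fun z => A x z = 1 ∧ A y z = 1 : Finset V) : Set V) := by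
    intro a ha b hb hab
    simp only [Finset.coe_filter, Finset.mem_univ, true_and, Set.mem_setOf_eq] at ha hb
    rw [← (hT a ha.1).2.2.2.1, ← (hT b hb.1).2.2.2.1, hab]
  have hc := Finset.card_le_card hsub
  rw [Finset.card_image_of_injOn hinj, Finset.card_sdiff_of_subset, deg hC] at hc
  · unfold mm
    omega
  · intro z hz
    simp only [Finset.mem_filter, Finset.mem_univ, true_and] at hz ⊢
    exact hz.1

/-- (ii) -/
theorem flip (hG : S_GAL) (hL : S_LIN) (hC : Core A) (hO : OneT A) {x y : V} (hxy : x ≠ y)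
    (h0 : A x y = 0) (hm : mm A x y ≠ 0) :
    ∃ b, y ≠ b ∧ A y b = 0 ∧ mm A y b + mm A x y = 14 := by
  obtain ⟨T, hT⟩ := third hL hC hO x
  have hne : (univ.filter fun z => A x z = 1 ∧ A y z = 1).Nonempty := by
    rw [← Finset.card_pos]
    exact Nat.pos_of_ne_zero hm
  obtain ⟨a, ha⟩ := hne
  simp only [Finset.mem_filter, Finset.mem_univ, true_and] at ha
  obtain ⟨h1, h2, h3, h4, h5⟩ := hT a ha.1
  have hyb : y ≠ T a := by
    rintro rfl
    rw [h0] at h1
    norm_num at h1
  have hb0 : A y (T a) = 0 := by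
    rcases hC.zo y (T a) with h | h
    · exact h
    · exfalso
      obtain ⟨z, _, _, hz, _⟩ := hL V A hC hO a (T a) h2
      have e1 := hz x (by rw [hC.sym]; exact ha.1) (by rw [hC.sym]; exact h1)
      have e2 := hz y (by rw [hC.sym]; exact ha.2) (by rw [hC.sym]; exact h)
      exact hxy (e1.trans e2.symm)
  refine ⟨T a, hyb, hb0, ?_⟩
  have hsymg := (hG V A hC).1
  have e := h5 y
  rw [gr0 hC hxy h0, gr1 hC hO (by rw [hC.sym]; exact ha.2 : A a y = 1), hsymg (T a) y,
    gr0 hC hyb hb0] at e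
  omega

/-- (iii) -/
theorem line (hG : S_GAL) (hL : S_LIN) (hC : Core A) (hO : OneT A) {x y : V} (hxy : x ≠ y)
    (h0 : A x y = 0) (hm : mm A x y < 10) :
    ∃ a b, y ≠ a ∧ A y a = 0 ∧ y ≠ b ∧ A y b = 0 ∧ mm A y a + mm A y b + mm A x y = 12 := by
  obtain ⟨T, hT⟩ := third hL hC hO x
  obtain ⟨C, hCd⟩ : ∃ C, C = univ.filter fun z => A x z = 1 ∧ A y z = 1 := ⟨_, rfl⟩
  have hCm : C.card = mm A x y := by rw [hCd]; rfl
  have hlt : (C ∪ C.image T).card < (univ.filter fun z => A x z = 1).card := by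
    rw [deg hC]
    have h1 := Finset.card_union_le C (C.image T)
    have h2 : (C.image T).card ≤ C.card := Finset.card_image_le
    omega
  obtain ⟨a, ha, hna⟩ := Finset.exists_mem_notMem_of_card_lt_card hlt
  simp only [Finset.mem_filter, Finset.mem_univ, true_and] at ha
  rw [Finset.mem_union, not_or] at hna
  obtain ⟨h1, h2, h3, h4, h5⟩ := hT a ha
  have hya : y ≠ a := by
    rintro rfl
    rw [h0] at ha
    norm_num at ha
  have hyb : y ≠ T a := by
    rintro rfl
    rw [h0] at h1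
    norm_num at h1
  have ha0 : A y a = 0 := by
    rcases hC.zo y a with h | h
    · exact h
    · exfalso
      apply hna.1
      rw [hCd]
      simp [ha, h]
  have hb0 : A y (T a) = 0 := by
    rcases hC.zo y (T a) with h | h
    · exact h
    · exfalso
      apply hna.2
      rw [Finset.mem_image]
      refine ⟨T a, ?_, h4⟩
      rw [hCd]
      simp [h1, h]
  refine ⟨a, T a, hya, ha0, hyb, hb0, ?_⟩
  have hsymg := (hG V A hC).1
  have e := h5 y
  rw [gr0 hC hxy h0, hsymg a y, gr0 hC hya ha0, hsymg (T a) y, gr0 hC hyb hb0] at e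
  omega

end VAL

open VAL in
theorem t_VAL (hG : S_GAL) (hL : S_LIN) : S_VAL := by
  intro V _ _ A hC hO x y hxy h0
  have hr : ∀ x y, x ≠ y → A x y = 0 → mm A x y = 0 ∨ 4 ≤ mm A x y := by
    intro x y hxy h0
    by_cases hm : mm A x y = 0
    · exact Or.inl hm
    · obtain ⟨b, hb1, hb2, hb3⟩ := flip hG hL hC hO hxy h0 hm
      have := le10 hL hC hO hb1 hb2
      omega
  have h9 : ∀ x y, x ≠ y → A x y = 0 → mm A x y ≠ 9 := by
    intro x y hxy h0 hm
    obtain ⟨a, b, ha, ha0, hb, hb0, e⟩ := line hG hL hC hO hxy h0 (by omega)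
    have h1 := hr y a ha ha0
    have h2 := hr y b hb hb0
    omega
  have h5 : ∀ x y, x ≠ y → A x y = 0 → mm A x y ≠ 5 := by
    intro x y hxy h0 hm
    obtain ⟨b, hb1, hb2, hb3⟩ := flip hG hL hC hO hxy h0 (by omega)
    have := h9 y b hb1 hb2
    omega
  have h7 : ∀ x y, x ≠ y → A x y = 0 → mm A x y ≠ 7 := by
    intro x y hxy h0 hm
    obtain ⟨a, b, ha, ha0, hb, hb0, e⟩ := line hG hL hC hO hxy h0 (by omega)
    have h1 := hr y a ha ha0
    have h2 := hr y b hb hb0
    have h3 := h5 y a ha ha0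
    have h4 := h5 y b hb hb0
    omega
  rw [gr0 hC hxy h0]
  have e1 := le10 hL hC hO hxy h0
  have e2 := hr x y hxy h0
  have e3 := h9 x y hxy h0
  have e4 := h5 x y hxy h0
  have e5 := h7 x y hxy h0
  omega

end Pool.Agent.T4h89.KN
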