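import Pool.Agent.T4h89.KN.T_CNT
import Pool.Agent.T4h89.KN.T_EQV
import Pool.Agent.T4h89.KN.T_GAL
import Pool.Agent.T4h89.KN.T_GEG
import Pool.Agent.T4h89.KN.T_GEN
import Pool.Agent.T4h89.KN.T_ISO
import Pool.Agent.T4h89.KN.T_KNE
import Pool.Agent.T4h89.KN.T_KRE
import Pool.Agent.T4h89.KN.T_KS
import Pool.Agent.T4h89.KN.T_LIN
import Pool.Agent.T4h89.KN.T_MU
import Pool.Agent.T4h89.KN.T_NUM
import Pool.Agent.T4h89.KN.T_ONB
import Pool.Agent.T4h89.KN.T_ONC
import Pool.Agent.T4h89.KN.T_OND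
import Pool.Agent.T4h89.KN.T_ONE
import Pool.Agent.T4h89.KN.T_REF
import Pool.Agent.T4h89.KN.T_SL
import Pool.Agent.T4h89.KN.T_SPEC
import Pool.Agent.T4h89.KN.T_SYS
import Pool.Agent.T4h89.KN.T_TR
import Pool.Agent.T4h89.KN.T_VAL

namespace Pool.Agent.T4h89.KN

open Finset

/-- Cospectral graphs in which every edge is in exactly one triangle. -/
theorem main0 (V : Type) [Fintype V] [DecidableEq V]
    (G : SimpleGraph V) [DecidableRel G.Adj]
    (hC : Core (fun x y => if G.Adj x y then (1 : ℤ) else 0))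
    (hO : OneT (fun x y => if G.Adj x y then (1 : ℤ) else 0)) : Nonempty (G ≃g kneser) := by
  have hG := t_GAL
  have hL := t_LIN hG
  have hV := t_VAL hG hL
  have hM := t_MU hG hV (t_CNT hG hL hV) t_GEG
  have hN := t_NUM
  have hR := t_REF hN
  have hS := t_SL hN (t_EQV hN hR) (t_KS t_KRE)
  obtain ⟨P, hP⟩ := t_SYS hG hL hM V _ hC hO
  exact t_ISO hS (t_GEN hR) V G P hP

theorem adj_iff {V : Type} [DecidableEq V] (G : SimpleGraph V) [DecidableRel G.Adj] (x y : V) :
    (if G.Adj x y then (1 : ℤ) else 0) = 1 ↔ G.Adj x y := by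
  by_cases h : G.Adj x y <;> simp [h]

theorem nadj_iff {V : Type} [DecidableEq V] (G : SimpleGraph V) [DecidableRel G.Adj] (x y : V) :
    (if G.Adj x y then (1 : ℤ) else 0) = 0 ↔ ¬ G.Adj x y := by
  by_cases h : G.Adj x y <;> simp [h]

theorem common_eq {V : Type} [Fintype V] [DecidableEq V] (G : SimpleGraph V) [DecidableRel G.Adj]
    (x y : V) : ∑ z, (if G.Adj x z then (1 : ℤ) else 0) * (if G.Adj z y then (1 : ℤ) else 0) =
      ((univ.filter fun z => G.Adj x z ∧ G.Adj y z).card : ℤ) := by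
  rw [Finset.card_filter]
  push_cast
  refine Finset.sum_congr rfl fun z _ => ?_
  have h : G.Adj z y ↔ G.Adj y z := G.adj_comm z y
  by_cases h1 : G.Adj x z <;> by_cases h2 : G.Adj y z <;> simp [h, h1, h2]

/-- The main theorem. -/
theorem main (V : Type) [Fintype V] [DecidableEq V] (G : SimpleGraph V) [DecidableRel G.Adj]
    (hcosp : (G.adjMatrix ℝ).charpoly = (kneser.adjMatrix ℝ).charpoly)
    (h : (∀ x y, G.Adj x y → ∃ z, G.Adj x z ∧ G.Adj y z) ∨
      (∀ x y z w, G.Adj x y → G.Adj x z → G.Adj y z → G.Adj x w → G.Adj y w → z ≠ w →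
        G.Adj z w) ∨
      (∀ x y x' y', G.Adj x y → G.Adj x' y' →
        (univ.filter fun z => G.Adj x z ∧ G.Adj y z).card =
          (univ.filter fun z => G.Adj x' z ∧ G.Adj y' z).card) ∨
      (∀ x y, x ≠ y → ¬ G.Adj x y →
        (univ.filter fun z => G.Adj x z ∧ G.Adj y z).card ≤ 4 ∨
          10 ≤ (univ.filter fun z => G.Adj x z ∧ G.Adj y z).card)) :
    Nonempty (G ≃g kneser) := by
  have hC := t_SPEC t_TR t_KNE V G hcosp
  refine main0 V G hC ?_
  rcases h with h | h | h | h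
  · refine t_ONE V _ hC (Or.inl ?_)
    intro x y hxy
    rw [adj_iff] at hxy
    obtain ⟨z, h1, h2⟩ := h x y hxy
    exact ⟨z, (adj_iff G x z).2 h1, (adj_iff G y z).2 h2⟩
  · refine t_ONB t_GAL hC ?_
    intro x y z w h1 h2 h3 h4 h5 h6
    simp only [adj_iff] at *
    exact h x y z w h1 h2 h3 h4 h5 h6
  · intro x y hxy
    have hxy' := (adj_iff G x y).1 hxy
    have h20 := core_tri20 hC x
    have hreg := hC.reg x
    have hall : ∀ y', (if G.Adj x y' then (1 : ℤ) else 0) *
        (∑ z, (if G.Adj x z then (1 : ℤ) else 0) * (if G.Adj z y' then (1 : ℤ) else 0)) =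
        (if G.Adj x y' then (1 : ℤ) else 0) *
        (∑ z, (if G.Adj x z then (1 : ℤ) else 0) * (if G.Adj z y then (1 : ℤ) else 0)) := by
      intro y'
      by_cases hy' : G.Adj x y'
      · rw [common_eq, common_eq, h x y' x y hy' hxy']
      · simp [hy']
    have h20' : ∑ y', (if G.Adj x y' then (1 : ℤ) else 0) *
        (∑ z, (if G.Adj x z then (1 : ℤ) else 0) * (if G.Adj z y' then (1 : ℤ) else 0)) = 20 := h20
    rw [Finset.sum_congr rfl fun y' _ => hall y', ← Finset.sum_mul] at h20'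
    have hreg' : ∑ y', (if G.Adj x y' then (1 : ℤ) else 0) = 20 := hreg
    rw [hreg'] at h20'
    show ∑ z, (if G.Adj x z then (1 : ℤ) else 0) * (if G.Adj z y then (1 : ℤ) else 0) = 1
    linarith
  · refine t_ONC t_GAL hC ?_
    intro x y hne hxy
    have hxy' := (nadj_iff G x y).1 hxy
    have h1 := h x y hne hxy'
    have h2 := common_eq G x y
    show ∑ z, (if G.Adj x z then (1 : ℤ) else 0) * (if G.Adj z y then (1 : ℤ) else 0) ≤ 4 ∨
      10 ≤ ∑ z, (if G.Adj x z then (1 : ℤ) else 0) * (if G.Adj z y then (1 : ℤ) else 0)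
    rw [h2]
    rcases h1 with h1 | h1
    · left; exact_mod_cast h1
    · right; exact_mod_cast h1

/-- The main theorem with one more class: the numbers of common neighbours of the pairs of different
vertices which are not adjacent take at most two values. -/
theorem main2 (V : Type) [Fintype V] [DecidableEq V] (G : SimpleGraph V) [DecidableRel G.Adj]
    (hcosp : (G.adjMatrix ℝ).charpoly = (kneser.adjMatrix ℝ).charpoly)
    (h : (∀ x y, G.Adj x y → ∃ z, G.Adj x z ∧ G.Adj y z) ∨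
      (∀ x y z w, G.Adj x y → G.Adj x z → G.Adj y z → G.Adj x w → G.Adj y w → z ≠ w →
        G.Adj z w) ∨
      (∀ x y x' y', G.Adj x y → G.Adj x' y' →
        (univ.filter fun z => G.Adj x z ∧ G.Adj y z).card =
          (univ.filter fun z => G.Adj x' z ∧ G.Adj y' z).card) ∨
      (∀ x y, x ≠ y → ¬ G.Adj x y →
        (univ.filter fun z => G.Adj x z ∧ G.Adj y z).card ≤ 4 ∨
          10 ≤ (univ.filter fun z => G.Adj x z ∧ G.Adj y z).card) ∨
      (∃ m₁ m₂ : ℕ, ∀ x y, x ≠ y → ¬ G.Adj x y →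
        (univ.filter fun z => G.Adj x z ∧ G.Adj y z).card = m₁ ∨
          (univ.filter fun z => G.Adj x z ∧ G.Adj y z).card = m₂)) :
    Nonempty (G ≃g kneser) := by
  rcases h with h | h | h | h | ⟨m₁, m₂, h⟩
  · exact main V G hcosp (Or.inl h)
  · exact main V G hcosp (Or.inr (Or.inl h))
  · exact main V G hcosp (Or.inr (Or.inr (Or.inl h)))
  · exact main V G hcosp (Or.inr (Or.inr (Or.inr h)))
  · have hC := t_SPEC t_TR t_KNE V G hcosp
    refine main0 V G hC ?_
    refine t_OND t_GAL t_GEG hC (m₁ - 4) (m₂ - 4) ?_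
    intro x y hne hxy
    have hxy' := (nadj_iff G x y).1 hxy
    have h1 := h x y hne hxy'
    have h2 := common_eq G x y
    have h3 : gr (fun x y => if G.Adj x y then (1 : ℤ) else 0) x y =
        ((univ.filter fun z => G.Adj x z ∧ G.Adj y z).card : ℤ) - 4 := by
      rw [← h2]
      simp only [gr, if_neg hne, if_neg hxy']
      ring
    rw [h3]
    rcases h1 with h1 | h1
    · left; rw [h1]
    · right; rw [h1]

end Pool.Agent.T4h89.KN
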