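import Mathlib

/-!
# Spectral characterisation of K(9,3) among graphs with every edge in a triangle

Project KN (helper89), problem MP_8ffa71_co.  Every `S_X` below is a statement to prove as `t_X`
in `Pool/Agent/T4h89/KN/T_X.lean`.  `d x y` below stands for `if x = y then 1 else 0`.
-/

namespace Pool.Agent.T4h89.KN

open Finset

/-- The 84 three-element subsets of a set with nine elements. -/
abbrev Tri : Type := {s : Finset (Fin 9) // s.card = 3}

/-- The Kneser graph K(9,3): two 3-subsets are adjacent when they are disjoint. -/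
def kneser : SimpleGraph Tri where
  Adj s t := Disjoint s.1 t.1
  symm := ⟨fun _ _ h => Disjoint.symm h⟩
  loopless := ⟨fun s h => by
    have h0 : s.1 = ∅ := by simpa using h
    have h1 := s.2
    rw [h0] at h1
    simp at h1⟩

instance : DecidableRel kneser.Adj := fun s t => inferInstanceAs (Decidable (Disjoint s.1 t.1))

/-- The matrix identities that the spectrum gives: a symmetric 0/1 matrix with zero diagonal on 84
points, row sums 20, and `A^3 + 7 A^2 - 34 A - 40 = 120 J`. -/
structure Core {V : Type} [Fintype V] [DecidableEq V] (A : V → V → ℤ) : Prop where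
  card : Fintype.card V = 84
  sym : ∀ x y, A x y = A y x
  dg : ∀ x, A x x = 0
  zo : ∀ x y, A x y = 0 ∨ A x y = 1
  reg : ∀ x, ∑ y, A x y = 20
  cub : ∀ x y, (∑ z, ∑ w, A x z * A z w * A w y) + 7 * (∑ z, A x z * A z y) - 34 * A x y
    - 40 * (if x = y then 1 else 0) = 120

/-- The (scaled) Gram matrix of the eigenvalue `-10`: `A^2 - 3 A - 4 - 4 J`. -/
def gr {V : Type} [Fintype V] [DecidableEq V] (A : V → V → ℤ) (x y : V) : ℤ :=
  (∑ z, A x z * A z y) - 3 * A x y - 4 * (if x = y then 1 else 0) - 4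

/-- Every edge is in exactly one triangle. -/
def OneT {V : Type} [Fintype V] (A : V → V → ℤ) : Prop :=
  ∀ x y, A x y = 1 → ∑ z, A x z * A z y = 1

/-- The final structure: inner products `P x y` of 84 vectors of norm 2 in a space of dimension 8,
with values `-1` (adjacent), `0`, `1` for distinct points. -/
structure Sys {V : Type} [Fintype V] [DecidableEq V] (A P : V → V → ℤ) : Prop where
  card : Fintype.card V = 84
  Psym : ∀ x y, P x y = P y x
  Asym : ∀ x y, A x y = A y x
  Pdg : ∀ x, P x x = 2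
  Pval : ∀ x y, x ≠ y → P x y = -1 ∨ P x y = 0 ∨ P x y = 1
  Adef : ∀ x y, A x y = if P x y = -1 then 1 else 0
  P0 : ∀ x, ∑ z, P x z = 0
  A0 : ∀ x, ∑ z, A x z = 20
  PP : ∀ x y, ∑ z, P x z * P z y = 21 * P x y
  AP : ∀ x y, ∑ z, A x z * P z y = -10 * P x y
  AA : ∀ x y, ∑ z, A x z * A z y = 4 * (if x = y then 1 else 0) + 3 * A x y + 4 + 6 * P x y
  line : ∀ x y, P x y = -1 → ∃ z, ∀ t, P z t = -P x t - P y t

/-! ## Part A: from the spectrum to `Core` -/

/-- TR (60 lines): real symmetric matrices with the same characteristic polynomial have the same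
traces of polynomials.  (Diagonalise, `Matrix.IsHermitian.spectral_theorem`, or: the trace of
`q(M)` is the sum of `q` over the roots of the characteristic polynomial in ℂ.) -/
def S_TR : Prop := ∀ (V W : Type) [Fintype V] [DecidableEq V] [Fintype W] [DecidableEq W]
  (M : Matrix V V ℝ) (N : Matrix W W ℝ), M.IsSymm → N.IsSymm → M.charpoly = N.charpoly →
  ∀ q : Polynomial ℝ, (Polynomial.aeval M q).trace = (Polynomial.aeval N q).trace

/-- KNE (80 lines): the matrix of K(9,3) satisfies `Core`.  (Common neighbours of s, t: the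
3-subsets of the complement of s ∪ t, so 20, 10, 4, 1 for |s ∩ t| = 3, 2, 1, 0;
`A^2 = 20 I + A + 4 B0 + 10 B1` and `A B1 = 9 A + 4 B0`.  Bit masks and kernel evaluation
also work: 84^3 steps twice.) -/
def S_KNE : Prop := Core (V := Tri) (fun s t => if Disjoint s.1 t.1 then 1 else 0)

/-- SPEC (150 lines, inputs TR, KNE): cospectral graphs satisfy `Core`.
Proof.  `A` real adjacency matrix of `G`, `K` that of the Kneser graph.  card V = natDegree of the
charpoly = 84.  p = (X-20)(X+10)(X-4)(X+1), p(K) = (K-20) 120 J = 0, so tr p(A)^2 = tr p(K)^2 = 0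
and p(A) = 0 (symmetric real).  tr A^2 = tr K^2 = 1680, so 1^T A 1 = 1680 = 20 * 84.
E4 = (A-20)(A+10)(A+1) / (-16*14*5) and E1 = (A-20)(A+10)(A-4) / (-21*9*-5) are symmetric
idempotents (mod p) and (20-A)(10+A) = 224 E4 + 189 E1 identically.  Hence
|(20-A)1|^2 = 30 * 1^T(20-A)1 - 1^T(20-A)(10+A)1 = 0 - 224|E4 1|^2 - 189|E1 1|^2 <= 0, so A 1 = 20 1.
L = (A+10)(A-4)(A+1) has L^2 = 10080 L, L 1 = 10080 1, tr L = tr L(K) = 120*84 = 10080.
K' = L/10080 - J/84 is a symmetric idempotent of trace 0, so K' = 0 and L = 120 J.  -/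
def S_SPEC : Prop := ∀ (V : Type) [Fintype V] [DecidableEq V] (G : SimpleGraph V)
  [DecidableRel G.Adj], (G.adjMatrix ℝ).charpoly = (kneser.adjMatrix ℝ).charpoly →
  Core (fun x y => if G.Adj x y then 1 else 0)

/-! ## Part B: the values of `gr` -/

/-- ONE (30 lines): cub at x = y gives (A^3) x x = 20 = sum over the 20 neighbours y of x of
(A^2) x y; each is at least 1 (or each is at most 1), so each is 1. -/
def S_ONE : Prop := ∀ (V : Type) [Fintype V] [DecidableEq V] (A : V → V → ℤ), Core A →
  ((∀ x y, A x y = 1 → ∃ z, A x z = 1 ∧ A y z = 1) ∨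
   (∀ x y z w, A x y = 1 → A x z = 1 → A y z = 1 → A x w = 1 → A y w = 1 → z = w)) → OneT A

/-- GAL (60 lines): matrix algebra with `G = A^2 - 3A - 4 - 4J`, `A J = 20 J`, `cub`. -/
def S_GAL : Prop := ∀ (V : Type) [Fintype V] [DecidableEq V] (A : V → V → ℤ), Core A →
  (∀ x y, gr A x y = gr A y x) ∧ (∀ x, gr A x x = 12) ∧ (∀ x, ∑ z, gr A x z = 0) ∧
  (∀ x y, ∑ z, gr A x z * gr A z y = 126 * gr A x y) ∧
  (∀ x y, ∑ z, A x z * gr A z y = -10 * gr A x y)

/-- LIN (40 lines, input GAL): the third point of an edge.  z = the unique common neighbour.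
With f = e_x + e_y + e_z: f^T G f = 3*12 - 6*6 = 0, and |G f|^2 = f^T G^2 f = 126 f^T G f = 0. -/
def S_LIN : Prop := ∀ (V : Type) [Fintype V] [DecidableEq V] (A : V → V → ℤ), Core A → OneT A →
  ∀ x y, A x y = 1 → ∃ z, A x z = 1 ∧ A y z = 1 ∧
    (∀ w, A x w = 1 → A y w = 1 → w = z) ∧ ∀ t, gr A x t + gr A y t + gr A z t = 0

/-- VAL (90 lines, inputs GAL, LIN).  x ≠ y not adjacent, m = number of common neighbours,
gr x y = m - 4.  (i) m <= 10: a ↦ third(x,a) is an involution of N(x) that maps N(x) ∩ N(y) into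
its complement.  (ii) If a is a common neighbour, b = third(x,a) is not adjacent to y, b ≠ y and
gr y b = -gr y x - gr y a = -(m-4) + 6, so the number for (y,b) is 14 - m <= 10: m = 0 or m >= 4.
(iii) If m < 10 there is a line {x,a,b} with a, b not adjacent to y (count: the 20 neighbours of x)
and the numbers for (y,a), (y,b) add up to 12 - m.  So m = 9 is impossible (sum 3), hence m = 5
(14-5 = 9), hence m = 7 (sum 5 = 0+5 or 4+1). -/
def S_VAL : Prop := ∀ (V : Type) [Fintype V] [DecidableEq V] (A : V → V → ℤ), Core A → OneT A →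
  ∀ x y, x ≠ y → A x y = 0 →
    gr A x y = -4 ∨ gr A x y = 0 ∨ gr A x y = 2 ∨ gr A x y = 4 ∨ gr A x y = 6

/-- CNT (90 lines, inputs GAL, LIN, VAL).  Fix u, n_j = number of v with gr u v = j;
n_12 = 1 (v = u), n_{-6} = 20 (neighbours), others -4, 0, 2, 4, 6.  The sum of gr is 0, the sum of
gr^2 is 126*12 = 1512: -4a+2b+4c+6d = 108 and 16a+4b+16c+36d = 648 with a = n_{-4}, b = n_2,
c = n_4, d = n_6.  Also 8c = 6b: (v,w) ↦ (third(v,w), w) is a bijection from the pairs with
gr u v = 4, w adjacent to u and v onto the pairs with gr u v' = 2, w adjacent to u and v' (a v with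
gr u v = j has j + 4 common neighbours with u).  Then 7b = 20a, 7c = 15a, and
sum (gr^3 - 36 gr) = 1296 + 80a - 64b - 80c < 0 if a + b + c > 0 (omega). -/
def S_CNT : Prop := ∀ (V : Type) [Fintype V] [DecidableEq V] (A : V → V → ℤ), Core A → OneT A →
  ∀ u, (∃ v, gr A u v = -4 ∨ gr A u v = 2 ∨ gr A u v = 4) →
    ∑ v, (gr A u v ^ 3 - 36 * gr A u v) < 0

/-- GEG (90 lines, no input).  z c = sum over v in S of g c v,
T a b c = sum over v in S of g a v * g b v * g c v, U a b c = g a b * z c + g b c * z a + g c a * z b,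
Y = sum over v, w in S of g v w.  Sum of T^2 = 126^3 * sum over S×S of g^3;
sum of T*U = 36 * 126^3 * Y; sum of U^2 = 30 * 126^3 * Y (uses sum of g a b ^2 = 126*12*84).
0 <= sum (T-U)^2 gives sum g^3 >= 42 Y, and 126 Y = sum z^2 >= 0. -/
def S_GEG : Prop := ∀ (V : Type) [Fintype V] [DecidableEq V] (g : V → V → ℤ),
  Fintype.card V = 84 → (∀ x y, g x y = g y x) → (∀ x, g x x = 12) →
  (∀ x y, ∑ z, g x z * g z y = 126 * g x y) →
  ∀ S : Finset V, 0 ≤ ∑ x ∈ S, ∑ y ∈ S, (g x y ^ 3 - 36 * g x y)

/-- MU (60 lines, inputs GAL, VAL, CNT, GEG).  S = the u for which some v has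
gr u v in {-4, 2, 4}.  For x in S and y not in S, gr x y is in {-6, 0, 6} (12 only for x = y), where
t^3 - 36 t = 0; so the sum over S×S is the sum over S×V, negative if S is not empty: S is empty. -/
def S_MU : Prop := ∀ (V : Type) [Fintype V] [DecidableEq V] (A : V → V → ℤ), Core A → OneT A →
  ∀ x y, x ≠ y → A x y = 0 → gr A x y = 0 ∨ gr A x y = 6

/-- SYS (60 lines, inputs GAL, LIN, MU).  P x y = gr A x y / 6 (gr is 12, -6, 0 or 6). -/
def S_SYS : Prop := ∀ (V : Type) [Fintype V] [DecidableEq V] (A : V → V → ℤ), Core A → OneT A →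
  ∃ P : V → V → ℤ, Sys A P

/-! ## Part C: a `Sys` is the Kneser graph -/

/-- NUM (60 lines).  For all x y, with J1 = [P = 1] = P + A - 2d:
sum_z J1 x z * J1 z y = 8d - A + 4 + 3P, sum_z A x z * A z y (field AA), and
sum_z A y z * [P z x = 0] = 12 - 5A - 8d - 2P. -/
def S_NUM : Prop := ∀ (V : Type) [Fintype V] [DecidableEq V] (A P : V → V → ℤ), Sys A P →
  (∀ x y, P x y = 1 → (univ.filter fun z => P x z = 1 ∧ P y z = 1).card = 7 ∧
    (univ.filter fun z => P x z = -1 ∧ P y z = -1).card = 10 ∧
    (univ.filter fun z => P x z = 0 ∧ P y z = -1).card = 10) ∧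
  (∀ x y, P x y = 0 → (univ.filter fun z => P x z = 1 ∧ P y z = 1).card = 4) ∧
  (∀ x, (univ.filter fun z => P x z = 1).card = 18) ∧
  (∀ x y, P x y = 2 → x = y)

/-- REF (120 lines, input NUM).  x + y below are formal sums of vectors, third(a,b) = -a-b for
P a b = -1.  Let r = u - v', where v' := v of the statement has P u v' = 1, and w with P w u = 1,
P w v' = 0; to find: w - r.  (In the statement: z = v + w - u.)  Suppose not.  By NUM take
y2 ≠ y3 with P y u = 0, P y v = -1.  For y in {y2, y3}: a = third(y,v), P a u = -1, third(a,u) =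
y - r =: y'.  P w y = 1: if it were 0 then P w y' = -1, a = third(w,y'), P a y = -1,
third(a,y) = w - r; -1 would give P w y' = -2.  P u y2' = -1: z = third(u,y2');
P w z = -1: q = third(w,z) = u + y2' - w.  P y2 y3 is 0 or 1 (if -1, the third point t has
P t v = 2 so t = v but P t u = 0).  P q y3' = P y2 y3 - 1.  If it is -1: t = third(q,y3') has
P t u = 1, P t v = -1, and third(t,v) has product -2 with u, impossible.  If it is 0:
P q y3 = -1, t = third(q,y3), P t y3' = -1, h = third(t,y3') = q + r, P h z = -1 and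
third(h,z) = w - r.  Contradiction. -/
def S_REF : Prop := ∀ (V : Type) [Fintype V] [DecidableEq V] (A P : V → V → ℤ), Sys A P →
  ∀ u v w, P u v = 1 → P u w = 1 → P v w = 0 → ∃ z, ∀ t, P z t = P v t + P w t - P u t

/-- EQV (60 lines, inputs NUM, REF).  In N = common points of product 1 with u and v: (a) values 0 or 1
for different points (third point would have product -2 with u); (b) no three points with pairwise
products 0: z = w + w' - u has P z w'' = -1 and the third point has product -2 with v; (c) P w w' = 0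
excludes w'' in N with P w w'' = P w' w'' = 1: w, w' would have the five common points u, v, w'',
w + w' - u, w + w' - v, all different (NUM says 4). -/
def S_EQV : Prop := ∀ (V : Type) [Fintype V] [DecidableEq V] (A P : V → V → ℤ), Sys A P →
  ∀ u v, P u v = 1 →
    (∀ w w', P u w = 1 → P v w = 1 → P u w' = 1 → P v w' = 1 → w ≠ w' → P w w' = 0 ∨ P w w' = 1) ∧
    (∀ w w' w'', P u w = 1 → P v w = 1 → P u w' = 1 → P v w' = 1 → P u w'' = 1 → P v w'' = 1 →
      P w w' = 0 → P w w'' = 0 → P w' w'' ≠ 0) ∧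
    (∀ w w' w'', P u w = 1 → P v w = 1 → P u w' = 1 → P v w' = 1 → P u w'' = 1 → P v w'' = 1 →
      P w w'' = 1 → P w' w'' = 1 → P w w' ≠ 0)

/-- KRE (90 lines, no input).  E = -84 d + 21 A + 14 P - 4 has sum_z E x z * E z y = -105 * E x y, and
P^2 E (entrywise) = -260 d + 13 A + 10 P, whose row sums are 0.
F p q r = sum_z P p z * P q z * E r z: sum over p, q, r of F^2 =
sum over z, z' of (21 P z z')^2 * (-105) * E z z' = 0, so F = 0, which divided by 7 is the claim. -/
def S_KRE : Prop := ∀ (V : Type) [Fintype V] [DecidableEq V] (A P : V → V → ℤ), Sys A P →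
  ∀ p q r, 3 * (∑ s, A r s * (P p s * P q s)) =
    12 * (P p r * P q r) + 12 * P p q - 2 * ∑ s, P p s * P q s * P r s

/-- KS (60 lines, input KRE).  KRE with r = u, p = v, q = t.  For s adjacent to u, P v s is -1 or 0
(line through u and s, P u v = 1).  T = sum_s P u s P v s P t s =
2 P u t + 2 P v t + (sum over (1,1)) + (sum over (-1,-1)). -/
def S_KS : Prop := ∀ (V : Type) [Fintype V] [DecidableEq V] (A P : V → V → ℤ), Sys A P →
  ∀ u v, P u v = 1 → ∀ t,
    ∑ s ∈ univ.filter (fun s => P u s = -1 ∧ P v s = -1), P s t =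
      2 * (∑ w ∈ univ.filter (fun w => P u w = 1 ∧ P v w = 1), P w t) - 8 * (P u t + P v t)

/-- Nine 3-subsets: {0,1,x} for x = 2..8, then {0,2,3} and {1,2,3}. -/
def cfg (i : Fin 9) : Finset (Fin 9) :=
  if h : i.val < 7 then {0, 1, ⟨i.val + 2, by omega⟩} else if i = 7 then {0, 2, 3} else {1, 2, 3}

/-- SL (120 lines, inputs NUM, EQV, KS).  There are u, v with P u v = 1; N = the 7 common points;
(P = 1 or equal) is an equivalence on N with at most two classes (EQV).  d w = number of w' in N with
P w w' = 1.  KS with t = w in N: the left side is -(number of s adjacent to u, v and w) >= -10, the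
right side 2(2 + d w) - 16: so d w >= 1, and d w = 6 means that no s is adjacent to u, v, w.  If N is
one class, then every s adjacent to u and v has P w s = 0 for all w in N (P w s is -1 or 0), and KS with
t = s gives 2 + (at most 9) = 16: contradiction.  So the classes have sizes {2,5} or {3,4}; {3,4} is
impossible: c = 4 on the class of size 3, 3 on the class of size 4, -8 on u and v has
sum c x c y P x y = -12... (compute: negative; 21 * (this sum) = sum of squares).
Take c 0 = u, c 1 = v, c 2..c 6 the class of 5, c 7, c 8 the class of 2. -/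
def S_SL : Prop := ∀ (V : Type) [Fintype V] [DecidableEq V] (A P : V → V → ℤ), Sys A P →
  ∃ c : Fin 9 → V, ∀ i j, P (c i) (c j) = ((cfg i ∩ cfg j).card : ℤ) - 1

/-- GEN (120 lines, input REF).  R = the integer vectors a : Fin 9 → ℤ such that some z has
P z t = sum_i a i * P (c i) t for all t.  R contains the unit vectors, contains -a-b if the product of
a and b (Gram matrix of cfg) is -1 (line), and b + c - a if a·b = a·c = 1, b·c = 0 (REF).  A list of
84 steps reaches all 3-subsets; kernel evaluation. -/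
def S_GEN : Prop := ∀ (V : Type) [Fintype V] [DecidableEq V] (A P : V → V → ℤ), Sys A P →
  ∀ c : Fin 9 → V, (∀ i j, P (c i) (c j) = ((cfg i ∩ cfg j).card : ℤ) - 1) →
  ∃ f : Tri → V, ∀ s t : Tri, P (f s) (f t) = ((s.1 ∩ t.1).card : ℤ) - 1

/-- ISO (40 lines, inputs SL, GEN). -/
def S_ISO : Prop := ∀ (V : Type) [Fintype V] [DecidableEq V] (G : SimpleGraph V)
  [DecidableRel G.Adj] (P : V → V → ℤ), Sys (fun x y => if G.Adj x y then 1 else 0) P →
  Nonempty (G ≃g kneser)

end Pool.Agent.T4h89.KN
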