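import Pool.Agent.T4h89.KN.Stm

namespace Pool.Agent.T4h89.KN

open Finset

theorem t_CNT (hG : S_GAL) (hL : S_LIN) (hV : S_VAL) : S_CNT := by
  intro V _ _ A hC hO u hex
  obtain ⟨gsym, gdg, g0, gg, _⟩ := hG V A hC
  have hval := hV V A hC hO
  have hlin := hL V A hC hO
  set g : V → V → ℤ := gr A with hg
  have hadj : ∀ x y, A x y = 1 → g x y = -6 := by
    intro x y h
    have h1 := hO x y h
    have hne : x ≠ y := by
      intro he; rw [he, hC.dg] at h; norm_num at h
    simp only [hg, gr, h1, h, if_neg hne]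
    norm_num
  have hA2 : ∀ x y, (∑ z, A x z * A z y) = g x y + 3 * A x y + 4 * (if x = y then 1 else 0) + 4 := by
    intro x y
    simp only [hg, gr]; ring
  -- classification
  have hcls : ∀ v, (v = u ∧ g u v = 12 ∧ A u v = 0) ∨ (v ≠ u ∧ A u v = 1 ∧ g u v = -6) ∨
      (v ≠ u ∧ A u v = 0 ∧ (g u v = -4 ∨ g u v = 0 ∨ g u v = 2 ∨ g u v = 4 ∨ g u v = 6)) := by
    intro v
    by_cases hvu : v = u
    · left; subst hvu; exact ⟨rfl, gdg v, hC.dg v⟩
    · right
      rcases hC.zo u v with h | h
      · right; exact ⟨hvu, h, hval u v (Ne.symm hvu) h⟩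
      · left; exact ⟨hvu, h, hadj u v h⟩
  let na : ℤ := ∑ v, (if g u v = -4 then (1 : ℤ) else 0)
  let nb : ℤ := ∑ v, (if g u v = 2 then (1 : ℤ) else 0)
  let nc : ℤ := ∑ v, (if g u v = 4 then (1 : ℤ) else 0)
  let nd : ℤ := ∑ v, (if g u v = 6 then (1 : ℤ) else 0)
  have hone : ∑ v : V, (if v = u then (1 : ℤ) else 0) = 1 := by simp
  have e1 : ∀ v, g u v = 12 * (if v = u then 1 else 0) + (-6) * A u v
      + (-4) * (if g u v = -4 then 1 else 0) + 2 * (if g u v = 2 then 1 else 0)
      + 4 * (if g u v = 4 then 1 else 0) + 6 * (if g u v = 6 then 1 else 0) := by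
    intro v
    rcases hcls v with ⟨h1, h2, h3⟩ | ⟨h1, h2, h3⟩ | ⟨h1, h2, h3 | h3 | h3 | h3 | h3⟩ <;>
      simp [h1, h2, h3]
    · rw [h1] at h2 h3; simp [h2, h3]
  have e2 : ∀ v, g u v * g v u = 144 * (if v = u then 1 else 0) + 36 * A u v
      + 16 * (if g u v = -4 then 1 else 0) + 4 * (if g u v = 2 then 1 else 0)
      + 16 * (if g u v = 4 then 1 else 0) + 36 * (if g u v = 6 then 1 else 0) := by
    intro v
    rw [gsym v u]
    rcases hcls v with ⟨h1, h2, h3⟩ | ⟨h1, h2, h3⟩ | ⟨h1, h2, h3 | h3 | h3 | h3 | h3⟩ <;>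
      simp [h1, h2, h3]
    · rw [h1] at h2 h3; simp [h2, h3]
  have e3 : ∀ v, g u v ^ 3 - 36 * g u v = 1296 * (if v = u then 1 else 0)
      + 80 * (if g u v = -4 then 1 else 0) + (-64) * (if g u v = 2 then 1 else 0)
      + (-80) * (if g u v = 4 then 1 else 0) := by
    intro v
    rcases hcls v with ⟨h1, h2, h3⟩ | ⟨h1, h2, h3⟩ | ⟨h1, h2, h3 | h3 | h3 | h3 | h3⟩ <;>
      simp [h1, h2, h3]
    · rw [h1] at h2 h3; simp [h2]
  have s1 : 0 = 12 - 120 - 4 * na + 2 * nb + 4 * nc + 6 * nd := by
    have h := g0 u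
    rw [Finset.sum_congr rfl (fun v _ => e1 v)] at h
    simp only [Finset.sum_add_distrib, ← Finset.mul_sum] at h
    rw [hone, hC.reg u] at h
    change 12 * 1 + (-6) * 20 + (-4) * na + 2 * nb + 4 * nc + 6 * nd = 0 at h
    linarith
  have s2 : 1512 = 144 + 720 + 16 * na + 4 * nb + 16 * nc + 36 * nd := by
    have h := gg u u
    rw [gdg u, Finset.sum_congr rfl (fun v _ => e2 v)] at h
    simp only [Finset.sum_add_distrib, ← Finset.mul_sum] at h
    rw [hone, hC.reg u] at h
    change 144 * 1 + 36 * 20 + 16 * na + 4 * nb + 16 * nc + 36 * nd = 126 * 12 at h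
    linarith
  have s3 : ∑ v, (g u v ^ 3 - 36 * g u v) = 1296 + 80 * na - 64 * nb - 80 * nc := by
    rw [Finset.sum_congr rfl (fun v _ => e3 v)]
    simp only [Finset.sum_add_distrib, ← Finset.mul_sum]
    rw [hone]
    change 1296 * 1 + 80 * na + (-64) * nb + (-80) * nc = _
    ring
  -- the involution
  choose! T hT using hlin
  let ψ : ℤ → ℤ := fun t => (if t = 4 then 1 else 0) - (if t = 2 then 1 else 0)
  have hw : ∀ w, A u w = 1 → ∑ v ∈ univ.filter (fun v => A w v = 1), ψ (g u v) = 0 := by
    intro w huw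
    refine Finset.sum_involution (fun v _ => T w v) ?_ ?_ ?_ ?_
    · intro v hv
      have hv' : A w v = 1 := by simpa using hv
      obtain ⟨h1, h2, h3, h4⟩ := hT w v hv'
      have h5 := h4 u
      have h6 : g w u = -6 := by rw [gsym]; exact hadj u w huw
      have h7 : g u (T w v) = 6 - g u v := by
        rw [gsym u (T w v), gsym u v]
        linarith
      simp only [ψ]
      rw [h7]
      by_cases q4 : g u v = 4
      · simp [q4]
      · by_cases q2 : g u v = 2
        · simp [q2]
        · have q4' : ¬ (6 - g u v = 2) := by omega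
          have q2' : ¬ (6 - g u v = 4) := by omega
          simp [q4, q2, q4', q2']
    · intro v hv _ he
      have hv' : A w v = 1 := by simpa using hv
      obtain ⟨h1, h2, h3, h4⟩ := hT w v hv'
      have he' : T w v = v := he
      rw [he', hC.dg] at h2
      norm_num at h2
    · intro v hv
      have hv' : A w v = 1 := by simpa using hv
      obtain ⟨h1, h2, h3, h4⟩ := hT w v hv'
      simpa using h1
    · intro v hv
      have hv' : A w v = 1 := by simpa using hv
      obtain ⟨h1, h2, h3, h4⟩ := hT w v hv'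
      obtain ⟨k1, k2, k3, k4⟩ := hT w (T w v) h1
      have h2' : A (T w v) v = 1 := by rw [hC.sym]; exact h2
      exact (k3 v hv' h2').symm
  have hsum : ∑ v, ψ (g u v) * (∑ w, A u w * A w v) = 0 := by
    have h1 : ∑ v, ψ (g u v) * (∑ w, A u w * A w v) =
        ∑ w, A u w * (∑ v, A w v * ψ (g u v)) := by
      simp only [Finset.mul_sum]
      rw [Finset.sum_comm]
      refine Finset.sum_congr rfl fun w _ => Finset.sum_congr rfl fun v _ => ?_
      ring
    rw [h1]
    refine Finset.sum_eq_zero fun w _ => ?_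
    rcases hC.zo u w with h | h
    · rw [h]; ring
    · have h2 := hw w h
      have h3 : ∑ v, A w v * ψ (g u v) = ∑ v ∈ univ.filter (fun v => A w v = 1), ψ (g u v) := by
        rw [Finset.sum_filter]
        refine Finset.sum_congr rfl fun v _ => ?_
        rcases hC.zo w v with k | k <;> simp [k]
      rw [h3, h2]; ring
  have s4 : 8 * nc = 6 * nb := by
    have h1 : ∀ v, ψ (g u v) * (∑ w, A u w * A w v) =
        8 * (if g u v = 4 then 1 else 0) + (-6) * (if g u v = 2 then 1 else 0) := by
      intro v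
      rw [hA2 u v]
      simp only [ψ]
      rcases hcls v with ⟨h1, h2, h3⟩ | ⟨h1, h2, h3⟩ | ⟨h1, h2, h3 | h3 | h3 | h3 | h3⟩
      · rw [h2]; norm_num
      · rw [h3]; norm_num
      · rw [h3]; norm_num
      · rw [h3]; norm_num
      · rw [h3, h2, if_neg (Ne.symm h1)]; norm_num
      · rw [h3, h2, if_neg (Ne.symm h1)]; norm_num
      · rw [h3]; norm_num
    rw [Finset.sum_congr rfl (fun v _ => h1 v)] at hsum
    simp only [Finset.sum_add_distrib, ← Finset.mul_sum] at hsum
    change 8 * nc + (-6) * nb = 0 at hsum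
    linarith
  have nna : 0 ≤ na := Finset.sum_nonneg fun v _ => by split_ifs <;> norm_num
  have nnb : 0 ≤ nb := Finset.sum_nonneg fun v _ => by split_ifs <;> norm_num
  have nnc : 0 ≤ nc := Finset.sum_nonneg fun v _ => by split_ifs <;> norm_num
  have hpos : 0 < na + nb + nc := by
    obtain ⟨v, hv⟩ := hex
    have key : ∀ k : ℤ, g u v = k → 0 < ∑ v, (if g u v = k then (1 : ℤ) else 0) := by
      intro k hk
      have h1 : (1 : ℤ) ≤ ∑ v, (if g u v = k then (1 : ℤ) else 0) := by
        have h2 := Finset.single_le_sum (f := fun v => if g u v = k then (1 : ℤ) else 0)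
          (fun i _ => by
            show (0 : ℤ) ≤ if g u i = k then (1 : ℤ) else 0
            split_ifs <;> norm_num) (Finset.mem_univ v)
        simpa [hk] using h2
      linarith
    rcases hv with h | h | h
    · have := key _ h; change 0 < na at this; linarith
    · have := key _ h; change 0 < nb at this; linarith
    · have := key _ h; change 0 < nc at this; linarith
  rw [s3]
  clear_value na nb nc nd
  omega

end Pool.Agent.T4h89.KN
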