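import Pool.Agent.T4h89.KN.T_ONC

/-! KI: the Krein inequality for all graphs with the spectrum. -/

set_option autoImplicit false

namespace Pool.Agent.T4h89.KN

open Finset

namespace KI

variable {V : Type} [Fintype V] [DecidableEq V]

/-- A multiple of the projection to the eigenspace of `-1`. -/
def FF (A : V → V → ℤ) (x y : V) : ℤ :=
  252 * (if x = y then 1 else 0) - 63 * A x y - 7 * gr A x y + 12

theorem F_sym (hG : S_GAL) {A : V → V → ℤ} (hC : Core A) (x y : V) : FF A x y = FF A y x := by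
  obtain ⟨gsym, _, _, _, _⟩ := hG V A hC
  unfold FF
  rw [hC.sym x y, gsym x y]
  by_cases hxy : x = y
  · rw [if_pos hxy, if_pos hxy.symm]
  · rw [if_neg hxy, if_neg (fun hc => hxy hc.symm)]

theorem F_sq (hG : S_GAL) {A : V → V → ℤ} (hC : Core A) (x y : V) :
    ∑ z, FF A x z * FF A z y = 315 * FF A x y := by
  obtain ⟨gsym, gdg, g0, gg, ag⟩ := hG V A hC
  have e1 : ∑ z, (if x = z then (1 : ℤ) else 0) * (if z = y then (1 : ℤ) else 0) =
      if x = y then 1 else 0 := by simp
  have e2 : ∀ f : V → ℤ, ∑ z, (if x = z then (1 : ℤ) else 0) * f z = f x := by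
    intro f
    simp
  have e3 : ∀ f : V → ℤ, ∑ z, f z * (if z = y then (1 : ℤ) else 0) = f y := by
    intro f
    simp
  have e4 : ∑ z, gr A x z * A z y = -10 * gr A x y := by
    have h1 := ag y x
    rw [gsym y x] at h1
    rw [← h1]
    refine Finset.sum_congr rfl fun z _ => ?_
    rw [gsym x z, hC.sym z y]
    ring
  have e5 : ∑ z, A z y = 20 := by
    rw [← hC.reg y]
    exact Finset.sum_congr rfl fun z _ => hC.sym z y
  have e6 : ∑ z, gr A z y = 0 := by
    rw [← g0 y]
    exact Finset.sum_congr rfl fun z _ => gsym z y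
  have e7 : ∑ _z : V, (144 : ℤ) = 144 * 84 := by
    rw [Finset.sum_const, Finset.card_univ, hC.card]
    norm_num
  have e8 : ∑ z, A x z * A z y =
      gr A x y + 3 * A x y + 4 * (if x = y then 1 else 0) + 4 := by
    unfold gr; ring
  have key : ∑ z, FF A x z * FF A z y =
      63504 * (∑ z, (if x = z then (1 : ℤ) else 0) * (if z = y then (1 : ℤ) else 0)) +
      252 * (∑ z, (if x = z then (1 : ℤ) else 0) * (-63 * A z y - 7 * gr A z y + 12)) +
      252 * (∑ z, (-63 * A x z - 7 * gr A x z + 12) * (if z = y then (1 : ℤ) else 0)) +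
      3969 * (∑ z, A x z * A z y) + 441 * (∑ z, A x z * gr A z y) +
      441 * (∑ z, gr A x z * A z y) +
      49 * (∑ z, gr A x z * gr A z y) + (-756) * (∑ z, A x z) + (-756) * (∑ z, A z y) +
      (-84) * (∑ z, gr A x z) + (-84) * (∑ z, gr A z y) + ∑ _z : V, (144 : ℤ) := by
    simp only [Finset.mul_sum, ← Finset.sum_add_distrib]
    refine Finset.sum_congr rfl fun z _ => ?_
    unfold FF
    ring
  rw [key, e1, e2, e3, e4, e5, e6, e7, e8, ag, gg, hC.reg, g0]
  unfold FF
  ring

theorem ineq (hG : S_GAL) {A : V → V → ℤ} (hC : Core A) :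
    0 ≤ ∑ x, ∑ y, gr A x y * gr A x y * FF A x y := by
  obtain ⟨gsym, gdg, g0, gg, ag⟩ := hG V A hC
  have hP : ∀ x y, ∑ z, gr A z x * gr A z y = 126 * gr A x y := by
    intro x y
    rw [← gg x y]
    exact Finset.sum_congr rfl fun z _ => by rw [gsym z x]
  have hE : ∀ x y, ∑ z, FF A z x * FF A z y = 315 * FF A x y := by
    intro x y
    rw [← F_sq hG hC x y]
    exact Finset.sum_congr rfl fun z _ => by rw [F_sym hG hC z x]
  have hsq : ∑ t : V × V × V, (∑ z, gr A t.1 z * gr A t.2.1 z * FF A t.2.2 z) ^ 2 =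
      5000940 * ∑ x, ∑ y, gr A x y * gr A x y * FF A x y := by
    calc ∑ t : V × V × V, (∑ z, gr A t.1 z * gr A t.2.1 z * FF A t.2.2 z) ^ 2
        = ∑ t : V × V × V, ∑ u : V × V, (gr A t.1 u.1 * gr A t.1 u.2) *
            (gr A t.2.1 u.1 * gr A t.2.1 u.2) * (FF A t.2.2 u.1 * FF A t.2.2 u.2) := by
          refine Finset.sum_congr rfl fun t _ => ?_
          rw [sq, Finset.sum_mul_sum, Fintype.sum_prod_type]
          refine Finset.sum_congr rfl fun z _ => Finset.sum_congr rfl fun z' _ => ?_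
          ring
      _ = ∑ u : V × V, ∑ t : V × V × V, (gr A t.1 u.1 * gr A t.1 u.2) *
            (gr A t.2.1 u.1 * gr A t.2.1 u.2) * (FF A t.2.2 u.1 * FF A t.2.2 u.2) :=
          Finset.sum_comm
      _ = ∑ u : V × V, (∑ a, gr A a u.1 * gr A a u.2) * (∑ b, gr A b u.1 * gr A b u.2) *
            (∑ c, FF A c u.1 * FF A c u.2) := by
          refine Finset.sum_congr rfl fun u _ => ?_
          simp only [Fintype.sum_prod_type]
          simp only [← Finset.mul_sum, ← Finset.sum_mul]
      _ = ∑ u : V × V, (126 * gr A u.1 u.2) * (126 * gr A u.1 u.2) * (315 * FF A u.1 u.2) := by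
          refine Finset.sum_congr rfl fun u _ => ?_
          rw [hP, hE]
      _ = ∑ x : V, ∑ y : V, (126 * gr A x y) * (126 * gr A x y) * (315 * FF A x y) := by
          rw [Fintype.sum_prod_type]
      _ = 5000940 * ∑ x, ∑ y, gr A x y * gr A x y * FF A x y := by
          rw [Finset.mul_sum]
          refine Finset.sum_congr rfl fun x _ => ?_
          rw [Finset.mul_sum]
          refine Finset.sum_congr rfl fun y _ => ?_
          ring
  have h2 : 0 ≤ ∑ t : V × V × V, (∑ z, gr A t.1 z * gr A t.2.1 z * FF A t.2.2 z) ^ 2 :=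
    Finset.sum_nonneg fun t _ => sq_nonneg _
  rw [hsq] at h2
  linarith

end KI

end Pool.Agent.T4h89.KN
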