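import Pool.Agent.T4h89.KN.T_KI

/-! OND: at most two numbers of common neighbours of vertices which are not adjacent. -/

set_option autoImplicit false

namespace Pool.Agent.T4h89.KN

open Finset

theorem arith_OND (t1 t2 N : ℤ) (h1 : -4 ≤ t1) (h1' : t1 ≤ 16) (h2 : -4 ≤ t2) (h2' : t2 ≤ 16)
    (hN : (t2 - t1) * N = 108 - 63 * t1)
    (hD : 0 ≤ 648 - 108 * (t1 + t2) + 63 * (t1 * t2))
    (hD' : 648 - 108 * (t1 + t2) + 63 * (t1 * t2) ≤ 144)
    (hK : 648 * (t1 + t2) - 108 * (t1 * t2) - 3888 ≤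
      (10 + (t1 + t2)) * (648 - 108 * (t1 + t2) + 63 * (t1 * t2))) :
    648 - 108 * (t1 + t2) + 63 * (t1 * t2) = 0 := by
  interval_cases t1 <;> interval_cases t2 <;> omega

namespace OND

variable {V : Type} [Fintype V] [DecidableEq V]

/-- number of common neighbours -/
def cc (A : V → V → ℤ) (x y : V) : ℤ := ∑ z, A x z * A z y

theorem gr_eq (A : V → V → ℤ) (x y : V) :
    gr A x y = cc A x y - 3 * A x y - 4 * (if x = y then 1 else 0) - 4 := rfl

theorem cc_nonneg {A : V → V → ℤ} (hC : Core A) (x y : V) : 0 ≤ cc A x y := by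
  unfold cc
  refine Finset.sum_nonneg fun z _ => ?_
  rcases hC.zo x z with h | h <;> rcases hC.zo z y with k | k <;> rw [h, k] <;> norm_num

theorem cc_le {A : V → V → ℤ} (hC : Core A) (x y : V) : cc A x y ≤ 20 := by
  unfold cc
  rw [← hC.reg x]
  refine Finset.sum_le_sum fun z _ => ?_
  rcases hC.zo x z with h | h <;> rcases hC.zo z y with k | k <;> rw [h, k] <;> norm_num

theorem sumA1 {A : V → V → ℤ} (hC : Core A) (x : V) : ∑ y, A x y * (cc A x y - 1) = 0 := by
  have h1 : ∀ y, A x y * (cc A x y - 1) = A x y * cc A x y - A x y := fun y => by ring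
  rw [Finset.sum_congr rfl fun y _ => h1 y, Finset.sum_sub_distrib, hC.reg x]
  have h2 : ∑ y, A x y * cc A x y = 20 := core_tri20 hC x
  rw [h2]; norm_num

/-- counting the pairs with the value `t2` -/
theorem count {A : V → V → ℤ} (hG : S_GAL) (hC : Core A) (t1 t2 : ℤ)
    (hm : ∀ x y, x ≠ y → A x y = 0 → gr A x y = t1 ∨ gr A x y = t2) (x : V) :
    (t2 - t1) * (∑ y, (if x ≠ y ∧ A x y = 0 ∧ gr A x y = t2 then (1 : ℤ) else 0)) =
      108 - 63 * t1 := by
  obtain ⟨gsym, gdg, g0, gg, ag⟩ := hG V A hC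
  have h1 : ∀ y, gr A x y - t1 = (12 - t1) * (if x = y then 1 else 0) +
      (A x y * (cc A x y - 1) - (6 + t1) * A x y) +
      (t2 - t1) * (if x ≠ y ∧ A x y = 0 ∧ gr A x y = t2 then (1 : ℤ) else 0) := by
    intro y
    by_cases hxy : x = y
    · subst hxy
      rw [gdg x, hC.dg x]
      simp
    · rcases hC.zo x y with h | h
      · rcases hm x y hxy h with k | k
        · by_cases ht : t1 = t2
          · rw [k, h, ht]; simp [hxy]
          · rw [k, h]; simp [hxy, ht]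
        · rw [k, h]; simp [hxy]
      · have k : gr A x y = cc A x y - 7 := by
          rw [gr_eq, h, if_neg hxy]; ring
        rw [k, h]; simp [hxy]; ring
  have h2 : ∑ y, (gr A x y - t1) = -84 * t1 := by
    rw [Finset.sum_sub_distrib, g0 x, Finset.sum_const, Finset.card_univ, hC.card]
    simp
  rw [Finset.sum_congr rfl fun y _ => h1 y] at h2
  simp only [Finset.sum_add_distrib, Finset.sum_sub_distrib, ← Finset.mul_sum] at h2
  rw [sumA1 hC x, hC.reg x] at h2
  simp only [Finset.sum_ite_eq, Finset.mem_univ, if_true] at h2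
  linarith

theorem attained {A : V → V → ℤ} (hG : S_GAL) (hC : Core A) (t1 t2 : ℤ)
    (hm : ∀ x y, x ≠ y → A x y = 0 → gr A x y = t1 ∨ gr A x y = t2) (x : V) :
    -4 ≤ t2 ∧ t2 ≤ 16 := by
  have h1 := count hG hC t1 t2 hm x
  by_cases hex : ∃ y, x ≠ y ∧ A x y = 0 ∧ gr A x y = t2
  · obtain ⟨y, h2, h3, h4⟩ := hex
    have h5 := gr_eq A x y
    rw [h3, if_neg h2, h4] at h5
    have h6 := cc_nonneg hC x y
    have h7 := cc_le hC x y
    constructor <;> linarith
  · exfalso
    have h2 : ∑ y, (if x ≠ y ∧ A x y = 0 ∧ gr A x y = t2 then (1 : ℤ) else 0) = 0 := by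
      refine Finset.sum_eq_zero fun y _ => ?_
      rw [if_neg]
      intro h
      exact hex ⟨y, h⟩
    rw [h2] at h1
    omega

theorem L2_eq {A : V → V → ℤ} (hG : S_GAL) (hC : Core A) (t1 t2 : ℤ)
    (hm : ∀ x y, x ≠ y → A x y = 0 → gr A x y = t1 ∨ gr A x y = t2) (x : V) :
    ∑ y, A x y * (cc A x y - 1) ^ 2 = 648 - 108 * (t1 + t2) + 63 * (t1 * t2) := by
  obtain ⟨gsym, gdg, g0, gg, ag⟩ := hG V A hC
  have h1 : ∀ y, gr A x y * gr A y x - (t1 + t2) * gr A x y + t1 * t2 =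
      ((12 - t1) * (12 - t2)) * (if x = y then 1 else 0) +
      (A x y * (cc A x y - 1) ^ 2 - (12 + t1 + t2) * (A x y * (cc A x y - 1)) +
        ((6 + t1) * (6 + t2)) * A x y) := by
    intro y
    rw [gsym y x]
    by_cases hxy : x = y
    · subst hxy
      rw [gdg x, hC.dg x]
      simp; ring
    · rcases hC.zo x y with h | h
      · rcases hm x y hxy h with k | k <;> rw [k, h, if_neg hxy] <;> ring
      · have k : gr A x y = cc A x y - 7 := by
          rw [gr_eq, h, if_neg hxy]; ring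
        rw [k, h, if_neg hxy]; ring
  have h2 : ∑ y, (gr A x y * gr A y x - (t1 + t2) * gr A x y + t1 * t2) =
      1512 + 84 * (t1 * t2) := by
    rw [Finset.sum_add_distrib, Finset.sum_sub_distrib, ← Finset.mul_sum, g0 x, gg x x, gdg x,
      Finset.sum_const, Finset.card_univ, hC.card]
    simp
  rw [Finset.sum_congr rfl fun y _ => h1 y] at h2
  simp only [Finset.sum_add_distrib, Finset.sum_sub_distrib, ← Finset.mul_sum] at h2
  rw [sumA1 hC x, hC.reg x] at h2
  simp only [Finset.sum_ite_eq, Finset.mem_univ, if_true] at h2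
  linarith

theorem g3_eq {A : V → V → ℤ} (hG : S_GAL) (hC : Core A) (t1 t2 : ℤ)
    (hm : ∀ x y, x ≠ y → A x y = 0 → gr A x y = t1 ∨ gr A x y = t2) (x : V) :
    ∑ y, gr A x y ^ 3 = (∑ y, A x y * (cc A x y - 1) ^ 3) -
      (18 + (t1 + t2)) * (648 - 108 * (t1 + t2) + 63 * (t1 * t2)) - 2592 + 648 * (t1 + t2)
      - 108 * (t1 * t2) := by
  have hL2 := L2_eq hG hC t1 t2 hm x
  obtain ⟨gsym, gdg, g0, gg, ag⟩ := hG V A hC
  have h1 : ∀ y, gr A x y ^ 3 - (t1 + t2) * (gr A x y * gr A y x) + t1 * t2 * gr A x y =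
      (12 * ((12 - t1) * (12 - t2))) * (if x = y then 1 else 0) +
      (A x y * (cc A x y - 1) ^ 3 - (18 + t1 + t2) * (A x y * (cc A x y - 1) ^ 2) +
        (6 * (6 + t1) + 6 * (6 + t2) + (6 + t1) * (6 + t2)) * (A x y * (cc A x y - 1)) -
        (6 * ((6 + t1) * (6 + t2))) * A x y) := by
    intro y
    rw [gsym y x]
    by_cases hxy : x = y
    · subst hxy
      rw [gdg x, hC.dg x]
      simp; ring
    · rcases hC.zo x y with h | h
      · rcases hm x y hxy h with k | k <;> rw [k, h, if_neg hxy] <;> ring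
      · have k : gr A x y = cc A x y - 7 := by
          rw [gr_eq, h, if_neg hxy]; ring
        rw [k, h, if_neg hxy]; ring
  have h2 : ∑ y, (gr A x y ^ 3 - (t1 + t2) * (gr A x y * gr A y x) + t1 * t2 * gr A x y) =
      (∑ y, gr A x y ^ 3) - (t1 + t2) * 1512 := by
    rw [Finset.sum_add_distrib, Finset.sum_sub_distrib, ← Finset.mul_sum, ← Finset.mul_sum, g0 x,
      gg x x, gdg x]
    ring
  rw [Finset.sum_congr rfl fun y _ => h1 y] at h2
  simp only [Finset.sum_add_distrib, Finset.sum_sub_distrib, ← Finset.mul_sum] at h2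
  rw [sumA1 hC x, hC.reg x, hL2] at h2
  simp only [Finset.sum_ite_eq, Finset.mem_univ, if_true] at h2
  linarith

theorem ki_eq {A : V → V → ℤ} (hG : S_GAL) (hC : Core A) (x : V) :
    ∑ y, gr A x y * gr A x y * KI.FF A x y =
      9072 - 63 * (∑ y, A x y * (cc A x y - 1) ^ 2) - 7 * ∑ y, gr A x y ^ 3 := by
  obtain ⟨gsym, gdg, g0, gg, ag⟩ := hG V A hC
  have h1 : ∀ y, gr A x y * gr A x y * KI.FF A x y =
      36288 * (if x = y then 1 else 0) - 63 * (A x y * (cc A x y - 1) ^ 2) +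
      756 * (A x y * (cc A x y - 1)) - 2268 * A x y - 7 * gr A x y ^ 3 +
      12 * (gr A x y * gr A y x) := by
    intro y
    rw [gsym y x]
    unfold KI.FF
    by_cases hxy : x = y
    · subst hxy
      rw [gdg x, hC.dg x]
      simp
    · rw [if_neg hxy]
      rcases hC.zo x y with h | h
      · rw [h]; ring
      · have k : gr A x y = cc A x y - 7 := by
          rw [gr_eq, h, if_neg hxy]; ring
        rw [k, h]; ring
  rw [Finset.sum_congr rfl fun y _ => h1 y]
  simp only [Finset.sum_add_distrib, Finset.sum_sub_distrib, ← Finset.mul_sum]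
  rw [sumA1 hC x, hC.reg x, gg x x, gdg x]
  simp only [Finset.sum_ite_eq, Finset.mem_univ, if_true]
  ring

end OND

/-- If the numbers of common neighbours of the pairs of different vertices which are not adjacent
take at most two values, then every edge is in exactly one triangle. -/
theorem t_OND (hG : S_GAL) (hE : S_GEG) {V : Type} [Fintype V] [DecidableEq V] {A : V → V → ℤ}
    (hC : Core A) (t1 t2 : ℤ)
    (hm : ∀ x y, x ≠ y → A x y = 0 → gr A x y = t1 ∨ gr A x y = t2) : OneT A := by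
  intro x0 y0 hxy0
  have hm' : ∀ x y, x ≠ y → A x y = 0 → gr A x y = t2 ∨ gr A x y = t1 :=
    fun x y h1 h2 => (hm x y h1 h2).symm
  obtain ⟨b1, b2⟩ := OND.attained hG hC t1 t2 hm x0
  obtain ⟨a1, a2⟩ := OND.attained hG hC t2 t1 hm' x0
  have hN := OND.count hG hC t1 t2 hm x0
  have hL2 := OND.L2_eq hG hC t1 t2 hm
  have hg3 := OND.g3_eq hG hC t1 t2 hm
  have hnn : ∀ x y, 0 ≤ A x y * (OND.cc A x y - 1) ^ 2 := by
    intro x y
    rcases hC.zo x y with h | h <;> rw [h]
    · norm_num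
    · rw [one_mul]; exact sq_nonneg _
  have hD : 0 ≤ 648 - 108 * (t1 + t2) + 63 * (t1 * t2) := by
    rw [← hL2 x0]
    exact Finset.sum_nonneg fun y _ => hnn x0 y
  have hL3 : ∀ x, -(648 - 108 * (t1 + t2) + 63 * (t1 * t2)) ≤
      ∑ y, A x y * (OND.cc A x y - 1) ^ 3 := by
    intro x
    rw [← hL2 x, ← Finset.sum_neg_distrib]
    refine Finset.sum_le_sum fun y _ => ?_
    have hc := OND.cc_nonneg hC x y
    rcases hC.zo x y with h | h <;> rw [h]
    · norm_num
    · have : 0 ≤ (OND.cc A x y - 1) ^ 2 * (OND.cc A x y) := mul_nonneg (sq_nonneg _) hc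
      nlinarith
  obtain ⟨gsym, gdg, g0, gg, ag⟩ := hG V A hC
  have hgeg : 0 ≤ ∑ x, ∑ y, gr A x y ^ 3 := by
    have h1 := hE V (gr A) hC.card gsym gdg gg univ
    have h2 : ∑ x, ∑ y, (gr A x y ^ 3 - 36 * gr A x y) = ∑ x, ∑ y, gr A x y ^ 3 := by
      refine Finset.sum_congr rfl fun x _ => ?_
      rw [Finset.sum_sub_distrib, ← Finset.mul_sum, g0 x]; ring
    rw [h2] at h1
    exact h1
  have hki := KI.ineq hG hC
  rw [Finset.sum_congr rfl fun x _ => OND.ki_eq hG hC x] at hki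
  rw [Finset.sum_sub_distrib, ← Finset.mul_sum] at hki
  rw [Finset.sum_congr rfl fun x _ => show (9072 : ℤ) -
      63 * (∑ y, A x y * (OND.cc A x y - 1) ^ 2) = 9072 -
      63 * (648 - 108 * (t1 + t2) + 63 * (t1 * t2)) by rw [hL2 x]] at hki
  rw [Finset.sum_const, Finset.card_univ, hC.card] at hki
  have hlow : 84 * (-(648 - 108 * (t1 + t2) + 63 * (t1 * t2)) -
      (18 + (t1 + t2)) * (648 - 108 * (t1 + t2) + 63 * (t1 * t2)) - 2592 + 648 * (t1 + t2)
      - 108 * (t1 * t2)) ≤ ∑ x, ∑ y, gr A x y ^ 3 := by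
    have h1 : ∑ _x : V, (-(648 - 108 * (t1 + t2) + 63 * (t1 * t2)) -
      (18 + (t1 + t2)) * (648 - 108 * (t1 + t2) + 63 * (t1 * t2)) - 2592 + 648 * (t1 + t2)
      - 108 * (t1 * t2)) ≤ ∑ x, ∑ y, gr A x y ^ 3 := by
      refine Finset.sum_le_sum fun x _ => ?_
      rw [hg3 x]
      have := hL3 x
      linarith
    rw [Finset.sum_const, Finset.card_univ, hC.card] at h1
    simpa using h1
  have hki' : 7 * ∑ x, ∑ y, gr A x y ^ 3 ≤
      84 * (9072 - 63 * (648 - 108 * (t1 + t2) + 63 * (t1 * t2))) := by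
    have : (84 : ℕ) • ((9072 : ℤ) - 63 * (648 - 108 * (t1 + t2) + 63 * (t1 * t2))) =
        84 * (9072 - 63 * (648 - 108 * (t1 + t2) + 63 * (t1 * t2))) := by
      rw [nsmul_eq_mul]; norm_num
    rw [this] at hki
    linarith
  have hD0 := arith_OND t1 t2 _ a1 a2 b1 b2 hN hD (by linarith) (by nlinarith)
  have hz := hL2 x0
  rw [hD0] at hz
  have h0 := (Finset.sum_eq_zero_iff_of_nonneg (fun y _ => hnn x0 y)).1 hz y0 (Finset.mem_univ y0)
  rw [hxy0, one_mul] at h0
  have h1 : OND.cc A x0 y0 - 1 = 0 := pow_eq_zero_iff (two_ne_zero) |>.1 h0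
  show OND.cc A x0 y0 = 1
  linarith

end Pool.Agent.T4h89.KN
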